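import Pool.Agent.Lib.MP_5c318e_ag.S.PBas
import Pool.Agent.Lib.MP_5c318e_ag.A.NF
/-! A finite linear projection of an affine chart over a base, and the primes at infinity. -/
set_option autoImplicit false
namespace Pool.Agent.Lib.MP_5c318e_ag
open Set
noncomputable section

/-- the value of a polynomial over the base ring at a point of the base and a vector -/
def evP {R ν : Type} [CommRing R] [Algebra ℂ R] (b : Pt R) (a : ν → ℂ) :
    MvPolynomial ν R →+* ℂ := MvPolynomial.eval₂Hom (b.hom : R →+* ℂ) a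

/-- `l` are integral linear forms in the generators `z` of `O` over `R`; off `h = 0` they dominate
the `z a` at every valuation -/
structure Noe {R M α : Type} [CommRing R] [Algebra ℂ R] [Field M] [Algebra ℂ M]
    {O : Subalgebra ℂ M} (K : Type) [Field K] [Algebra R K] [Algebra K M] (inc : R →ₐ[ℂ] O)
    (ν : Type) (z : α → O) where
  l : ν → O
  h : R
  ne : h ≠ 0
  inc_eq : ∀ r, (inc r : M) = algebraMap K M (algebraMap R K r)
  gen : Algebra.adjoin ℂ (range inc ∪ range z) = ⊤
  frac : ∀ φ : M, ∃ a b : O, b ≠ 0 ∧ φ * b = a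
  mem : ∀ j, l j ∈ Submodule.span ℤ (range z)
  basis : IsTranscendenceBasis K fun j => (l j : M)
  dom : ∀ V : ValuationSubring M, (∀ r, (inc r : M) ∈ V) → (inc h : M)⁻¹ ∈ V → ∀ γ, 1 ≤ γ →
    (∀ j, V.valuation (l j : M) ≤ γ) → ∀ a, V.valuation (z a : M) ≤ γ

namespace Noe

variable {R M α K ν : Type} [CommRing R] [Algebra ℂ R] [Field M] [Algebra ℂ M]
  {O : Subalgebra ℂ M} [Field K] [Algebra R K] [Algebra K M] {inc : R →ₐ[ℂ] O} {z : α → O}
  (N : Noe K inc ν z)

/-- the projection of a point -/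
def L (p : Pt O) : ν → ℂ := fun j => p (N.l j)

/-- polynomials in `l` over the base ring -/
def em : MvPolynomial ν R →+* O := MvPolynomial.eval₂Hom (inc : R →+* O) N.l

/-- `V` lies over the degree valuation of `K (l)` -/
def Inf (V : ValuationSubring M) : Prop := ∃ γ, 1 < γ ∧ ∀ q : MvPolynomial ν K, q ≠ 0 →
  V.valuation (MvPolynomial.aeval (fun j => (N.l j : M)) q) = γ ^ q.totalDegree

/-- the primes at infinity -/
abbrev DD : Type := {V : ValuationSubring M // N.Inf V}

/-- `g` has degree at most `k` at all primes at infinity -/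
def Deg (g : M) (k : ℕ) : Prop :=
  ∀ V, N.Inf V → ∀ j, V.valuation g ≤ V.valuation (N.l j : M) ^ k

/-- uniformisers, ramification indices and orders at the primes at infinity -/
structure Uni [DecidableEq ν] (j0 : ν) where
  π : N.DD → M
  e : N.DD → ℕ
  od : N.DD → M → ℤ
  pos : ∀ V, 0 < e V
  adp : ∀ V : N.DD,
    Adp K V.1 (Function.update (fun j => (N.l j : M) / N.l j0) j0 (π V)) j0
  unit : ∀ V V' : N.DD, V' ≠ V → V'.1.valuation (π V) = 1
  val : ∀ (V : N.DD) (φ : M), φ ≠ 0 → V.1.valuation φ = V.1.valuation (π V) ^ od V φ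
  od_l : ∀ V j, od V (N.l j) = -(e V : ℤ)

/-- the part of base times space where `De` has the size of its degree -/
def Big [Fintype ν] (De : MvPolynomial ν R) (c : ℝ) : Set (Pt R × (ν → ℂ)) :=
  {x | 1 ≤ ‖x.2‖ ∧ c * ‖x.2‖ ^ De.totalDegree ≤ ‖evP x.1 x.2 De‖}

end Noe

end
end Pool.Agent.Lib.MP_5c318e_ag
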