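import Pool.Agent.Lib.MP_5c318e_ag.S.CDiv
/-! Valuation rings above a discrete valuation ring in a finite extension; the degree ring. -/
set_option autoImplicit false
namespace Pool.Agent.Lib.MP_5c318e_ag
open Set IsLocalRing
open scoped WithZero nonZeroDivisors
noncomputable section

/-- an element of all valuation rings above a ring is integral -/
theorem int_of_val {P M : Type} [CommRing P] [Field M] [Algebra P M] {φ : M}
    (H : ∀ V : ValuationSubring M, (∀ a, algebraMap P M a ∈ V) → φ ∈ V) : IsIntegral P φ := by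
  have h1 : φ ∈ (integralClosure (Subring.closure (range (algebraMap P M))) M).toSubring := by
    rw [← iInf_valuationSubring_superset, Subring.mem_iInf]
    exact fun V => H V.1 fun a => V.2 ⟨a, rfl⟩
  have h2 : Subring.closure (range (algebraMap P M)) = (algebraMap P M).range :=
    Subring.closure_eq (algebraMap P M).range
  rw [h2] at h1
  obtain ⟨q, hq, h0⟩ : IsIntegral (algebraMap P M).range φ := h1
  obtain ⟨q', e, -, hq'⟩ := Polynomial.lifts_and_degree_eq_and_monic
    (Polynomial.mem_lifts_of_surjective (algebraMap P M).rangeRestrict_surjective q) hq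
  refine ⟨q', hq', ?_⟩
  rw [← e, Polynomial.eval₂_map] at h0
  exact h0

theorem mem_of_int {P M : Type} [CommRing P] [Field M] [Algebra P M] {φ : M} (h : IsIntegral P φ)
    (V : ValuationSubring M) (hV : ∀ a, algebraMap P M a ∈ V) : φ ∈ V := by
  let _ : Algebra P V := ((algebraMap P M).codRestrict V.toSubring hV).toAlgebra
  have : IsScalarTower P V M := .of_algebraMap_eq fun _ => rfl
  obtain ⟨y, hy⟩ := IsIntegrallyClosed.isIntegral_iff.1 (IsIntegral.tower_top (A := V) h)
  exact hy ▸ y.2

theorem alg_of_range {S F M : Type} [CommRing S] [Field M] [Algebra S M] [Field F] [Algebra F M]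
    (hi : Function.Injective (algebraMap S M))
    (h : ∀ s, algebraMap S M s ∈ range (algebraMap F M)) {φ : M} (hφ : IsAlgebraic S φ) :
    IsAlgebraic F φ := by
  obtain ⟨p, h0, hp⟩ := hφ
  obtain ⟨q, hq⟩ := (Polynomial.mem_lifts (f := algebraMap F M) (p.map (algebraMap S M))).1
    ((Polynomial.lifts_iff_coeff_lifts _).2 fun n => by rw [Polynomial.coeff_map]; exact h _)
  refine ⟨q, fun e => h0 (Polynomial.map_injective _ hi ?_), ?_⟩
  · rw [← hq, e, Polynomial.map_zero, Polynomial.map_zero]
  · rw [← Polynomial.eval_map_algebraMap, hq, Polynomial.eval_map_algebraMap, hp]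

/-- clearing denominators -/
theorem mv_clear {R K ν : Type} [CommRing R] [IsDomain R] [Field K] [Algebra R K]
    [IsFractionRing R K] (q : MvPolynomial ν K) : ∃ (r : R) (q' : MvPolynomial ν R), r ≠ 0 ∧
      MvPolynomial.map (algebraMap R K) q' = MvPolynomial.C (algebraMap R K r) * q := by
  induction q using MvPolynomial.induction_on with
  | C a =>
    obtain ⟨x, y, hy, rfl⟩ := IsFractionRing.div_surjective R a
    refine ⟨y, MvPolynomial.C x, nonZeroDivisors.ne_zero hy, ?_⟩
    rw [MvPolynomial.map_C, ← map_mul,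
      mul_div_cancel₀ _ (IsFractionRing.to_map_ne_zero_of_mem_nonZeroDivisors hy)]
  | add p q hp hq =>
    obtain ⟨r, p', h1, h2⟩ := hp
    obtain ⟨s, q', h3, h4⟩ := hq
    refine ⟨r * s, MvPolynomial.C s * p' + MvPolynomial.C r * q', mul_ne_zero h1 h3, ?_⟩
    simp only [map_add, map_mul, MvPolynomial.map_C, h2, h4]
    ring
  | mul_X p i hp =>
    obtain ⟨r, p', h1, h2⟩ := hp
    exact ⟨r, p' * MvPolynomial.X i, h1, by rw [map_mul, h2, MvPolynomial.map_X, mul_assoc]⟩

theorem deg_map_inj {R S ν : Type} [CommRing R] [CommRing S] {f : R →+* S}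
    (hf : Function.Injective f) (q : MvPolynomial ν R) :
    (MvPolynomial.map f q).totalDegree = q.totalDegree := by
  rw [MvPolynomial.totalDegree, MvPolynomial.support_map_of_injective _ hf,
    MvPolynomial.totalDegree]

namespace NpI

section dvr

variable {F M : Type} [Field F] [CharZero F] [Field M] [Algebra F M] [FiniteDimensional F M]
  (A : ValuationSubring F) [IsDiscreteValuationRing A]

/-- uniformisers that separate the extensions -/
theorem ext_dvr : Finite {V : ValuationSubring M // V.comap (algebraMap F M) = A} ∧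
    ∃ π : {V : ValuationSubring M // V.comap (algebraMap F M) = A} → M,
      ∀ V, π V ≠ 0 ∧ V.1.valuation (π V) < 1 ∧
        (∀ f : M, f ≠ 0 → ∃ n : ℤ, V.1.valuation f = V.1.valuation (π V) ^ n) ∧
        ∀ V' : {V : ValuationSubring M // V.comap (algebraMap F M) = A}, V' ≠ V →
          V'.1.valuation (π V) = 1 := by
  let B := integralClosure A M
  have : IsDedekindDomain B := IsIntegralClosure.isDedekindDomain A F M B
  have : IsFractionRing B M := IsIntegralClosure.isFractionRing_of_finite_extension A F M B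
  have : FaithfulSMul A B := (faithfulSMul_iff_algebraMap_injective A B).2 fun a b e =>
    Subtype.ext ((algebraMap F M).injective (congrArg Subtype.val e))
  have hfin : {I : Ideal B | I.IsMaximal}.Finite := by
    refine (IsDedekindDomain.primesOver_finite (maximalIdeal A) B).subset fun I hI => ?_
    have : I.IsMaximal := hI
    exact ⟨inferInstance, ⟨(IsLocalRing.eq_maximalIdeal
      (Ideal.isMaximal_comap_of_isIntegral_of_isMaximal (R := A) I)).symm⟩⟩
  have : IsPrincipalIdealRing B := .of_finite_maximals hfin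
  have hB : ∀ V : {V : ValuationSubring M // V.comap (algebraMap F M) = A}, ∀ b : B,
      (b : M) ∈ V.1 := fun V b => mem_of_int b.2 V.1 fun a => by
    have : (a : F) ∈ V.1.comap (algebraMap F M) := V.2.symm ▸ a.2
    exact this
  -- the centre
  let c : {V : ValuationSubring M // V.comap (algebraMap F M) = A} → Ideal B := fun V =>
    (maximalIdeal V.1).comap (B.val.toRingHom.codRestrict V.1.toSubring (hB V))
  have hc : ∀ V (b : B), b ∈ c V ↔ V.1.valuation (b : M) < 1 := fun V b => by
    rw [Ideal.mem_comap, V.1.valuation_lt_one_iff]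
    rfl
  have hle : ∀ (V : {V : ValuationSubring M // V.comap (algebraMap F M) = A}) (b : B),
      V.1.valuation (b : M) ≤ 1 := fun V b =>
    (V.1.valuation_le_one_iff _).2 (hB V b)
  have hloc : ∀ V : {V : ValuationSubring M // V.comap (algebraMap F M) = A},
      ∀ φ ∈ V.1, ∃ a b : B, b ∉ c V ∧ φ * b = a := fun V φ hφ => by
    let _ : Algebra B V.1 := (B.val.toRingHom.codRestrict V.1.toSubring (hB V)).toAlgebra
    have : IsScalarTower B V.1 M := .of_algebraMap_eq fun _ => rfl
    obtain ⟨a, b, h1, h2⟩ := CDivA.loc_of_dedekind V.1 B hφ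
    exact ⟨a, b, fun h => ((hc V b).1 h).ne h1, h2⟩
  have hpr : ∀ V, (c V).IsPrime := fun V => Ideal.comap_isPrime _ _
  obtain ⟨t, ht⟩ := IsDiscreteValuationRing.exists_irreducible A
  have hne : ∀ V, c V ≠ ⊥ := fun V h => by
    have h1 : algebraMap A B t ∈ c V := by
      rw [hc]
      have h2 : (t : F)⁻¹ ∉ A := fun h2 => ht.not_isUnit
        (IsUnit.of_mul_eq_one ⟨_, h2⟩ (Subtype.ext (mul_inv_cancel₀ fun h0 =>
          ht.ne_zero (Subtype.ext h0))))
      refine lt_of_not_ge fun h3 => h2 ?_
      refine V.2.le (x := (t : F)⁻¹) ?_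
      change algebraMap F M (t : F)⁻¹ ∈ V.1
      rw [map_inv₀, ← V.1.valuation_le_one_iff, map_inv₀]
      exact inv_le_one_of_one_le₀ h3
    rw [h, Ideal.mem_bot] at h1
    have h2 : algebraMap F M (t : F) = 0 := congrArg Subtype.val h1
    exact ht.ne_zero (Subtype.ext ((map_eq_zero _).1 h2))
  have hmax : ∀ V, (c V).IsMaximal := fun V => (hpr V).isMaximal (hne V)
  have hsub : ∀ V V', c V = c V' → V.1 ≤ V'.1 := fun V V' e φ hφ => by
    obtain ⟨a, b, h1, h2⟩ := hloc V φ hφ
    rw [e, hc, not_lt] at h1
    rw [← V'.1.valuation_le_one_iff]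
    have h3 := hle V' a
    rwa [← h2, map_mul, le_antisymm (hle V' b) h1, mul_one] at h3
  have hinj : Function.Injective c := fun V V' e =>
    Subtype.ext (le_antisymm (hsub V V' e) (hsub V' V e.symm))
  refine ⟨?_, ?_⟩
  · have := hfin.to_subtype
    exact Finite.of_injective (fun V => (⟨c V, hmax V⟩ : {I : Ideal B | I.IsMaximal}))
      fun V V' e => hinj (congrArg Subtype.val e)
  choose π hπ using fun V => (IsPrincipalIdealRing.principal (c V)).principal
  have hm : ∀ V (b : B), b ∈ c V ↔ π V ∣ b := fun V b => by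
    rw [hπ V]
    exact Ideal.mem_span_singleton
  have h0 : ∀ V, π V ≠ 0 := fun V h => hne V (by rw [hπ V, h]; simp)
  have hlt : ∀ V : {V : ValuationSubring M // V.comap (algebraMap F M) = A},
      V.1.valuation (π V : M) < 1 := fun V => (hc V _).1 ((hm V _).2 dvd_rfl)
  have hp0 : ∀ V : {V : ValuationSubring M // V.comap (algebraMap F M) = A},
      V.1.valuation (π V : M) ≠ 0 := fun V =>
    (Valuation.ne_zero_iff _).2 fun h => h0 V (Subtype.ext h)
  refine ⟨fun V => π V, fun V => ⟨fun h => h0 V (Subtype.ext h), hlt V, fun f hf => ?_,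
    fun V' hV => ?_⟩⟩
  · have key : ∀ b : B, b ≠ 0 → ∃ n : ℕ, V.1.valuation (b : M) = V.1.valuation (π V : M) ^ n := by
      intro b hb
      obtain ⟨n, u, hu, rfl⟩ := WfDvdMonoid.max_power_factor' hb
        (a₀ := b) (x := π V) fun hu => (hmax V).ne_top
          (Ideal.eq_top_of_isUnit_mem _ ((hm V _).2 dvd_rfl) hu)
      refine ⟨n, ?_⟩
      rw [← hm, hc, not_lt] at hu
      simp [le_antisymm (hle V u) hu]
    obtain ⟨x, y, hy, rfl⟩ := IsFractionRing.div_surjective B f
    have hx : x ≠ 0 := fun h => hf (by simp [h])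
    obtain ⟨n, hn⟩ := key x hx
    obtain ⟨m, hm'⟩ := key y (nonZeroDivisors.ne_zero hy)
    refine ⟨n - m, ?_⟩
    rw [map_div₀, zpow_sub₀ (hp0 V), zpow_natCast, zpow_natCast, ← hn, ← hm']
    rfl
  · refine le_antisymm (hle V' _) (not_lt.1 fun h => hV (hinj ?_))
    refine ((hmax V).eq_of_le (hmax V').ne_top fun b hb => ?_).symm
    obtain ⟨u, rfl⟩ := (hm V b).1 hb
    exact Ideal.mul_mem_right _ _ ((hc V' _).2 h)

end dvr

variable {K ν : Type} [CommRing K] [IsDomain K]

open Classical in
/-- the degree valuation -/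
def dv : Valuation (MvPolynomial ν K) ℤᵐ⁰ where
  toFun q := if q = 0 then 0 else WithZero.exp (q.totalDegree : ℤ)
  map_zero' := if_pos rfl
  map_one' := by simp
  map_mul' a b := by
    by_cases ha : a = 0
    · simp [ha]
    by_cases hb : b = 0
    · simp [hb]
    simp [ha, hb, MvPolynomial.totalDegree_mul_of_isDomain ha hb]
  map_add_le_max' a b := by
    by_cases ha : a = 0
    · simp [ha]
    by_cases hb : b = 0
    · simp [hb]
    by_cases hab : a + b = 0
    · simp [hab]
    have := MvPolynomial.totalDegree_add a b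
    simp only [ha, hb, hab, if_false, le_max_iff, WithZero.exp_le_exp, Nat.cast_le]
    omega

theorem dv_ne {q : MvPolynomial ν K} (h : q ≠ 0) : dv q = WithZero.exp (q.totalDegree : ℤ) :=
  if_neg h

theorem dv_supp : (MvPolynomial ν K)⁰ ≤ (dv (K := K) (ν := ν)).supp.primeCompl := fun q hq h => by
  have h1 : dv q = 0 := h
  rw [dv_ne (nonZeroDivisors.ne_zero hq)] at h1
  exact WithZero.exp_ne_zero h1

/-- the degree valuation on the field of rational functions -/
def dF : Valuation (FractionRing (MvPolynomial ν K)) ℤᵐ⁰ := 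
  (dv (K := K) (ν := ν)).extendToLocalization dv_supp _

theorem dF_map (q : MvPolynomial ν K) : dF (algebraMap _ (FractionRing (MvPolynomial ν K)) q) = dv q :=
  Valuation.extendToLocalization_apply_map_apply _ _ _ _

theorem mem_dF {a b : MvPolynomial ν K} (ha : a ≠ 0) (hb : b ≠ 0) :
    algebraMap _ (FractionRing (MvPolynomial ν K)) a / algebraMap _ _ b ∈
      (dF (K := K) (ν := ν)).valuationSubring ↔ a.totalDegree ≤ b.totalDegree := by
  rw [Valuation.mem_valuationSubring_iff, map_div₀, dF_map, dF_map, dv_ne ha, dv_ne hb,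
    div_le_one₀ WithZero.exp_pos, WithZero.exp_le_exp, Nat.cast_le]

theorem mem_dF' {a b : MvPolynomial ν K} (hb : b ≠ 0) (h : a.totalDegree ≤ b.totalDegree) :
    algebraMap _ (FractionRing (MvPolynomial ν K)) a / algebraMap _ _ b ∈
      (dF (K := K) (ν := ν)).valuationSubring := by
  by_cases ha : a = 0
  · simp [ha]
  · exact (mem_dF ha hb).2 h

theorem deg_le {a b : MvPolynomial ν K} (hb : b ≠ 0)
    (h : algebraMap _ (FractionRing (MvPolynomial ν K)) a / algebraMap _ _ b ∈
      (dF (K := K) (ν := ν)).valuationSubring) : a.totalDegree ≤ b.totalDegree := by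
  by_cases ha : a = 0
  · simp [ha]
  · exact (mem_dF ha hb).1 h

theorem dvr_dF (j : ν) : IsDiscreteValuationRing (dF (K := K) (ν := ν)).valuationSubring := by
  have : (dF (K := K) (ν := ν)).IsNontrivial := ⟨algebraMap _ _ (MvPolynomial.X j : MvPolynomial ν K),
    by rw [dF_map, dv_ne (MvPolynomial.X_ne_zero j)]; simp,
    by rw [dF_map, dv_ne (MvPolynomial.X_ne_zero j)]; simp⟩
  infer_instance

end NpI

end
end Pool.Agent.Lib.MP_5c318e_ag
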