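import Pool.Agent.Lib.MP_5c318e_ag.Np.Noe
import Pool.Agent.Lib.MP_5c318e_ag.Np.InfA
import Pool.Agent.Lib.MP_5c318e_ag.A.Split
/-! The primes at infinity: finiteness, uniformisers, integral equations. -/
set_option autoImplicit false
set_option linter.unusedSectionVars false
namespace Pool.Agent.Lib.MP_5c318e_ag
open Set MvPolynomial
noncomputable section

/-- homogenisation in the variable `j0` -/
theorem exists_homog {K M ν : Type} [Field K] [Field M] [Algebra K M] [DecidableEq ν] (j0 : ν)
    {l : ν → M} (h0 : l j0 ≠ 0) {p : MvPolynomial {j // j ≠ j0} K} (hp : p ≠ 0) :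
    ∃ q : MvPolynomial ν K, q ≠ 0 ∧ aeval l q =
      l j0 ^ q.totalDegree * aeval (fun j : {j // j ≠ j0} => l j / l j0) p := by
  let q : MvPolynomial ν K := ∑ m ∈ p.support, C (p.coeff m) *
    (X j0 ^ (p.totalDegree - m.degree) * ∏ i ∈ m.support, X (i : ν) ^ m i)
  have hle : ∀ m ∈ p.support, m.degree ≤ p.totalDegree := fun m hm => le_totalDegree hm
  have hh : q.IsHomogeneous p.totalDegree := by
    refine IsHomogeneous.sum _ _ _ fun m hm => IsHomogeneous.C_mul ?_ _
    have h1 := (isHomogeneous_X_pow (R := K) j0 (p.totalDegree - m.degree)).mul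
      (IsHomogeneous.prod m.support (fun i => (X (i : ν) : MvPolynomial ν K) ^ m i) (fun i => m i)
        fun i _ => isHomogeneous_X_pow _ _)
    rwa [show p.totalDegree - m.degree + ∑ i ∈ m.support, m i = p.totalDegree from
      Nat.sub_add_cancel (hle m hm)] at h1
  have hq : q ≠ 0 := fun e => hp <| by
    have h1 := congrArg (aeval fun j : ν =>
      if h : j = j0 then (1 : MvPolynomial {j // j ≠ j0} K) else X ⟨j, h⟩) e
    rw [map_zero] at h1
    rw [← h1, map_sum]
    conv_lhs => rw [p.as_sum]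
    refine Finset.sum_congr rfl fun m _ => ?_
    simp only [map_mul, map_pow, map_prod, aeval_X, aeval_C, dif_pos, one_pow, one_mul,
      monomial_eq, Finsupp.prod, algebraMap_eq]
    congr 1
    exact Finset.prod_congr rfl fun i _ => by rw [dif_neg i.2]
  refine ⟨q, hq, ?_⟩
  rw [hh.totalDegree hq, map_sum, aeval_def (fun j : {j // j ≠ j0} => l j / l j0), eval₂_eq,
    Finset.mul_sum]
  refine Finset.sum_congr rfl fun m hm => ?_
  simp only [map_mul, map_pow, map_prod, aeval_X, aeval_C, div_pow, Finset.prod_div_distrib,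
    Finset.prod_pow_eq_pow_sum]
  rw [pow_sub₀ _ h0 (hle m hm)]
  change _ = _ * (_ * (_ / l j0 ^ m.degree))
  ring

variable {R M α K ν : Type} [CommRing R] [IsDomain R] [Algebra ℂ R] [Field M] [Algebra ℂ M]
  {O : Subalgebra ℂ M} [Field K] [Algebra R K] [IsFractionRing R K] [Algebra K M]
  {inc : R →ₐ[ℂ] O} {z : α → O} [Fintype ν] [DecidableEq ν]

namespace Noe
variable (N : Noe K inc ν z)

/-- polynomials in `l`, in the field -/
def emM : MvPolynomial ν R →+* M := (O.val : O →+* M).comp N.em

theorem emM_apply (q : MvPolynomial ν R) : N.emM q = (N.em q : M) := rfl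

theorem emM_C (r : R) : N.emM (C r) = (inc r : M) := by simp [emM, em]

theorem emM_X (j : ν) : N.emM (X j) = (N.l j : M) := by simp [emM, em]

theorem emM_eq (q : MvPolynomial ν R) :
    N.emM q = aeval (fun j => (N.l j : M)) (map (algebraMap R K) q) := by
  induction q using MvPolynomial.induction_on with
  | C a => rw [emM_C, map_C, aeval_C, N.inc_eq]
  | add p q hp hq => simp only [map_add, hp, hq]
  | mul_X p i hp => simp only [map_mul, hp, emM_X, map_X, aeval_X]

theorem emM_inj : Function.Injective N.emM := fun a b e => by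
  rw [emM_eq, emM_eq] at e
  exact map_injective _ (IsFractionRing.injective R K) (N.basis.1 e)

theorem emM_ne {q : MvPolynomial ν R} (h : q ≠ 0) : N.emM q ≠ 0 :=
  (map_ne_zero_iff _ N.emM_inj).2 h

theorem l_ne (j : ν) : (N.l j : M) ≠ 0 := N.emM_X j ▸ N.emM_ne (X_ne_zero j)

theorem inf_iff (V : ValuationSubring M) : N.Inf V ↔ ∃ γ, 1 < γ ∧ ∀ q : MvPolynomial ν R, q ≠ 0 →
    V.valuation (N.emM q) = γ ^ q.totalDegree := by
  have hi := IsFractionRing.injective R K
  refine exists_congr fun γ => and_congr_right fun _ => ⟨fun h q hq => ?_, fun h q hq => ?_⟩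
  · rw [emM_eq, h _ ((map_ne_zero_iff _ (map_injective _ hi)).2 hq), deg_map_inj hi]
  · obtain ⟨r, q', hr, e⟩ := mv_clear (R := R) q
    have hr' : (C (algebraMap R K r) : MvPolynomial ν K) ≠ 0 :=
      C_ne_zero.2 ((map_ne_zero_iff _ hi).2 hr)
    have hq' : q' ≠ 0 := fun h0 => mul_ne_zero hr' hq (by rw [← e, h0, map_zero])
    have h1 := h q' hq'
    have h2 := h (C r) (C_ne_zero.2 hr)
    rw [emM_eq, ← deg_map_inj hi q', e, totalDegree_mul_of_isDomain hr' hq, totalDegree_C,
      zero_add, map_mul, map_mul] at h1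
    rw [emM_eq, totalDegree_C, pow_zero, map_C] at h2
    rwa [h2, one_mul] at h1

theorem Inf.val_em {N : Noe K inc ν z} {V : ValuationSubring M} (h : N.Inf V) (j : ν)
    {q : MvPolynomial ν R} (hq : q ≠ 0) :
    V.valuation (N.emM q) = V.valuation (N.l j : M) ^ q.totalDegree := by
  obtain ⟨γ, -, h⟩ := (N.inf_iff V).1 h
  rw [h q hq, ← N.emM_X, h _ (X_ne_zero j), totalDegree_X, pow_one]

theorem Inf.val_ll {N : Noe K inc ν z} {V : ValuationSubring M} (h : N.Inf V) (i j : ν) :
    V.valuation (N.l i : M) = V.valuation (N.l j : M) := by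
  rw [← N.emM_X i, h.val_em j (X_ne_zero i), totalDegree_X, pow_one]

/-- rational functions in `l` -/
def emF : FractionRing (MvPolynomial ν R) →+* M := IsFractionRing.lift N.emM_inj

theorem emF_map (q : MvPolynomial ν R) : N.emF (algebraMap _ _ q) = N.emM q :=
  IsFractionRing.lift_algebraMap _ _

theorem base_mem (a : K) : algebraMap K M a ∈ range N.emF := by
  obtain ⟨x, y, -, rfl⟩ := IsFractionRing.div_surjective R a
  exact ⟨algebraMap _ _ (C x : MvPolynomial ν R) / algebraMap _ _ (C y : MvPolynomial ν R), by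
    rw [map_div₀, emF_map, emF_map, emM_C, emM_C, map_div₀, N.inc_eq, N.inc_eq]⟩

theorem alg (φ : M) : @IsAlgebraic _ _ _ _ N.emF.toAlgebra φ := by
  let _ := N.emF.toAlgebra
  refine alg_of_range (S := Algebra.adjoin K (range fun j => (N.l j : M))) Subtype.val_injective
    (fun s => ?_) (N.basis.isAlgebraic.isAlgebraic φ)
  obtain ⟨s, hs⟩ := s
  change s ∈ N.emF.fieldRange
  induction hs using Algebra.adjoin_induction with
  | mem x hx =>
    obtain ⟨j, rfl⟩ := hx
    exact ⟨algebraMap _ _ (X j : MvPolynomial ν R), by rw [emF_map, emM_X]⟩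
  | algebraMap r => exact N.base_mem r
  | add x y _ _ h1 h2 => exact add_mem h1 h2
  | mul x y _ _ h1 h2 => exact mul_mem h1 h2

include N in
theorem charZero : CharZero R :=
  charZero_of_injective_algebraMap (algebraMap ℂ R).injective

theorem fin [Algebra.FiniteType ℂ O] :
    @FiniteDimensional (FractionRing (MvPolynomial ν R)) M _ _ N.emF.toAlgebra.toModule := by
  let _ := N.emF.toAlgebra
  obtain ⟨s, hs⟩ := Algebra.FiniteType.out (R := ℂ) (A := O)
  let E := IntermediateField.adjoin (FractionRing (MvPolynomial ν R)) ((↑) '' (s : Set O) : Set M)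
  have : Finite ((↑) '' (s : Set O) : Set M) := (s.finite_toSet.image _).to_subtype
  have : FiniteDimensional (FractionRing (MvPolynomial ν R)) E :=
    IntermediateField.finiteDimensional_adjoin fun x _ => (N.alg x).isIntegral
  have hO : ∀ a : O, (a : M) ∈ E := fun a => by
    have ha : a ∈ Algebra.adjoin ℂ (s : Set O) := hs ▸ Algebra.mem_top
    induction ha using Algebra.adjoin_induction with
    | mem x hx => exact IntermediateField.subset_adjoin _ _ ⟨x, hx, rfl⟩
    | algebraMap r =>
      have := E.algebraMap_mem (algebraMap _ _ (C (algebraMap ℂ R r) : MvPolynomial ν R))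
      rwa [RingHom.algebraMap_toAlgebra, emF_map, emM_C, AlgHom.commutes] at this
    | add x y _ _ h1 h2 => exact add_mem h1 h2
    | mul x y _ _ h1 h2 => exact mul_mem h1 h2
  have hE : E = ⊤ := eq_top_iff.2 fun φ _ => by
    obtain ⟨a, b, hb, e⟩ := N.frac φ
    rw [eq_div_of_mul_eq (fun h => hb (Subtype.ext h)) e]
    exact div_mem (hO a) (hO b)
  rw [hE] at this
  exact IntermediateField.topEquiv.toLinearEquiv.finiteDimensional

theorem Inf.comap {N : Noe K inc ν z} {V : ValuationSubring M} (h : N.Inf V) :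
    V.comap N.emF = NpI.dF.valuationSubring := by
  obtain ⟨γ, h1, h⟩ := (N.inf_iff V).1 h
  ext f
  obtain ⟨a, b, hb, rfl⟩ := IsFractionRing.div_surjective (MvPolynomial ν R) f
  have hb' := nonZeroDivisors.ne_zero hb
  by_cases ha : a = 0
  · simp [ha]
  rw [NpI.mem_dF ha hb', ValuationSubring.mem_comap, ← V.valuation_le_one_iff, map_div₀, emF_map,
    emF_map, map_div₀, h a ha, h b hb', div_le_one₀ (pow_pos (zero_lt_one.trans h1) _),
    pow_le_pow_iff_right₀ h1]

theorem inf_of_lt {V : ValuationSubring M} (h : ∀ f ∈ NpI.dF.valuationSubring, N.emF f ∈ V) {j : ν}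
    (hj : 1 < V.valuation (N.l j : M)) : N.Inf V := by
  refine (N.inf_iff V).2 ⟨_, hj, fun q hq => ?_⟩
  have hX : (X j ^ q.totalDegree : MvPolynomial ν R) ≠ 0 := pow_ne_zero _ (X_ne_zero j)
  have h1 := h _ (NpI.mem_dF' hX (totalDegree_X_pow j _).ge)
  have h2 := h _ (NpI.mem_dF' hq (totalDegree_X_pow j _).le)
  rw [← V.valuation_le_one_iff, map_div₀, emF_map, emF_map, map_div₀, map_pow, emM_X,
    map_pow] at h1 h2
  exact le_antisymm ((div_le_one₀ (pow_pos (zero_lt_one.trans hj) _)).1 h1)
    ((div_le_one₀ (zero_lt_iff.2 ((Valuation.ne_zero_iff _).2 (N.emM_ne hq)))).1 h2)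

theorem top_or {V : ValuationSubring M} (h : ∀ f ∈ NpI.dF.valuationSubring, N.emF f ∈ V) :
    (∃ j, 1 < V.valuation (N.l j : M)) ∨ V = ⊤ := by
  refine or_iff_not_imp_left.2 fun hn => eq_top_iff.2 fun φ _ => ?_
  have h1 : ∀ q, N.emM q ∈ V := fun q => by
    induction q using MvPolynomial.induction_on with
    | C a =>
      have := h _ (NpI.mem_dF' (a := C a) one_ne_zero (by simp))
      rwa [map_one, div_one, emF_map] at this
    | add p q hp hq => rw [map_add]; exact V.add_mem _ _ hp hq
    | mul_X p i hp =>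
      rw [map_mul, emM_X]
      exact V.mul_mem _ _ hp ((V.valuation_le_one_iff _).1 (not_lt.1 fun h => hn ⟨i, h⟩))
  let _ := N.emF.toAlgebra
  refine mem_of_int (N.alg φ).isIntegral V fun f => ?_
  obtain ⟨a, b, hb, rfl⟩ := IsFractionRing.div_surjective (MvPolynomial ν R) f
  have := h _ (NpI.mem_dF' (a := 1) (nonZeroDivisors.ne_zero hb) (by simp))
  rw [RingHom.algebraMap_toAlgebra, div_eq_mul_one_div, map_mul, emF_map]
  rw [map_one] at this
  exact V.mul_mem _ _ (h1 a) this

theorem inf_iff_comap (j : ν) (V : ValuationSubring M) :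
    N.Inf V ↔ V.comap N.emF = NpI.dF.valuationSubring := by
  refine ⟨Inf.comap, fun h => N.inf_of_lt (fun f hf => h.ge hf) (j := j) (lt_of_not_ge fun h1 => ?_)⟩
  have h2 : algebraMap _ _ (X j : MvPolynomial ν R) / algebraMap _ _ (1 : MvPolynomial ν R) ∈
      V.comap N.emF := by
    rwa [ValuationSubring.mem_comap, map_one, div_one, emF_map, emM_X, ← V.valuation_le_one_iff]
  simpa using NpI.deg_le one_ne_zero (h.le h2)

/-- the criterion of integrality over the degree ring -/
theorem int_dF {φ : M} (h : ∀ V, N.Inf V → φ ∈ V) :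
    (N.emF.comp (NpI.dF (K := R) (ν := ν)).valuationSubring.subtype).IsIntegralElem φ := by
  let _ := (N.emF.comp (NpI.dF (K := R) (ν := ν)).valuationSubring.subtype).toAlgebra
  refine int_of_val (P := (NpI.dF (K := R) (ν := ν)).valuationSubring) fun V hV => ?_
  rcases N.top_or (V := V) fun f hf => hV ⟨f, hf⟩ with ⟨j, hj⟩ | rfl
  · exact h V (N.inf_of_lt (fun f hf => hV ⟨f, hf⟩) hj)
  · trivial

variable [IsIntegrallyClosed R] [Algebra.FiniteType ℂ O]

theorem ext (j0 : ν) : Finite N.DD ∧ ∃ π : N.DD → M, ∀ V, π V ≠ 0 ∧ V.1.valuation (π V) < 1 ∧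
    (∀ f : M, f ≠ 0 → ∃ n : ℤ, V.1.valuation f = V.1.valuation (π V) ^ n) ∧
    ∀ V' : N.DD, V' ≠ V → V'.1.valuation (π V) = 1 := by
  let _ := N.emF.toAlgebra
  have := N.fin
  have := N.charZero
  have := NpI.dvr_dF (K := R) j0
  have e : N.Inf = fun V => V.comap (algebraMap (FractionRing (MvPolynomial ν R)) M) =
      (NpI.dF (K := R) (ν := ν)).valuationSubring :=
    funext fun V => propext (N.inf_iff_comap j0 V)
  unfold DD
  rw [e]
  exact NpI.ext_dvr _

theorem finite_DD : Finite N.DD := by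
  rcases isEmpty_or_nonempty ν with h | ⟨⟨j0⟩⟩
  · have : Subsingleton N.DD := ⟨fun V V' => Subtype.ext <| by
      have k : ∀ W : N.DD, W.1 = ⊤ := fun W =>
        (N.top_or fun f hf => W.2.comap.ge hf).resolve_left fun ⟨j, _⟩ => h.elim j
      rw [k V, k V']⟩
    infer_instance
  · exact (N.ext j0).1

theorem exists_uni (j0 : ν) : Nonempty (N.Uni j0) := by
  classical
  obtain ⟨-, π, h⟩ := N.ext j0
  choose h0 hlt hg hu using h
  choose od hod using hg
  have hp : ∀ V : N.DD, 0 < V.1.valuation (π V) := fun V =>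
    zero_lt_iff.2 ((Valuation.ne_zero_iff _).2 (h0 V))
  have hneg : ∀ V : N.DD, od V _ (N.l_ne j0) < 0 := fun V => by
    have := V.2.one_lt j0
    rwa [hod V _ (N.l_ne j0), one_lt_zpow_iff_right_of_lt_one₀ (hp V) (hlt V)] at this
  refine ⟨⟨π, fun V => (-od V _ (N.l_ne j0)).toNat, fun V φ => if h : φ ≠ 0 then od V φ h else 0,
    fun V => by have := hneg V; omega, fun V => ?_, fun V V' => hu V V', fun V φ hφ => ?_,
    fun V j => ?_⟩⟩
  · refine adp_of_res (by simpa using h0 V) (by simpa using hlt V)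
      (fun f hf => ⟨od V f hf, by simpa using hod V f hf⟩) (fun p hp' => ?_) ?_
    · obtain ⟨q, hq, e⟩ := exists_homog j0 (l := fun j => (N.l j : M)) (N.l_ne j0) hp'
      obtain ⟨γ, h1, hγ⟩ := V.2
      have h2 : V.1.valuation (N.l j0 : M) = γ := by simpa using hγ (X j0) (X_ne_zero j0)
      have h3 := hγ q hq
      rw [e, map_mul, map_pow, h2, mul_eq_left₀ (pow_ne_zero _ (zero_lt_one.trans h1).ne')] at h3
      rw [← h3]
      congr 3
      funext j
      rw [Function.update_of_ne j.2]
    · have := N.basis.lift_cardinalMk_eq_trdeg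
      simp only [Cardinal.lift_id, Cardinal.mk_fintype] at this
      exact this.ge
  · rw [dif_pos hφ]
    exact hod V φ hφ
  · rw [dif_pos (N.l_ne j)]
    have h1 := V.2.val_ll j j0
    rw [hod V _ (N.l_ne j), hod V _ (N.l_ne j0)] at h1
    have h2 := zpow_right_injective₀ (hp V) (hlt V).ne h1
    have := hneg V
    omega

/-- integral equation over the degree ring -/
theorem int_inf {φ : M} (h : ∀ V, N.Inf V → φ ∈ V) : ∃ (d : ℕ) (β : MvPolynomial ν R)
    (a : ℕ → MvPolynomial ν R), β ≠ 0 ∧ (∀ i, (a i).totalDegree ≤ β.totalDegree) ∧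
    (N.em β : M) * φ ^ d + ∑ i ∈ Finset.range d, (N.em (a i) : M) * φ ^ i = 0 := by
  classical
  obtain ⟨q, hq, h0⟩ := N.int_dF h
  obtain ⟨⟨β, hβ⟩, hb⟩ := IsLocalization.exist_integer_multiples (nonZeroDivisors (MvPolynomial ν R))
    (Finset.range q.natDegree) fun i => (q.coeff i : FractionRing (MvPolynomial ν R))
  choose a ha using hb
  have hβ' := nonZeroDivisors.ne_zero hβ
  have hF := IsFractionRing.to_map_ne_zero_of_mem_nonZeroDivisors
    (K := FractionRing (MvPolynomial ν R)) hβ
  refine ⟨q.natDegree, β, fun i => if h : i ∈ Finset.range q.natDegree then a i h else 0, hβ',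
    fun i => ?_, ?_⟩
  · beta_reduce
    split_ifs with hi
    · refine NpI.deg_le hβ' ?_
      rw [ha i hi, Algebra.smul_def, mul_div_cancel_left₀ _ hF]
      exact (q.coeff i).2
    · simp
  · rw [Polynomial.eval₂_eq_sum_range, Finset.sum_range_succ, hq.coeff_natDegree, map_one,
      one_mul] at h0
    have h1 := congrArg (N.emM β * ·) h0
    simp only [mul_add, mul_zero, Finset.mul_sum] at h1
    rw [← h1, add_comm]
    congr 1
    refine Finset.sum_congr rfl fun i hi => ?_
    beta_reduce
    rw [dif_pos hi, ← emM_apply, ← emF_map, ha i hi, Algebra.smul_def, map_mul, emF_map, mul_assoc]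
    rfl

end Noe

end
end Pool.Agent.Lib.MP_5c318e_ag
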