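import Pool.Agent.Lib.MP_5c318e_ag.S.PDefs
import Pool.Agent.Lib.MP_5c318e_ag.Sch.Norm
/-! The ring of a chart is normal. -/
set_option autoImplicit false
namespace Pool.Agent.Lib.MP_5c318e_ag

instance Cht.intClosed {ι F : Type} [Fintype ι] [DecidableEq ι] [Field F] [Algebra ℂ F]
    (c : Cht ι F) : IsIntegrallyClosed c.O := by
  let _ := (MvPolynomial.aeval c.z : MvPolynomial ι ℂ →ₐ[ℂ] c.O).toRingHom.toAlgebra
  have : Algebra.Etale (MvPolynomial ι ℂ) c.O := c.et
  exact norm_etale (MvPolynomial ι ℂ) c.O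

end Pool.Agent.Lib.MP_5c318e_ag
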