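import Pool.Agent.Lib.MP_5c318e_ag.Np.NDefs
import Pool.Agent.Lib.MP_5c318e_ag.RD.RExt
/-! The general region fills most of every large box. -/
set_option autoImplicit false
set_option linter.unusedSectionVars false
namespace Pool.Agent.Lib.MP_5c318e_ag
open Set MeasureTheory Filter Topology Metric
noncomputable section

section Null

variable {E : Type} [NormedAddCommGroup E] [NormedSpace ℂ E] [FiniteDimensional ℂ E]
  [MeasurableSpace E] [BorelSpace E] (μ : Measure E) [μ.IsAddHaarMeasure]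

/-- the zero set of an analytic function on a connected open set is null -/
theorem bx_null {f : E → ℂ} {U : Set E} (hc : IsPreconnected U) (hf : AnalyticOnNhd ℂ f U)
    {x0 : E} (h0 : x0 ∈ U) (h1 : f x0 ≠ 0) : μ {x ∈ U | f x = 0} = 0 := by
  let e : (Fin (Module.finrank ℂ E) → ℂ) ≃L[ℂ] E :=
    ContinuousLinearEquiv.ofFinrankEq (by simp)
  have : (Measure.map e volume).IsAddHaarMeasure := e.isAddHaarMeasure_map volume
  refine measure_null_of_locally_null _ fun x hx => ?_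
  have ex : e (e.symm x) = x := e.apply_symm_apply x
  have t' : Tendsto e.symm (𝓝 x) (𝓝 (e.symm x)) := e.symm.continuous.tendsto x
  obtain ⟨δ, δ0, h⟩ := RD.null_ana (f := fun y => f (e y)) (p := e.symm x)
    (AnalyticAt.comp (by rw [ex]; exact hf x hx.1) (e.toContinuousLinearMap.analyticAt _))
    (fun h => h1 (hf.eqOn_zero_of_preconnected_of_eventuallyEq_zero hc hx.1
      ((t'.eventually h).mono fun y hy => by simpa using hy) h0))
  refine ⟨e.symm ⁻¹' ball (e.symm x) δ ∩ {x ∈ U | f x = 0},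
    inter_mem (mem_nhdsWithin_of_mem_nhds (t' (ball_mem_nhds _ δ0))) self_mem_nhdsWithin, ?_⟩
  refine Measure.absolutelyContinuous_isAddHaarMeasure μ (Measure.map e volume) ?_
  rw [show (e : _ → E) = e.toHomeomorph from rfl, e.toHomeomorph.measurableEmbedding.map_apply]
  refine measure_mono_null (fun z hz => ?_) (ae_iff.1 h)
  exact fun k => k (by simpa using hz.1) hz.2.2

/-- small sublevel sets -/
theorem bx_small {f : E → ℂ} {U : Set E} (ho : IsOpen U) (hU : μ U ≠ ⊤) (hf : ContinuousOn f U)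
    (h0 : μ {x ∈ U | f x = 0} = 0) {η : ENNReal} (hη : 0 < η) :
    ∃ ε : ℝ, 0 < ε ∧ μ {x ∈ U | ‖f x‖ < ε} ≤ η := by
  have t := tendsto_measure_iInter_atTop (μ := μ)
    (s := fun n : ℕ => {x ∈ U | ‖f x‖ < 1 / ((n : ℝ) + 1)})
    (fun n => (hf.norm.isOpen_inter_preimage ho isOpen_Iio).measurableSet.nullMeasurableSet)
    (fun n m h x hx => ⟨hx.1, hx.2.trans_le (Nat.one_div_le_one_div h)⟩)
    ⟨0, ne_top_of_le_ne_top hU (measure_mono fun x hx => hx.1)⟩
  rw [measure_mono_null (fun x hx => ?_) h0] at t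
  · obtain ⟨n, hn⟩ := (t.eventually (gt_mem_nhds hη)).exists
    exact ⟨_, Nat.one_div_pos_of_nat, hn.le⟩
  · refine ⟨(mem_iInter.1 hx 0).1, norm_le_zero_iff.1 (le_of_forall_pos_le_add fun ε ε0 => ?_)⟩
    obtain ⟨n, hn⟩ := exists_nat_one_div_lt ε0
    linarith [(mem_iInter.1 hx n).2]

end Null

variable {R ν : Type} [CommRing R] [IsDomain R] [Algebra ℂ R] [Fintype ν] [DecidableEq ν]

/-- the general region fills most of every large box; `β` is a parametrisation of the base -/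
theorem big_box {E : Type} [NormedAddCommGroup E] [NormedSpace ℂ E] [FiniteDimensional ℂ E]
    [MeasurableSpace E] [BorelSpace E] (μ : Measure E) [μ.IsAddHaarMeasure] {β : E → Pt R}
    {y0 : E} {r : ℝ} (hr : 0 < r)
    (hβ : ∀ ρ : R, AnalyticOnNhd ℂ (fun y => β y ρ) (Metric.closedBall y0 r))
    (hi : ∀ ρ : R, (∀ y ∈ Metric.ball y0 r, β y ρ = 0) → ρ = 0)
    {De : MvPolynomial ν R} (h0 : De ≠ 0) {θ : ℝ} (hθ : 0 < θ) :
    ∃ c : ℝ, 0 < c ∧ ∃ ρ0 : ℝ, ∀ a0 : ν → ℂ, ρ0 ≤ ‖a0‖ →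
      (μ.prod volume) {x ∈ Metric.ball y0 r ×ˢ Metric.ball a0 (‖a0‖ / 2) |
        (β x.1, x.2) ∉ Noe.Big De c} ≤
      ENNReal.ofReal θ * (μ.prod volume) (Metric.ball y0 r ×ˢ Metric.ball a0 (‖a0‖ / 2)) := by
  have : ProperSpace E := FiniteDimensional.proper ℂ E
  set d := De.totalDegree with hd
  let dg : (ν →₀ ℕ) → ℕ := fun m => ∑ i, m i
  have dle : ∀ m ∈ De.support, dg m ≤ d := fun m hm => by
    have := MvPolynomial.le_totalDegree hm
    rwa [Finsupp.sum_fintype _ _ fun _ => rfl] at this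
  obtain ⟨m0, hm0, hm1⟩ := Finset.exists_mem_eq_sup De.support
    (MvPolynomial.support_nonempty.2 h0) fun s => s.sum fun _ e => e
  have hm2 : dg m0 = d := by
    rw [Finsupp.sum_fintype _ _ fun _ => rfl] at hm1
    exact hm1.symm
  let g : (ν →₀ ℕ) → E × (ν → ℂ) → ℂ := fun m x => β x.1 (De.coeff m) * ∏ i, x.2 i ^ m i
  have ga : ∀ m, AnalyticOnNhd ℂ (g m) (closedBall y0 r ×ˢ univ) := fun m x hx =>
    (AnalyticAt.comp (g := fun y => β y (De.coeff m)) (f := Prod.fst) (hβ _ _ hx.1)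
      analyticAt_fst).mul (Finset.analyticAt_fun_prod _ fun i _ =>
        (((ContinuousLinearMap.proj (R := ℂ) (φ := fun _ : ν => ℂ) i).comp
          (ContinuousLinearMap.snd ℂ E (ν → ℂ))).analyticAt x).pow _)
  let F : ℂ → E × (ν → ℂ) → ℂ := fun s x => ∑ m ∈ De.support, s ^ (d - dg m) * g m x
  have Fa : AnalyticOnNhd ℂ (F 0) (ball y0 r ×ˢ univ) := fun x hx =>
    Finset.analyticAt_fun_sum _ fun m _ =>
      analyticAt_const.mul (ga m x ⟨ball_subset_closedBall hx.1, trivial⟩)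
  have F1 : ∃ x ∈ ball y0 r ×ˢ (univ : Set (ν → ℂ)), F 0 x ≠ 0 := by
    by_contra k
    push Not at k
    refine MvPolynomial.mem_support_iff.1 hm0 (hi _ fun y hy => ?_)
    have z : ∑ m ∈ De.support, MvPolynomial.monomial m (0 ^ (d - dg m) * β y (De.coeff m)) =
        (0 : MvPolynomial ν ℂ) := MvPolynomial.funext fun b => by
      rw [map_zero, map_sum]
      refine Eq.trans ?_ (k (y, b) ⟨hy, trivial⟩)
      refine Finset.sum_congr rfl fun m _ => ?_
      rw [MvPolynomial.eval_monomial, Finsupp.prod_fintype _ _ fun _ => pow_zero _, mul_assoc]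
    have := congrArg (MvPolynomial.coeff m0) z
    simpa [MvPolynomial.coeff_sum, MvPolynomial.coeff_monomial, hm2,
      MvPolynomial.mem_support_iff.1 hm0] using this
  obtain ⟨x0, hx0, hx1⟩ := F1
  have : (μ.prod (volume : Measure (ν → ℂ))).IsAddHaarMeasure :=
    Measure.prod.instIsAddHaarMeasure _ _
  have N := bx_null (μ.prod volume) ((convex_ball y0 r).prod convex_univ).isPreconnected Fa hx0 hx1
  obtain ⟨ε, ε0, hε⟩ := bx_small (μ.prod volume) (f := F 0) (U := ball y0 r ×ˢ ball 0 2)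
    (isOpen_ball.prod isOpen_ball)
    (by rw [Measure.prod_prod]; exact ENNReal.mul_ne_top measure_ball_lt_top.ne measure_ball_lt_top.ne)
    (Fa.continuousOn.mono (prod_mono subset_rfl (subset_univ _)))
    (measure_mono_null (fun x hx => by exact ⟨⟨hx.1.1, trivial⟩, hx.2⟩) N)
    (η := ENNReal.ofReal θ * (μ (ball y0 r) * volume (ball (0 : ν → ℂ) (1 / 2))))
    (ENNReal.mul_pos (by simpa using hθ) (mul_ne_zero (measure_ball_pos _ _ hr).ne'
      (measure_ball_pos _ _ one_half_pos).ne'))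
  obtain ⟨C, hC⟩ := ((isCompact_closedBall y0 r).prod
    (isCompact_closedBall (0 : ν → ℂ) 2)).exists_bound_of_continuousOn
    (f := fun x => ∑ m ∈ De.support, ‖g m x‖) (continuousOn_finsetSum _ fun m _ =>
      ((ga m).continuousOn.mono (prod_mono subset_rfl (subset_univ _))).norm)
  refine ⟨ε / 2 / 2 ^ d, by positivity, max 2 (2 * C / ε), fun a0 ha => ?_⟩
  set t := ‖a0‖ with ht
  have t2 : 2 ≤ t := le_of_max_le_left ha
  have t0 : 0 < t := by linarith
  have tc : (t : ℂ) ≠ 0 := by exact_mod_cast t0.ne'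
  let L : (E × (ν → ℂ)) →ₗ[ℝ] E × (ν → ℂ) := LinearMap.prodMap .id (t • .id)
  have sc : ∀ a : ν → ℂ, t • t⁻¹ • a = a := fun a => smul_inv_smul₀ t0.ne' a
  have e1 : L '' (ball y0 r ×ˢ ball (t⁻¹ • a0) (1 / 2)) ⊆ ball y0 r ×ˢ ball a0 (t / 2) := by
    rintro _ ⟨x, hx, rfl⟩
    refine ⟨hx.1, ?_⟩
    change t • x.2 ∈ _
    have := mem_ball_iff_norm.1 hx.2
    rw [mem_ball_iff_norm, ← sc a0, ← smul_sub, norm_smul, Real.norm_of_nonneg t0.le]
    nlinarith
  have e2 : {x ∈ ball y0 r ×ˢ ball a0 (t / 2) | (β x.1, x.2) ∉ Noe.Big De (ε / 2 / 2 ^ d)} ⊆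
      L '' {x ∈ ball y0 r ×ˢ ball 0 2 | ‖F 0 x‖ < ε} := by
    rintro ⟨y, a⟩ ⟨⟨hy, ha1⟩, hb⟩
    have q1 := mem_ball_iff_norm.1 ha1
    have q2 : ‖a‖ ≤ 3 / 2 * t := by linarith [norm_le_norm_add_norm_sub' a a0]
    have q3 : 1 ≤ ‖a‖ := by linarith [norm_le_norm_add_norm_sub a a0]
    have q4 : ‖t⁻¹ • a‖ < 2 := by
      rw [norm_smul, Real.norm_of_nonneg (inv_pos.2 t0).le, inv_mul_lt_iff₀ t0]; linarith
    refine ⟨(y, t⁻¹ • a), ⟨⟨hy, mem_ball_zero_iff.2 q4⟩, ?_⟩, Prod.ext rfl (sc a)⟩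
    have q5 : evP (β y) a De = (t : ℂ) ^ d * F (t : ℂ)⁻¹ (y, t⁻¹ • a) := by
      rw [evP, MvPolynomial.coe_eval₂Hom, MvPolynomial.eval₂_eq', Finset.mul_sum]
      refine Finset.sum_congr rfl fun m hm => ?_
      obtain ⟨k, hk⟩ := Nat.exists_eq_add_of_le (dle m hm)
      simp only [g, Pi.smul_apply, Complex.real_smul, Complex.ofReal_inv, mul_pow,
        Finset.prod_mul_distrib, Finset.prod_pow_eq_pow_sum]
      change β y _ * _ = _ * (_ * (_ * (_ ^ dg m * _)))
      rw [hk, Nat.add_sub_cancel_left, pow_add, inv_pow, inv_pow]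
      field_simp
    have q6 : ‖F (t : ℂ)⁻¹ (y, t⁻¹ • a) - F 0 (y, t⁻¹ • a)‖ ≤ ε / 2 := by
      have b := hC (y, t⁻¹ • a) ⟨ball_subset_closedBall hy, mem_closedBall_zero_iff.2 q4.le⟩
      have n1 : ‖(t : ℂ)⁻¹‖ = t⁻¹ := by rw [norm_inv, Complex.norm_real, Real.norm_of_nonneg t0.le]
      calc _ ≤ ∑ m ∈ De.support, t⁻¹ * ‖g m (y, t⁻¹ • a)‖ := by
            simp only [F, ← Finset.sum_sub_distrib, ← sub_mul]
            refine norm_sum_le_of_le _ fun m _ => ?_
            rw [norm_mul]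
            refine mul_le_mul_of_nonneg_right ?_ (norm_nonneg _)
            rcases d - dg m with _ | k
            · simpa using t0.le
            · rw [zero_pow k.succ_ne_zero, sub_zero, norm_pow, n1]
              exact pow_le_of_le_one (inv_pos.2 t0).le (inv_le_one_of_one_le₀ (by linarith))
                k.succ_ne_zero
        _ ≤ t⁻¹ * C := by
            rw [← Finset.mul_sum]
            exact mul_le_mul_of_nonneg_left ((le_abs_self _).trans b) (inv_pos.2 t0).le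
        _ ≤ ε / 2 := by
            have := (div_le_iff₀ ε0).1 (le_of_max_le_right ha)
            rw [inv_mul_le_iff₀ t0]; linarith
    by_contra k
    refine hb ⟨q3, ?_⟩
    have q7 : ε / 2 ≤ ‖F (t : ℂ)⁻¹ (y, t⁻¹ • a)‖ := by
      linarith [not_lt.1 k, norm_le_norm_add_norm_sub (F (t : ℂ)⁻¹ (y, t⁻¹ • a)) (F 0 (y, t⁻¹ • a))]
    change _ * ‖a‖ ^ d ≤ ‖evP (β y) a De‖
    rw [q5, norm_mul, norm_pow, Complex.norm_real, Real.norm_of_nonneg t0.le]
    calc _ ≤ ε / 2 / 2 ^ d * (2 * t) ^ d := by gcongr; linarith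
      _ = t ^ d * (ε / 2) := by rw [mul_pow]; field_simp
      _ ≤ _ := by gcongr
  refine (measure_mono e2).trans (le_trans ?_ (mul_le_mul_right (measure_mono e1) _))
  rw [Measure.addHaar_image_linearMap, Measure.addHaar_image_linearMap, mul_left_comm,
    Measure.prod_prod, Measure.addHaar_ball_center volume (t⁻¹ • a0)]
  exact mul_le_mul_right hε _

end
end Pool.Agent.Lib.MP_5c318e_ag
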