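import Pool.Agent.Lib.MP_5c318e_ag.Np.Box
/-! The general region fills most of every large ball, fibre by fibre. -/
set_option autoImplicit false
set_option linter.unusedSectionVars false
namespace Pool.Agent.Lib.MP_5c318e_ag
open Set MeasureTheory Filter Topology Metric
noncomputable section

variable {R ν : Type} [CommRing R] [Algebra ℂ R] [Fintype ν] [DecidableEq ν]

/-- small sublevel sets, uniformly over a compact set of parameters -/
theorem bx_unif {X : Type} [TopologicalSpace X] {f : X × (ν → ℂ) → ℂ} (hf : Continuous f)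
    {Q : Set X} (hQ : IsCompact Q) (h0 : ∀ b ∈ Q, volume {a | f (b, a) = 0} = 0) (ρ : ℝ)
    {η : ENNReal} (hη : 0 < η) :
    ∃ ε : ℝ, 0 < ε ∧ ∀ b ∈ Q, volume {a ∈ ball (0 : ν → ℂ) ρ | ‖f (b, a)‖ < ε} ≤ η := by
  have := hQ.eventually_forall_of_forall_eventually (x₀ := (0 : ℝ))
    (P := fun ε b => volume {a ∈ ball (0 : ν → ℂ) ρ | ‖f (b, a)‖ < ε} ≤ η) fun b hb => by
      obtain ⟨ε, ε0, hε⟩ := bx_small volume (f := fun a => f (b, a)) (U := ball 0 ρ) isOpen_ball
        measure_ball_lt_top.ne (hf.comp (Continuous.prodMk_right b)).continuousOn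
        (measure_mono_null (fun a ha => by exact ha.2) (h0 b hb)) hη
      have k := (isCompact_closedBall (0 : ν → ℂ) ρ).eventually_forall_of_forall_eventually
        (x₀ := b) (P := fun b' a => ‖f (b', a) - f (b, a)‖ < ε / 2) fun a _ =>
          (Continuous.continuousAt (by fun_prop)).eventually_lt continuousAt_const
            (by simpa using ε0)
      rw [nhds_prod_eq]
      filter_upwards [(gt_mem_nhds (half_pos ε0)).prod_mk k] with z hz
      refine le_trans (measure_mono fun a ha => ?_) hε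
      refine ⟨ha.1, ?_⟩
      linarith [ha.2, hz.1, hz.2 a (ball_subset_closedBall ha.1),
        norm_le_norm_add_norm_sub (f (z.2, a)) (f (b, a))]
  obtain ⟨ε, h1, h2⟩ := ((this.filter_mono nhdsWithin_le_nhds).and
    (self_mem_nhdsWithin (s := Ioi (0 : ℝ)))).exists
  exact ⟨ε, h2, h1⟩

/-- the general region fills most of every large ball, uniformly over compact sets -/
theorem big_fib {De : MvPolynomial ν R} (h0 : De ≠ 0) : ∃ top : R, top ≠ 0 ∧
    ∀ Q : Set (Pt R), IsCompact Q → (∀ b ∈ Q, b top ≠ 0) → ∀ θ : ℝ, 0 < θ →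
      ∃ c : ℝ, 0 < c ∧ ∃ ρ0 : ℝ, ∀ b ∈ Q, ∀ a0 : ν → ℂ, ρ0 ≤ ‖a0‖ →
        volume {a ∈ ball a0 (‖a0‖ / 2) | (b, a) ∉ Noe.Big De c} ≤
          ENNReal.ofReal θ * volume (ball a0 (‖a0‖ / 2)) := by
  set d := De.totalDegree with hd
  let dg : (ν →₀ ℕ) → ℕ := fun m => ∑ i, m i
  have dle : ∀ m ∈ De.support, dg m ≤ d := fun m hm => by
    have := MvPolynomial.le_totalDegree hm
    rwa [Finsupp.sum_fintype _ _ fun _ => rfl] at this
  obtain ⟨m0, hm0, hm1⟩ := Finset.exists_mem_eq_sup De.support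
    (MvPolynomial.support_nonempty.2 h0) fun s => s.sum fun _ e => e
  have hm2 : dg m0 = d := by
    rw [Finsupp.sum_fintype _ _ fun _ => rfl] at hm1
    exact hm1.symm
  refine ⟨De.coeff m0, MvPolynomial.mem_support_iff.1 hm0, fun Q hQ hq θ hθ => ?_⟩
  let g : (ν →₀ ℕ) → Pt R × (ν → ℂ) → ℂ := fun m x => x.1 (De.coeff m) * ∏ i, x.2 i ^ m i
  have gc : ∀ m, Continuous (g m) := fun m =>
    ((Pt.continuous_apply _).comp continuous_fst).mul (by fun_prop)
  let F : ℂ → Pt R × (ν → ℂ) → ℂ := fun s x => ∑ m ∈ De.support, s ^ (d - dg m) * g m x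
  have N : ∀ b ∈ Q, volume {a | F 0 (b, a) = 0} = 0 := fun b hb => by
    have F1 : ∃ a, F 0 (b, a) ≠ 0 := by
      by_contra k
      push Not at k
      have z : ∑ m ∈ De.support, MvPolynomial.monomial m (0 ^ (d - dg m) * b (De.coeff m)) =
          (0 : MvPolynomial ν ℂ) := MvPolynomial.funext fun a => by
        rw [map_zero, map_sum]
        refine Eq.trans ?_ (k a)
        refine Finset.sum_congr rfl fun m _ => ?_
        rw [MvPolynomial.eval_monomial, Finsupp.prod_fintype _ _ fun _ => pow_zero _, mul_assoc]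
      have := congrArg (MvPolynomial.coeff m0) z
      refine hq b hb ?_
      simpa [MvPolynomial.coeff_sum, MvPolynomial.coeff_monomial, hm2,
        MvPolynomial.mem_support_iff.1 hm0] using this
    obtain ⟨a, ha⟩ := F1
    have ga : ∀ m x, AnalyticAt ℂ (fun a => g m (b, a)) x := fun m x =>
      (analyticAt_const (v := b (De.coeff m))).mul
        (Finset.analyticAt_fun_prod (f := fun i (a : ν → ℂ) => a i ^ m i) _ fun i _ =>
          ((ContinuousLinearMap.proj (R := ℂ) (φ := fun _ : ν => ℂ) i).analyticAt x).pow _)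
    simpa using bx_null volume (f := fun a => F 0 (b, a)) isPreconnected_univ (fun x _ =>
      Finset.analyticAt_fun_sum _ fun m _ => analyticAt_const.mul (ga m x)) (mem_univ a) ha
  obtain ⟨ε, ε0, hε⟩ := bx_unif (f := F 0)
    (continuous_finsetSum _ fun m _ => continuous_const.mul (gc m)) hQ N 2
    (η := ENNReal.ofReal θ * volume (ball (0 : ν → ℂ) (1 / 2)))
    (ENNReal.mul_pos (by simpa using hθ) (measure_ball_pos _ _ one_half_pos).ne')
  obtain ⟨C, hC⟩ := (hQ.prod (isCompact_closedBall (0 : ν → ℂ) 2)).exists_bound_of_continuousOn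
    (f := fun x => ∑ m ∈ De.support, ‖g m x‖)
    (continuous_finsetSum _ fun m _ => (gc m).norm).continuousOn
  refine ⟨ε / 2 / 2 ^ d, by positivity, max 2 (2 * C / ε), fun y hy a0 ha => ?_⟩
  set t := ‖a0‖ with ht
  have t2 : 2 ≤ t := le_of_max_le_left ha
  have t0 : 0 < t := by linarith
  have tc : (t : ℂ) ≠ 0 := by exact_mod_cast t0.ne'
  let L : (ν → ℂ) →ₗ[ℝ] ν → ℂ := t • .id
  have sc : ∀ a : ν → ℂ, t • t⁻¹ • a = a := fun a => smul_inv_smul₀ t0.ne' a
  have e1 : L '' ball (t⁻¹ • a0) (1 / 2) ⊆ ball a0 (t / 2) := by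
    rintro _ ⟨x, hx, rfl⟩
    change t • x ∈ _
    have := mem_ball_iff_norm.1 hx
    rw [mem_ball_iff_norm, ← sc a0, ← smul_sub, norm_smul, Real.norm_of_nonneg t0.le]
    nlinarith
  have e2 : {a ∈ ball a0 (t / 2) | (y, a) ∉ Noe.Big De (ε / 2 / 2 ^ d)} ⊆
      L '' {a ∈ ball 0 2 | ‖F 0 (y, a)‖ < ε} := by
    rintro a ⟨ha1, hb⟩
    have q1 := mem_ball_iff_norm.1 ha1
    have q2 : ‖a‖ ≤ 3 / 2 * t := by linarith [norm_le_norm_add_norm_sub' a a0]
    have q3 : 1 ≤ ‖a‖ := by linarith [norm_le_norm_add_norm_sub a a0]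
    have q4 : ‖t⁻¹ • a‖ < 2 := by
      rw [norm_smul, Real.norm_of_nonneg (inv_pos.2 t0).le, inv_mul_lt_iff₀ t0]; linarith
    refine ⟨t⁻¹ • a, ⟨mem_ball_zero_iff.2 q4, ?_⟩, sc a⟩
    have q5 : evP y a De = (t : ℂ) ^ d * F (t : ℂ)⁻¹ (y, t⁻¹ • a) := by
      rw [evP, MvPolynomial.coe_eval₂Hom, MvPolynomial.eval₂_eq', Finset.mul_sum]
      refine Finset.sum_congr rfl fun m hm => ?_
      obtain ⟨k, hk⟩ := Nat.exists_eq_add_of_le (dle m hm)
      simp only [g, Pi.smul_apply, Complex.real_smul, Complex.ofReal_inv, mul_pow,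
        Finset.prod_mul_distrib, Finset.prod_pow_eq_pow_sum]
      change y _ * _ = _ * (_ * (_ * (_ ^ dg m * _)))
      rw [hk, Nat.add_sub_cancel_left, pow_add, inv_pow, inv_pow]
      field_simp
    have q6 : ‖F (t : ℂ)⁻¹ (y, t⁻¹ • a) - F 0 (y, t⁻¹ • a)‖ ≤ ε / 2 := by
      have b := hC (y, t⁻¹ • a) ⟨hy, mem_closedBall_zero_iff.2 q4.le⟩
      have n1 : ‖(t : ℂ)⁻¹‖ = t⁻¹ := by rw [norm_inv, Complex.norm_real, Real.norm_of_nonneg t0.le]
      calc _ ≤ ∑ m ∈ De.support, t⁻¹ * ‖g m (y, t⁻¹ • a)‖ := by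
            simp only [F, ← Finset.sum_sub_distrib, ← sub_mul]
            refine norm_sum_le_of_le _ fun m _ => ?_
            rw [norm_mul]
            refine mul_le_mul_of_nonneg_right ?_ (norm_nonneg _)
            rcases d - dg m with _ | k
            · simpa using t0.le
            · rw [zero_pow k.succ_ne_zero, sub_zero, norm_pow, n1]
              exact pow_le_of_le_one (inv_pos.2 t0).le (inv_le_one_of_one_le₀ (by linarith))
                k.succ_ne_zero
        _ ≤ t⁻¹ * C := by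
            rw [← Finset.mul_sum]
            exact mul_le_mul_of_nonneg_left ((le_abs_self _).trans b) (inv_pos.2 t0).le
        _ ≤ ε / 2 := by
            have := (div_le_iff₀ ε0).1 (le_of_max_le_right ha)
            rw [inv_mul_le_iff₀ t0]; linarith
    by_contra k
    refine hb ⟨q3, ?_⟩
    have q7 : ε / 2 ≤ ‖F (t : ℂ)⁻¹ (y, t⁻¹ • a)‖ := by
      linarith [not_lt.1 k, norm_le_norm_add_norm_sub (F (t : ℂ)⁻¹ (y, t⁻¹ • a)) (F 0 (y, t⁻¹ • a))]
    change _ * ‖a‖ ^ d ≤ ‖evP y a De‖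
    rw [q5, norm_mul, norm_pow, Complex.norm_real, Real.norm_of_nonneg t0.le]
    calc _ ≤ ε / 2 / 2 ^ d * (2 * t) ^ d := by gcongr; linarith
      _ = t ^ d * (ε / 2) := by rw [mul_pow]; field_simp
      _ ≤ _ := by gcongr
  refine (measure_mono e2).trans (le_trans ?_ (mul_le_mul_right (measure_mono e1) _))
  rw [Measure.addHaar_image_linearMap, Measure.addHaar_image_linearMap, mul_left_comm,
    Measure.addHaar_ball_center volume (t⁻¹ • a0)]
  exact mul_le_mul_right (hε y hy) _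

end
end Pool.Agent.Lib.MP_5c318e_ag
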