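import Pool.Agent.Lib.MP_5c318e_ag.Np.Noe
import Pool.Agent.Lib.MP_5c318e_ag.F2.Pol
import Pool.Agent.Lib.MP_5c318e_ag.C.Pol
/-! The general region on one fibre, separating elements at infinity. -/
set_option autoImplicit false
set_option linter.unusedSectionVars false
namespace Pool.Agent.Lib.MP_5c318e_ag
open Set MeasureTheory Filter Topology Metric
open scoped ENNReal Pointwise
noncomputable section

/-- small values of a polynomial with one large coefficient -/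
theorem ms_small (ν : Type) [Fintype ν] (d : ℕ) {δ0 : ℝ} (h0 : 0 < δ0) {η : ℝ≥0∞} (hη : 0 < η) :
    ∃ ε : ℝ, 0 < ε ∧ ∀ P : MvPolynomial ν ℂ, P.totalDegree ≤ d → ∀ m, δ0 ≤ ‖P.coeff m‖ →
      volume {w ∈ ball (0 : ν → ℂ) 2 | ‖MvPolynomial.eval w P‖ < ε} ≤ η := by
  set c : ℝ := 1 / (d + 1) with hc
  have c0 : 0 < c := by positivity
  have hd : d * c < 2 := by
    rw [hc, mul_one_div, div_lt_iff₀ (by positivity)]; linarith [Nat.cast_nonneg (α := ℝ) d]
  set C := Iso.lctC c d 2 ^ Fintype.card ν * ENNReal.ofReal δ0 ^ (-c) with hC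
  have Ct : C ≠ ⊤ := ENNReal.mul_ne_top (ENNReal.pow_ne_top (Iso.lctC_lt_top c0.le hd 2).ne) (by
    rw [ENNReal.ofReal_rpow_of_pos h0]; exact ENNReal.ofReal_ne_top)
  have t : Tendsto (fun ε : ℝ => C * ENNReal.ofReal ε ^ c) (𝓝[>] 0) (𝓝 0) := by
    have h1 : Tendsto (fun ε : ℝ => ENNReal.ofReal ε ^ c) (𝓝[>] 0) (𝓝 0) := by
      have := (ENNReal.continuous_rpow_const (y := c)).continuousAt.tendsto.comp
        ((ENNReal.continuous_ofReal.tendsto 0).mono_left (nhdsWithin_le_nhds (s := Ioi 0)))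
      rwa [ENNReal.ofReal_zero, ENNReal.zero_rpow_of_pos c0] at this
    simpa using ENNReal.Tendsto.const_mul h1 (Or.inr Ct)
  obtain ⟨ε, e1, e0⟩ := ((t.eventually (gt_mem_nhds hη)).and self_mem_nhdsWithin).exists
  refine ⟨ε, e0, fun P hP m hm => le_trans ?_ e1.le⟩
  have e0' : (0 : ℝ) < ε := e0
  have h1 := (F2.pol_exp c0.le two_pos P hP m).trans (show _ ≤ C from mul_le_mul_right
    (by rw [ENNReal.rpow_neg, ENNReal.rpow_neg, ENNReal.inv_le_inv, ← ofReal_norm]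
        exact ENNReal.rpow_le_rpow (ENNReal.ofReal_le_ofReal hm) c0.le) _)
  have ms : MeasurableSet {w ∈ ball (0 : ν → ℂ) 2 | ‖MvPolynomial.eval w P‖ < ε} :=
    (isOpen_ball.inter (isOpen_lt (mv_cont P).norm continuous_const)).measurableSet
  have n0 : ENNReal.ofReal ε ^ c ≠ 0 := by
    rw [ENNReal.ofReal_rpow_of_pos e0']; simpa using Real.rpow_pos_of_pos e0' c
  have nt : ENNReal.ofReal ε ^ c ≠ ⊤ := by
    rw [ENNReal.ofReal_rpow_of_pos e0']; exact ENNReal.ofReal_ne_top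
  rw [← ENNReal.div_le_iff n0 nt, div_eq_mul_inv, mul_comm, ← setLIntegral_const]
  refine le_trans (setLIntegral_mono' ms fun w hw => ?_)
    ((lintegral_mono_set fun w hw => hw.1).trans h1)
  rw [ENNReal.rpow_neg, ENNReal.inv_le_inv, ← ofReal_norm]
  exact ENNReal.rpow_le_rpow (ENNReal.ofReal_le_ofReal hw.2.le) c0.le

section box

variable {R ν : Type} [CommRing R] [Algebra ℂ R] [Fintype ν] [DecidableEq ν]

/-- the general region fills most of every large ball of one fibre -/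
theorem fib_box {De : MvPolynomial ν R} (h0 : De ≠ 0) : ∃ r : R, r ≠ 0 ∧ ∀ δ0 : ℝ, 0 < δ0 →
    ∀ θ : ℝ, 0 < θ → ∃ c : ℝ, 0 < c ∧ ∀ b : Pt R, δ0 ≤ ‖b r‖ → ∀ a0 : ν → ℂ, 2 ≤ ‖a0‖ →
      volume {a ∈ ball a0 (‖a0‖ / 2) | (b, a) ∉ Noe.Big De c} ≤
        ENNReal.ofReal θ * volume (ball a0 (‖a0‖ / 2)) := by
  set d := De.totalDegree with hd
  let dg : (ν →₀ ℕ) → ℕ := fun m => ∑ i, m i
  obtain ⟨m0, hm0, hm1⟩ := Finset.exists_mem_eq_sup De.support
    (MvPolynomial.support_nonempty.2 h0) fun s => s.sum fun _ e => e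
  have hm2 : dg m0 = d := by
    rw [Finsupp.sum_fintype _ _ fun _ => rfl] at hm1
    exact hm1.symm
  refine ⟨De.coeff m0, MvPolynomial.mem_support_iff.1 hm0, fun δ0 δp θ hθ => ?_⟩
  obtain ⟨ε, ε0, hε⟩ := ms_small ν d δp
    (η := ENNReal.ofReal θ * volume (ball (0 : ν → ℂ) (1 / 2)))
    (ENNReal.mul_pos (by simpa using hθ) (measure_ball_pos _ _ one_half_pos).ne')
  refine ⟨ε / 2 ^ d, by positivity, fun b hb a0 ha => ?_⟩
  set t := ‖a0‖ with ht
  have t0 : 0 < t := by linarith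
  have tc : (t : ℂ) ≠ 0 := by exact_mod_cast t0.ne'
  let P : MvPolynomial ν ℂ := ∑ m ∈ De.support,
    MvPolynomial.monomial m ((t : ℂ) ^ dg m / (t : ℂ) ^ d * b (De.coeff m))
  have P1 : P.totalDegree ≤ d := MvPolynomial.totalDegree_finsetSum_le fun m hm =>
    (MvPolynomial.totalDegree_monomial_le _ _).trans (MvPolynomial.le_totalDegree hm)
  have P2 : P.coeff m0 = b (De.coeff m0) := by
    simp [P, MvPolynomial.coeff_sum, MvPolynomial.coeff_monomial, hm2,
      MvPolynomial.mem_support_iff.1 hm0, tc]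
  have P3 : ∀ w, evP b (t • w) De = (t : ℂ) ^ d * MvPolynomial.eval w P := fun w => by
    rw [evP, MvPolynomial.coe_eval₂Hom, MvPolynomial.eval₂_eq', map_sum, Finset.mul_sum]
    refine Finset.sum_congr rfl fun m _ => ?_
    rw [MvPolynomial.eval_monomial, Finsupp.prod_fintype _ _ fun _ => pow_zero _]
    simp only [Pi.smul_apply, Complex.real_smul, mul_pow, Finset.prod_mul_distrib,
      Finset.prod_pow_eq_pow_sum]
    change b _ * (_ ^ dg m * _) = _
    field_simp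
  have sc : ∀ a : ν → ℂ, t • t⁻¹ • a = a := fun a => smul_inv_smul₀ t0.ne' a
  have e2 : {a ∈ ball a0 (t / 2) | (b, a) ∉ Noe.Big De (ε / 2 ^ d)} ⊆
      t • {w ∈ ball (0 : ν → ℂ) 2 | ‖MvPolynomial.eval w P‖ < ε} := by
    rintro a ⟨ha1, hb⟩
    have q1 := mem_ball_iff_norm.1 ha1
    have q2 : ‖a‖ ≤ 3 / 2 * t := by linarith [norm_le_norm_add_norm_sub' a a0]
    have q3 : 1 ≤ ‖a‖ := by linarith [norm_le_norm_add_norm_sub a a0]
    refine ⟨t⁻¹ • a, ⟨mem_ball_zero_iff.2 ?_, ?_⟩, sc a⟩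
    · rw [norm_smul, Real.norm_of_nonneg (inv_pos.2 t0).le, inv_mul_lt_iff₀ t0]; linarith
    · by_contra k
      refine hb ⟨q3, ?_⟩
      change _ * ‖a‖ ^ d ≤ ‖evP b a De‖
      rw [← sc a, P3, sc a, norm_mul, norm_pow, Complex.norm_real, Real.norm_of_nonneg t0.le]
      calc _ ≤ ε / 2 ^ d * (2 * t) ^ d := by gcongr; linarith
        _ = t ^ d * ε := by rw [mul_pow]; field_simp
        _ ≤ _ := by gcongr; exact not_lt.1 k
  have e1 : ball a0 (t / 2) = a0 +ᵥ t • ball (0 : ν → ℂ) (1 / 2) := by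
    rw [_root_.smul_ball t0.ne', smul_zero, vadd_ball_zero, Real.norm_of_nonneg t0.le]
    congr 1; ring
  refine (measure_mono e2).trans ?_
  rw [e1, measure_vadd, Measure.addHaar_smul, Measure.addHaar_smul, mul_left_comm]
  exact mul_le_mul_right (hε P P1 m0 (P2 ▸ hb)) _

end box

variable {R M α K ν : Type} [CommRing R] [IsDomain R] [Algebra ℂ R] [Field M] [Algebra ℂ M]
  {O : Subalgebra ℂ M} [Field K] [Algebra R K] [IsFractionRing R K] [Algebra K M]
  {inc : R →ₐ[ℂ] O} {z : α → O} [Fintype ν] [DecidableEq ν]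

namespace Noe

variable (N : Noe K inc ν z)

theorem ms_em (q : MvPolynomial ν R) : (N.em q : M) =
    MvPolynomial.aeval (fun j => (N.l j : M)) (MvPolynomial.map (algebraMap R K) q) := by
  induction q using MvPolynomial.induction_on with
  | C r => simp [em, N.inc_eq]
  | add a b ha hb => simp only [map_add, Subalgebra.coe_add, ha, hb]
  | mul_X a j ha =>
    rw [map_mul, map_mul, map_mul, ← ha, MvPolynomial.map_X, MvPolynomial.aeval_X]
    simp [em]

/-- a denominator that is a polynomial in the linear forms -/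
theorem ms_den (φ : M) : ∃ β : MvPolynomial ν R, β ≠ 0 ∧ (N.em β : M) * φ ∈ O := by
  obtain ⟨a, b, hb, e⟩ := N.frac φ
  have ha := N.basis.isAlgebraic.isAlgebraic (b : M)
  have hn : (b : M) ∈ nonZeroDivisors M :=
    mem_nonZeroDivisors_of_ne_zero fun e => hb (Subtype.ext e)
  obtain ⟨t, ht, r, hr, e1⟩ := ha.exists_nonzero_eq_adjoin_mul hn
  let A : Subalgebra K M :=
    { carrier := {x | ∃ ρ : R, ρ ≠ 0 ∧ (inc ρ : M) * x ∈ O}
      mul_mem' := fun {x y} ⟨ρ, h, h'⟩ ⟨σ, k, k'⟩ => ⟨ρ * σ, mul_ne_zero h k, by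
        rw [map_mul, Subalgebra.coe_mul, mul_mul_mul_comm]; exact O.mul_mem h' k'⟩
      add_mem' := fun {x y} ⟨ρ, h, h'⟩ ⟨σ, k, k'⟩ => ⟨ρ * σ, mul_ne_zero h k, by
        rw [map_mul, Subalgebra.coe_mul, mul_add, mul_comm (inc ρ : M), mul_assoc, mul_comm (inc σ : M) (inc ρ), mul_assoc]
        exact O.add_mem (O.mul_mem (inc σ).2 h') (O.mul_mem (inc ρ).2 k')⟩
      algebraMap_mem' := fun c => by
        obtain ⟨x, y, hy, rfl⟩ := IsFractionRing.div_surjective (A := R) c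
        have y0 := nonZeroDivisors.ne_zero hy
        refine ⟨y, y0, ?_⟩
        rw [N.inc_eq, ← map_mul, mul_div_cancel₀ _ (by simpa using y0), ← N.inc_eq]
        exact (inc x).2 }
  have hO : ∀ x ∈ O, x ∈ A := fun x hx => ⟨1, one_ne_zero, by simpa using hx⟩
  have hle : Algebra.adjoin K (range fun j => (N.l j : M)) ≤ A :=
    Algebra.adjoin_le (by rintro _ ⟨i, rfl⟩; exact hO _ (N.l i).2)
  have htA : t ∈ A := by
    refine Algebra.adjoin_induction (fun y hy => ?_) (fun y => hle y.2)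
      (fun _ _ _ _ => A.add_mem) (fun _ _ _ _ => A.mul_mem) ht
    rw [mem_singleton_iff.1 hy]; exact hO _ b.2
  obtain ⟨ρ, ρ0, hρ⟩ := htA
  obtain ⟨g, hg⟩ := (Algebra.adjoin_range_eq_range_aeval K fun j => (N.l j : M)).le r.2
  have hg' : MvPolynomial.aeval (fun j => (N.l j : M)) g = (r : M) := hg
  have g0 : g ≠ 0 := by
    rintro rfl
    exact hr (Subtype.ext (by rw [← hg', map_zero]; rfl))
  let _ := MvPolynomial.algebraMvPolynomial (σ := ν) (R := R) (S := K)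
  obtain ⟨⟨β, ⟨_, σ, hσ, rfl⟩⟩, e2⟩ := IsLocalization.surj
    ((nonZeroDivisors R).map (MvPolynomial.C (σ := ν))) g
  have e3 : g * MvPolynomial.C (algebraMap R K σ) = MvPolynomial.map (algebraMap R K) β := by
    simpa using e2
  have σ0 : algebraMap R K σ ≠ 0 := by simpa using nonZeroDivisors.ne_zero hσ
  refine ⟨MvPolynomial.C ρ * β, mul_ne_zero (by simpa using ρ0) ?_, ?_⟩
  · rintro rfl
    rw [map_zero] at e3
    exact mul_ne_zero g0 (by simpa using σ0) e3
  · have e4 : (r : M) = b * t := e1.symm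
    rw [N.ms_em, map_mul, ← e3, map_mul, map_mul, hg', MvPolynomial.map_C, MvPolynomial.aeval_C,
      MvPolynomial.aeval_C, ← N.inc_eq, ← N.inc_eq, e4]
    convert O.mul_mem (O.mul_mem hρ (inc σ).2) a.2 using 1
    rw [← e]; ring

variable {N} {j0 : ν} (U : N.Uni j0)

theorem Uni.ms_lt (V : N.DD) : V.1.valuation (U.π V) < 1 := by
  simpa using (U.adp V).lt

theorem Uni.ms_ne (V : N.DD) : U.π V ≠ 0 := by
  simpa using (U.adp V).ne_zero j0

theorem Uni.ms_pos (V : N.DD) : 0 < V.1.valuation (U.π V) :=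
  zero_lt_iff.2 (by simpa using U.ms_ne V)

theorem ms_l_ne (N : Noe K inc ν z) (j : ν) : (N.l j : M) ≠ 0 := N.basis.1.ne_zero j

/-- orders are read from valuations -/
theorem Uni.ms_od {V : N.DD} {φ : M} (h0 : φ ≠ 0) {n : ℤ}
    (h : V.1.valuation φ = V.1.valuation (U.π V) ^ n) : U.od V φ = n :=
  zpow_right_injective₀ (U.ms_pos V) (U.ms_lt V).ne ((U.val V φ h0).symm.trans h)

theorem Uni.ms_val_l (V : N.DD) (j : ν) :
    V.1.valuation (N.l j : M) = V.1.valuation (U.π V) ^ (-(U.e V : ℤ)) := by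
  rw [U.val V _ (N.ms_l_ne j), U.od_l]

/-- the degree condition in terms of orders -/
theorem Uni.ms_deg {φ : M} (h0 : φ ≠ 0) (k : ℕ) :
    N.Deg φ k ↔ ∀ V, -((k : ℤ) * U.e V) ≤ U.od V φ := by
  have key : ∀ (V : N.DD) j, V.1.valuation φ ≤ V.1.valuation (N.l j : M) ^ k ↔
      -((k : ℤ) * U.e V) ≤ U.od V φ := fun V j => by
    rw [U.val V φ h0, U.ms_val_l, ← zpow_natCast, ← zpow_mul,
      zpow_le_zpow_iff_right_of_lt_one₀ (U.ms_pos V) (U.ms_lt V), neg_mul, mul_comm]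
  exact ⟨fun h V => (key V j0).1 (h V.1 V.2 j0), fun h V hV j => (key ⟨V, hV⟩ j).2 (h _)⟩

theorem Uni.ms_mul (V : N.DD) {φ ψ : M} (h : φ ≠ 0) (h' : ψ ≠ 0) :
    U.od V (φ * ψ) = U.od V φ + U.od V ψ :=
  U.ms_od (mul_ne_zero h h') (by rw [map_mul, U.val V φ h, U.val V ψ h', zpow_add₀ (U.ms_pos V).ne'])

theorem Uni.ms_pow (V : N.DD) {φ : M} (h : φ ≠ 0) (n : ℕ) : U.od V (φ ^ n) = n * U.od V φ :=
  U.ms_od (pow_ne_zero _ h) (by rw [map_pow, U.val V φ h, ← zpow_natCast, ← zpow_mul, mul_comm])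

/-- an element of the ring that is larger at `D0` than at the other primes at infinity -/
theorem Uni.exists_sig [Finite N.DD] (D0 : N.DD) : ∃ (σ : O) (y : ℕ), (σ : M) ≠ 0 ∧
    U.od D0 σ = -(((y : ℤ) + 1) * U.e D0) ∧ ∀ V, V ≠ D0 → U.od V σ = -((y : ℤ) * U.e V) := by
  classical
  have := Fintype.ofFinite N.DD
  choose β β0 hβ using fun V => N.ms_den (U.π V)
  have inj := IsFractionRing.injective R K
  have hv : ∀ (V : N.DD) D, V.1.valuation (N.em (β D) : M) =
      V.1.valuation (N.l j0 : M) ^ (β D).totalDegree := fun V D => by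
    obtain ⟨γ, -, h⟩ := V.2
    have h1 := h (MvPolynomial.X j0) (MvPolynomial.X_ne_zero j0)
    rw [MvPolynomial.aeval_X, MvPolynomial.totalDegree_X, pow_one] at h1
    rw [N.ms_em, h _ (by simpa [map_eq_zero_iff _ (MvPolynomial.map_injective _ inj)] using β0 D), h1]
    congr 1
    simp only [MvPolynomial.totalDegree, MvPolynomial.support_map_of_injective _ inj]
  let σ : O := N.l j0 * ∏ D ∈ Finset.univ.erase D0, (⟨_, hβ D⟩ : O) ^ U.e D
  let y := ∑ D ∈ Finset.univ.erase D0, (β D).totalDegree * U.e D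
  have val : ∀ V : N.DD, V.1.valuation (σ : M) = V.1.valuation (N.l j0 : M) ^ (y + 1) *
      ∏ D ∈ Finset.univ.erase D0, V.1.valuation (U.π D) ^ U.e D := fun V => by
    simp only [σ, y, Subalgebra.coe_mul, SubmonoidClass.coe_finsetProd, SubmonoidClass.coe_pow,
      map_mul, map_prod, map_pow, hv, mul_pow, Finset.prod_mul_distrib, ← pow_mul,
      Finset.prod_pow_eq_pow_sum, pow_succ', mul_assoc]
  have v0 : D0.1.valuation (σ : M) = D0.1.valuation (U.π D0) ^ (-(((y : ℤ) + 1) * U.e D0)) := by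
    rw [val, Finset.prod_eq_one fun D hD => by
      rw [U.unit D D0 (Finset.ne_of_mem_erase hD).symm, one_pow], mul_one, U.ms_val_l,
      ← zpow_natCast, ← zpow_mul]
    congr 1; push_cast; ring
  have s0 : (σ : M) ≠ 0 := fun e => by
    rw [e, map_zero] at v0
    exact (zpow_pos (U.ms_pos D0) _).ne v0
  refine ⟨σ, y, s0, U.ms_od s0 v0, fun V hV => U.ms_od s0 ?_⟩
  rw [val, Finset.prod_eq_single_of_mem V (by simpa using hV) fun D _ hD => by
    rw [U.unit D V hD.symm, one_pow], U.ms_val_l, ← zpow_natCast, ← zpow_mul, ← zpow_natCast,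
    ← zpow_add₀ (U.ms_pos V).ne']
  congr 1; push_cast; ring

end Noe

end
end Pool.Agent.Lib.MP_5c318e_ag
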