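import Pool.Agent.Lib.MP_5c318e_ag.Np.Inf
import Pool.Agent.Lib.MP_5c318e_ag.Np.MassA

/-! Elements of bounded degree at infinity span a space of finite dimension. -/

set_option autoImplicit false
set_option linter.unusedSectionVars false

namespace Pool.Agent.Lib.MP_5c318e_ag

open Set MvPolynomial

variable {R M α K ν : Type} [CommRing R] [IsDomain R] [Algebra ℂ R] [Field M] [Algebra ℂ M]
  {O : Subalgebra ℂ M} [Field K] [Algebra R K] [IsFractionRing R K] [Algebra K M]
  {inc : R →ₐ[ℂ] O} {z : α → O} [Fintype ν] [DecidableEq ν]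

namespace Noe

variable (N : Noe K inc ν z) [Algebra.FiniteType ℂ O]

attribute [local instance] algebraMvPolynomial

/-- the trace of an element of the ring is a polynomial of bounded degree -/
theorem tr_deg (j0 : ν) {g : O} {k : ℕ} (hg : N.Deg g k) :
    letI := N.emF.toAlgebra
    ∃ p : MvPolynomial ν K, p.totalDegree ≤ k ∧ N.emF
      (Algebra.trace (FractionRing (MvPolynomial ν R)) M g) = aeval (fun j => (N.l j : M)) p := by
  let _ := N.emF.toAlgebra
  have := N.fin
  have hi := IsFractionRing.injective R K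
  have hu : ∀ y : (nonZeroDivisors R).map (C : R →+* MvPolynomial ν R),
      IsUnit (algebraMap _ (FractionRing (MvPolynomial ν R)) (y : MvPolynomial ν R)) := by
    rintro ⟨_, r, hr, rfl⟩
    exact ((map_ne_zero_iff _ (IsFractionRing.injective _ _)).2
      (C_ne_zero.2 (nonZeroDivisors.ne_zero hr))).isUnit
  let _ : Algebra (MvPolynomial ν K) (FractionRing (MvPolynomial ν R)) :=
    (IsLocalization.lift hu).toAlgebra
  have t1 : IsScalarTower (MvPolynomial ν R) (MvPolynomial ν K) (FractionRing (MvPolynomial ν R)) :=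
    .of_algebraMap_eq fun q => (IsLocalization.lift_eq hu q).symm
  have fr : IsFractionRing (MvPolynomial ν K) (FractionRing (MvPolynomial ν R)) :=
    IsFractionRing.isFractionRing_of_isDomain_of_isLocalization
      ((nonZeroDivisors R).map (C : R →+* MvPolynomial ν R)) _ _
  let _ : Algebra (MvPolynomial ν K) M :=
    (aeval (fun j => (N.l j : M)) : MvPolynomial ν K →ₐ[K] M).toRingHom.toAlgebra
  have t2 : IsScalarTower (MvPolynomial ν K) (FractionRing (MvPolynomial ν R)) M :=
    .of_algebraMap_eq' (IsLocalization.ringHom_ext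
      ((nonZeroDivisors R).map (C : R →+* MvPolynomial ν R)) (RingHom.ext fun q =>
        (N.emM_eq q).symm.trans ((N.emF_map q).symm.trans
          (congrArg N.emF (IsLocalization.lift_eq hu q).symm))))
  have h1 : IsIntegral (MvPolynomial ν K) (g : M) := int_of_val fun V hV => by
    have hK : ∀ c : K, algebraMap K M c ∈ V := fun c => aeval_C (fun j => (N.l j : M)) c ▸ hV (C c)
    refine NpN.mem_of_gen N.gen (V := V.toSubring) (fun r => N.inc_eq r ▸ hK _) (fun a => ?_) g
    refine (V.valuation_le_one_iff _).1 (N.dom V (fun r => N.inc_eq r ▸ hK _) ?_ 1 le_rfl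
      (fun j => (V.valuation_le_one_iff _).2 (aeval_X (R := K) (fun j => (N.l j : M)) j ▸ hV (X j))) a)
    rw [N.inc_eq, ← map_inv₀]
    exact hK _
  obtain ⟨p, hp⟩ := IsIntegrallyClosed.isIntegral_iff.1
    (Algebra.isIntegral_trace (L := FractionRing (MvPolynomial ν R)) h1)
  refine ⟨p, ?_, hp ▸ (IsScalarTower.algebraMap_apply (MvPolynomial ν K)
    (FractionRing (MvPolynomial ν R)) M p).symm⟩
  let _ := (N.emF.comp (NpI.dF (K := R) (ν := ν)).valuationSubring.subtype).toAlgebra
  have t3 : IsScalarTower (NpI.dF (K := R) (ν := ν)).valuationSubring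
      (FractionRing (MvPolynomial ν R)) M := .of_algebraMap_eq fun _ => rfl
  have l0 := pow_ne_zero k (N.l_ne j0)
  have h2 : IsIntegral (NpI.dF (K := R) (ν := ν)).valuationSubring
      ((algebraMap _ (FractionRing (MvPolynomial ν R)) (X j0 ^ k : MvPolynomial ν R))⁻¹ • (g : M)) :=
    N.int_dF fun V hV => by
      rw [Algebra.smul_def, RingHom.algebraMap_toAlgebra, map_inv₀, emF_map, map_pow, emM_X,
        ← V.valuation_le_one_iff, map_mul, map_inv₀, inv_mul_le_one₀
          (zero_lt_iff.2 ((Valuation.ne_zero_iff _).2 l0)), map_pow]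
      exact hg V hV j0
  obtain ⟨y, hy⟩ := IsIntegrallyClosed.isIntegral_iff.1
    (Algebra.isIntegral_trace (L := FractionRing (MvPolynomial ν R)) h2)
  obtain ⟨r, q, hr, e⟩ := mv_clear (R := R) p
  have hC : (C r : MvPolynomial ν R) ≠ 0 := C_ne_zero.2 hr
  have hX : (X j0 ^ k : MvPolynomial ν R) ≠ 0 := pow_ne_zero _ (X_ne_zero j0)
  have h3 := NpI.deg_le (a := q) (mul_ne_zero hC hX) (by
    convert y.2
    refine Eq.trans ?_ hy.symm
    rw [map_smul, ← hp, IsScalarTower.algebraMap_apply (MvPolynomial ν R) (MvPolynomial ν K) _ q,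
      algebraMap_def, e, map_mul, map_mul, ← map_C, ← algebraMap_def,
      ← IsScalarTower.algebraMap_apply, smul_eq_mul, mul_div_mul_left _ _
        ((map_ne_zero_iff _ (IsFractionRing.injective _ _)).2 hC), div_eq_inv_mul])
  rw [totalDegree_mul_of_isDomain hC hX, totalDegree_C, zero_add, totalDegree_X_pow,
    ← deg_map_inj hi, e] at h3
  rcases eq_or_ne p 0 with rfl | p0
  · simp
  · rwa [totalDegree_mul_of_isDomain (C_ne_zero.2 ((map_ne_zero_iff _ hi).2 hr)) p0,
      totalDegree_C, zero_add] at h3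

theorem fd_deg (j0 : ν) (k : ℕ) : ∃ E : Submodule K M, FiniteDimensional K E ∧
    ∀ g : O, N.Deg g k → (g : M) ∈ E := by
  let _ := N.emF.toAlgebra
  have := N.fin
  have := N.charZero
  let b := Module.finBasis (FractionRing (MvPolynomial ν R)) M
  let b' := (Algebra.traceForm _ M).dualBasis (traceForm_nondegenerate _ M) b
  choose β β0 hβ using fun i => N.ms_den (b i)
  choose k0 hk0 using fun i => N.exists_deg ⟨_, hβ i⟩
  refine ⟨⨆ i, (restrictTotalDegree ν K (k + k0 i)).map ((LinearMap.mulRight K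
    (b' i / N.emM (β i))).comp (aeval fun j => (N.l j : M)).toLinearMap), inferInstance,
    fun g hg => ?_⟩
  rw [← b'.sum_repr g]
  refine Submodule.sum_mem _ fun i _ => Submodule.mem_iSup_of_mem i ?_
  obtain ⟨p, hp, e⟩ := N.tr_deg j0 (g := g * ⟨_, hβ i⟩) (hg.mul (hk0 i))
  refine ⟨p, (mem_restrictTotalDegree _ _ _).2 hp, ?_⟩
  have e2 : ((g * ⟨_, hβ i⟩ : O) : M) =
      algebraMap _ (FractionRing (MvPolynomial ν R)) (β i) • ((g : M) * b i) := by
    rw [Algebra.smul_def, RingHom.algebraMap_toAlgebra, emF_map, mul_left_comm]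
    rfl
  rw [e2, map_smul, smul_eq_mul, map_mul, emF_map] at e
  rw [LinearMap.BilinForm.dualBasis_repr_apply, Algebra.traceForm_apply, Algebra.smul_def,
    LinearMap.comp_apply, AlgHom.toLinearMap_apply, LinearMap.mulRight_apply, ← e,
    RingHom.algebraMap_toAlgebra]
  have := N.emM_ne (β0 i)
  field_simp

end Noe

end Pool.Agent.Lib.MP_5c318e_ag
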