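import Pool.Agent.Lib.MP_5c318e_ag.Tw.TDefs
import Pool.Agent.Lib.MP_5c318e_ag.S.RArea
import Pool.Agent.Lib.MP_9ff3e7_ag.F.Osg

/-! Jacobian determinants at the centre of a polydisc. -/

set_option autoImplicit false

namespace Pool.Agent.Lib.MP_5c318e_ag.Tw

open MeasureTheory Metric Set Filter Topology
open scoped NNReal

variable {ι : Type} [Fintype ι] [DecidableEq ι]

/-- the volume element of a polydisc is at most its Jacobian at the centre -/
theorem Pd.det {a : ι → ℂ} {J : ℝ} {Q : (ι → ℂ) → ι → ℂ} (h : Pd a J Q) :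
    J ≤ ‖(fderiv ℂ Q 0).det‖ ^ 2 := by
  refine le_of_forall_gt_imp_ge_of_dense fun m hm => ?_
  have m0 : 0 ≤ m := (sq_nonneg _).trans hm.le
  have an : AnalyticAt ℂ Q 0 := analyticAt_pi_iff.2 fun i =>
    MP_9ff3e7_ag.F.osgood isOpen_ball (differentiableOn_pi.1 h.hol i) 0 (mem_ball_self one_pos)
  have hs : HasStrictFDerivAt Q ((fderiv ℂ Q 0).restrictScalars ℝ) 0 :=
    (an.contDiffAt (n := 1)).hasStrictFDerivAt one_ne_zero |>.restrictScalars ℝ
  obtain ⟨δ, h1, h2⟩ := ((addHaar_image_le_mul_of_det_lt (volume : Measure (ι → ℂ))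
    ((fderiv ℂ Q 0).restrictScalars ℝ) (m := m.toNNReal) (by
      rw [RArea.det_real]
      exact (ENNReal.ofReal_lt_ofReal_iff_of_nonneg (sq_nonneg _)).2 hm)).and
    self_mem_nhdsWithin).exists
  obtain ⟨s, s0, hA⟩ := hs.approximates_deriv_on_nhds (c := δ) (Or.inr h2)
  obtain ⟨r, r0, hr⟩ := nhds_basis_closedBall.mem_iff.1
    (inter_mem s0 (ball_mem_nhds (0 : ι → ℂ) one_pos))
  have h3 := h1 _ _ (hA.mono_set fun x hx => (hr hx).1)
  have hK : IsCompact (Q '' closedBall 0 r) :=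
    (isCompact_closedBall _ _).image_of_continuousOn
      (h.hol.continuousOn.mono fun x hx => (hr hx).2)
  have h4 := h.int ((Q '' closedBall 0 r).indicator 1)
    (measurable_one.indicator hK.measurableSet)
  rw [lintegral_indicator_one hK.measurableSet] at h4
  have h5 : volume (closedBall (0 : ι → ℂ) r) ≤
      ∫⁻ w in ball 0 1, (Q '' closedBall 0 r).indicator 1 (Q w) := by
    rw [← setLIntegral_one]
    refine le_trans (setLIntegral_mono' measurableSet_closedBall fun x hx => ?_)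
      (lintegral_mono_set fun x hx => (hr hx).2)
    rw [indicator_of_mem (mem_image_of_mem Q hx), Pi.one_apply]
  have h6 := (mul_le_mul_right h5 _).trans (h4.trans h3)
  rw [ENNReal.mul_le_mul_iff_left (measure_closedBall_pos _ _ r0).ne'
    measure_closedBall_lt_top.ne] at h6
  exact (ENNReal.ofReal_le_ofReal_iff m0).1 h6

theorem norm_det_le (A : (ι → ℂ) →L[ℂ] (ι → ℂ)) :
    ‖A.det‖ ≤ (Fintype.card ι).factorial * ‖A‖ ^ Fintype.card ι := by
  rw [ContinuousLinearMap.det, ← LinearMap.det_toMatrix']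
  have := Matrix.det_le (A := LinearMap.toMatrix' (A : (ι → ℂ) →ₗ[ℂ] (ι → ℂ)))
    (abv := IsAbsoluteValue.toAbsoluteValue (norm : ℂ → ℝ)) (x := ‖A‖) fun i j => by
      rw [LinearMap.toMatrix'_apply]
      refine (norm_le_pi_norm _ i).trans ((A.le_opNorm _).trans ?_)
      rw [Pi.norm_single, norm_one, mul_one]
  simpa using this

variable {S : Type} [TopologicalSpace S] [MeasurableSpace S] {D : RD ι S}

/-- the Cauchy estimate for a Jacobian determinant -/
theorem Pd.jac_le {p : S} {J F : ℝ} {Q : (ι → ℂ) → ι → ℂ} (h : Pd (D.π p) J Q)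
    {σ : (ι → ℂ) → S} (h0 : σ 0 = p) (hc : ContinuousOn σ (ball 0 1))
    (hπ : ∀ w ∈ ball (0 : ι → ℂ) 1, D.π (σ w) = Q w) {g : S → ι → ℂ} (hg : D.Hol g)
    (hF : ∀ w ∈ ball (0 : ι → ℂ) 1, ‖g (σ w)‖ ≤ F) :
    J * ‖D.jac g p‖ ^ 2 ≤ ((Fintype.card ι).factorial * (2 * F) ^ Fintype.card ι) ^ 2 := by
  have ge : ∀ w ∈ ball (0 : ι → ℂ) 1,
      (fun u => g (σ u)) =ᶠ[𝓝 w] (fun z => g (D.sec (σ w) z)) ∘ Q := fun w hw => by
    filter_upwards [(hc.continuousAt (isOpen_ball.mem_nhds hw)).eventually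
      ((D.ch (σ w)).open_source.mem_nhds (D.mem_src _)), isOpen_ball.mem_nhds hw] with z hz hz'
    rw [Function.comp_apply, ← hπ z hz', RD.sec_π hz]
  have dQ : ∀ w ∈ ball (0 : ι → ℂ) 1, DifferentiableAt ℂ Q w := fun w hw =>
    h.hol.differentiableAt (isOpen_ball.mem_nhds hw)
  have dg : DifferentiableOn ℂ (fun u => g (σ u)) (ball 0 1) := fun w hw =>
    ((DifferentiableAt.comp w (hπ w hw ▸ hg (σ w)) (dQ w hw)).congr_of_eventuallyEq
      (ge w hw)).differentiableWithinAt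
  have b0 : (0 : ι → ℂ) ∈ ball (0 : ι → ℂ) 1 := mem_ball_self one_pos
  have h1 := Complex.norm_fderiv_le_div_of_mapsTo_ball dg (R₂ := 2 * F) (fun w hw => by
    rw [mem_closedBall_iff_norm]
    exact (norm_sub_le _ _).trans (by linarith [hF w hw, hF 0 b0])) one_pos
  have h2 : (fderiv ℂ (fun u => g (σ u)) 0).det = D.jac g p * (fderiv ℂ Q 0).det := by
    rw [(ge 0 b0).fderiv_eq, fderiv_comp 0 (hπ 0 b0 ▸ hg (σ 0)) (dQ 0 b0), h0, h.zero]
    exact LinearMap.det_comp _ _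
  have h3 := norm_det_le (fderiv ℂ (fun u => g (σ u)) 0)
  rw [h2, norm_mul] at h3
  rw [div_one] at h1
  calc J * ‖D.jac g p‖ ^ 2 ≤ (‖D.jac g p‖ * ‖(fderiv ℂ Q 0).det‖) ^ 2 := by
        rw [mul_pow, mul_comm]
        exact mul_le_mul_of_nonneg_left h.det (sq_nonneg _)
    _ ≤ _ := by
        refine pow_le_pow_left₀ (by positivity) (h3.trans ?_) 2
        gcongr

end Pool.Agent.Lib.MP_5c318e_ag.Tw
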