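import Pool.Agent.Lib.MP_5c318e_ag.Np.FiveA
import Pool.Agent.Lib.MP_5c318e_ag.Tw.Lift
import Pool.Agent.Lib.MP_5c318e_ag.Tw.One
import Pool.Agent.Lib.MP_5c318e_ag.Tw.Bas
import Pool.Agent.Lib.MP_5c318e_ag.Xt.SubA
import Pool.Agent.Lib.MP_5c318e_ag.S.CVA
import Pool.Agent.Lib.MP_5c318e_ag.Fp.PwDefs
import Pool.Agent.Lib.MP_5c318e_ag.S.CCov

/-! Small polydiscs in the fibres of a family, and the Cauchy estimate on them. -/

set_option autoImplicit false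
set_option linter.unusedSectionVars false

namespace Pool.Agent.Lib.MP_5c318e_ag

open MeasureTheory Metric Set Filter Topology

noncomputable section

variable {δ ν K M : Type} [Fintype δ] [DecidableEq δ] [Fintype ν] [DecidableEq ν]
  [Field K] [Algebra ℂ K] [Field M] [Algebra ℂ M] [Algebra K M] {B : Cht δ K}

variable {Δ : MvPolynomial ν B.O} {Λ : Pt B.O → (ν → ℂ) → ℝ} {K0 : ℝ} {M0 : ℕ}

/-- polydiscs in the fibres on which finitely many units are almost constant -/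
theorem Fam.box (T : Fam B ν M)
    (h : Tw.Tow (Xt.evB B) B.siz Δ Λ K0 M0) (hd : T.finX.Δ ∣ Δ)
    (hu : IsUnit (Xt.up T.toRel Δ)) {I : Type} [Fintype I] {q : I → T.X.O} (hq : ∀ i, IsUnit (q i)) :
    ∃ (C : ℝ) (c : ℕ), 1 ≤ C ∧ ∀ (b : Pt B.O) (p : T.Fib b), ∃ (J : ℝ) (Q : (ν → ℂ) → ν → ℂ)
      (σ : (ν → ℂ) → T.Fib b), Tw.Pd ((T.fib b).π p) J Q ∧
      1 ≤ J * Λ b (Xt.xc T.toRel p.1) * (C * Xt.L T.toRel Δ p.1 ^ c) ∧ σ 0 = p ∧ ContinuousOn σ (ball 0 1) ∧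
      (∀ w ∈ ball (0 : ν → ℂ) 1, (T.fib b).π (σ w) = Q w ∧
        Xt.L T.toRel Δ (σ w).1 ≤ K0 * Xt.L T.toRel Δ p.1 ∧ Λ b (Xt.xc T.toRel (σ w).1) ≤ K0 * Λ b (Xt.xc T.toRel p.1) ∧
        Λ b (Xt.xc T.toRel p.1) ≤ K0 * Λ b (Xt.xc T.toRel (σ w).1) ∧
        ∀ i, ‖(σ w).1 (q i) - p.1 (q i)‖ ≤ ‖p.1 (q i)‖ / 2) ∧
      (∀ u : T.Fib b → ℂ, (T.fib b).Hol u → DifferentiableOn ℂ (fun w => u (σ w)) (ball 0 1)) ∧
      ∀ F : T.Fib b → ENNReal, Measurable F →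
        ENNReal.ofReal J * ∫⁻ w in ball 0 1, F (σ w) ≤ ∫⁻ x, F x ∂(T.fib b).μ := by
  have s0 : ∀ p, 0 ≤ Xt.L T.toRel Δ p := fun p => zero_le_two.trans (Xt.two_le_L p)
  choose r hr using fun i => (hq i).exists_right_inv
  obtain ⟨A, A0, hA⟩ := Md.sum s0 Finset.univ fun i _ =>
    (Xt.md_L T hd hu (q i)).add s0 (Xt.md_L T hd hu (r i))
  have hl : ∀ (p : Pt T.X.O) i, |Real.log ‖p (q i)‖| ≤ A * Xt.L T.toRel Δ p + A := fun p i => by
    have h1 := (Finset.single_le_sum (f := fun i => ‖p (q i)‖ + ‖p (r i)‖)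
      (fun _ _ => by positivity) (Finset.mem_univ i)).trans (hA p)
    have h2 : ‖p (q i)‖ * ‖p (r i)‖ = 1 := by rw [← norm_mul, ← map_mul, hr, map_one, norm_one]
    have n1 := (norm_nonneg _).lt_of_ne' (left_ne_zero_of_mul_eq_one h2)
    have n2 := (norm_nonneg _).lt_of_ne' (right_ne_zero_of_mul_eq_one h2)
    have h3 := Real.log_mul n1.ne' n2.ne'
    rw [h2, Real.log_one] at h3
    have h4 := (Real.log_le_iff_le_exp n1).2 ((le_add_of_nonneg_right n2.le).trans h1)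
    have h5 := (Real.log_le_iff_le_exp n2).2 ((le_add_of_nonneg_left n1.le).trans h1)
    exact abs_le.2 ⟨by linarith, h4⟩
  have k1 := h.one_le
  have a1 : 1 ≤ A * K0 + A + 1 := by nlinarith
  refine ⟨(32 * (A * K0 + A + 1)) ^ (2 * Fintype.card ν), M0 + 2 * Fintype.card ν,
    one_le_pow₀ (by linarith), fun b p => ?_⟩
  have ne : ∀ x : T.Fib b, MvPolynomial.eval₂ (Xt.evB B b) ((T.fib b).π x) Δ ≠ 0 :=
    fun x => by
    have := (hu.map x.1).ne_zero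
    rwa [Xt.up_eq, x.2, ← Xt.fib_xc] at this
  have et : ∀ x : T.Fib b, Xt.L T.toRel Δ x.1 =
      Tw.sz (Xt.evB B) B.siz Δ b ((T.fib b).π x) := fun x => by
    rw [Xt.L, x.2, Xt.fib_xc]
  have ex : ∀ x : T.Fib b, Xt.xc T.toRel x.1 = (T.fib b).π x := fun x => (Xt.fib_xc b x).symm
  obtain ⟨C, -, hC, -⟩ := T.cov b fun e => T.finX.Δ_ne p.1 (by rw [p.2, e, map_zero])
  obtain ⟨J, Q, hQ, hJ, hw⟩ := h.disc b _ (ne p)
  have hs : ∀ w ∈ ball (0 : ν → ℂ) 1, MvPolynomial.eval (Q w) C.Δ ≠ 0 := fun w hw' e => by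
    obtain ⟨Δ', rfl⟩ := hd
    rw [hC, MvPolynomial.eval_map] at e
    exact (hw w hw').1 (by rw [MvPolynomial.eval₂_mul, e, zero_mul])
  obtain ⟨σ, σ0, σc, σπ, σh, -⟩ := hQ.lift C hs
  set L0 := Xt.L T.toRel Δ p.1 with hL
  have L2 : 2 ≤ L0 := Xt.two_le_L p.1
  set β := (A * K0 + A + 1) * L0 with hβ
  have β1 : 1 ≤ β := by nlinarith
  have ε0 : 0 < (32 * β)⁻¹ := by positivity
  have ε1 : (32 * β)⁻¹ ≤ 1 := inv_le_one_of_one_le₀ (by linarith)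
  have hn : ∀ w ∈ ball (0 : ν → ℂ) 1, ‖(((32 * β)⁻¹ : ℝ) : ℂ) • w‖ ≤ (32 * β)⁻¹ ∧
      (((32 * β)⁻¹ : ℝ) : ℂ) • w ∈ ball (0 : ν → ℂ) 1 := fun w hw => by
    rw [mem_ball_zero_iff] at hw ⊢
    rw [norm_smul, Complex.norm_real, Real.norm_of_nonneg ε0.le]
    exact ⟨mul_le_of_le_one_right ε0.le hw.le, by nlinarith [norm_nonneg w]⟩
  have hQ' := hQ.shrink ε0 ε1
  obtain ⟨τ, τ0, τc, τπ, τh, τi⟩ := hQ'.lift C fun w hw' => hs _ (hn w hw').2
  have e : EqOn τ (fun w => σ ((((32 * β)⁻¹ : ℝ) : ℂ) • w)) (ball 0 1) :=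
    (T2Space.isSeparatedMap (T.fib b).π).eqOn_of_comp_eqOn (T.fib b).loc.isLocallyInjective
      (convex_ball _ _).isPreconnected τc
      (σc.comp (continuous_const_smul _).continuousOn fun w hw => (hn w hw).2)
      (fun w hw => (τπ w hw).trans (σπ _ (hn w hw).2).symm) (mem_ball_self one_pos)
      (by rw [τ0, smul_zero, σ0])
  refine ⟨_, _, τ, hQ', ?_, τ0, τc, fun w hw' => ⟨τπ w hw', ?_⟩, τh, τi⟩
  · rw [← et, ← ex, ← hL] at hJ
    refine hJ.trans_eq ?_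
    have : (32 * (A * K0 + A + 1) * L0) ≠ 0 := by positivity
    rw [hβ, ← mul_assoc 32, pow_add, inv_pow]
    field_simp
    rw [mul_pow _ L0, mul_assoc (J * _)]
  · obtain ⟨-, w1, w2, w3⟩ := hw _ (hn w hw').2
    rw [et, ex, ex, τπ w hw', hL, et]
    refine ⟨w1, w2, w3, fun i => ?_⟩
    have := Tw.osc β1 (σh _ (T.fib_hol b (q i))) (fun w _ => ((hq i).map (σ w).1).ne_zero)
      (fun w hw' => (hl _ i).trans (by
        have := (hw w hw').2.1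
        rw [← σπ w hw', ← et, ← et, ← hL] at this
        nlinarith [mul_le_mul_of_nonneg_left this A0]))
      (w := (((32 * β)⁻¹ : ℝ) : ℂ) • w) ((mul_le_mul_of_nonneg_right (hn w hw').1
        (by positivity)).trans (by rw [inv_mul_le_iff₀ (by positivity)]; linarith))
    rw [σ0] at this
    rw [e hw']
    refine this.trans ((mul_le_mul_of_nonneg_right (mul_le_mul_of_nonneg_left (hn w hw').1
      (by positivity)) (norm_nonneg _)).trans_eq ?_)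
    field_simp
    ring

/-- the Cauchy estimate for the Jacobian of `l`; `G p` bounds `l` on the polydisc at `p` -/
theorem Fam.jac_le (T : Fam B ν M) (h : Tw.Tow (Xt.evB B) B.siz Δ Λ K0 M0) (hd : T.finX.Δ ∣ Δ)
    (hu : IsUnit (Xt.up T.toRel Δ)) {I : Type} [Fintype I] {q : I → T.X.O}
    (hq : ∀ i, IsUnit (q i)) {l : ν → T.X.O} {G : Pt T.X.O → ℝ}
    (hl : ∀ p p' : Pt T.X.O, p'.res T.inc = p.res T.inc →
      Λ (p.res T.inc) (Xt.xc T.toRel p') ≤ K0 * Λ (p.res T.inc) (Xt.xc T.toRel p) →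
      (∀ i, ‖p' (q i)‖ ≤ 2 * ‖p (q i)‖) → ‖fun j => p' (l j)‖ ≤ G p) :
    ∃ (C : ℝ) (c : ℕ), 0 ≤ C ∧ ∀ p : Pt T.X.O, ‖p.ev (Jac T.dx fun j => (l j : M))‖ ^ 2 ≤
      C * G p ^ (2 * Fintype.card ν) * Xt.L T.toRel Δ p ^ c *
        Λ (p.res T.inc) (Xt.xc T.toRel p) := by
  obtain ⟨C, c, C1, H⟩ := T.box h hd hu hq
  refine ⟨((Fintype.card ν).factorial * 2 ^ Fintype.card ν) ^ 2 * C, c,
    by positivity, fun p => ?_⟩
  obtain ⟨J, Q, σ, hQ, hJ, σ0, σc, hw, -, -⟩ := H _ ⟨p, rfl⟩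
  have h1 := hQ.jac_le σ0 σc (fun w hw' => (hw w hw').1) (g := fun x j => x.1 (l j)) (F := G p)
    (fun x => differentiableAt_pi.2 fun j => T.fib_hol _ (l j) x) fun w hw' =>
      hl p _ (σ w).2 (hw w hw').2.2.1 fun i => by
        have h2 := (hw w hw').2.2.2.2 i
        have h4 := norm_sub_norm_le ((σ w).1 (q i)) (p (q i))
        have h5 := norm_nonneg (p (q i))
        simp only at h2
        linarith
  rw [((T.cvEv _).jac (f := fun j => (l j : M)) (fun j => Pt.reg_coe _ _)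
    (.of_forall fun q i => (Pt.ev_coe _ _).symm)).2] at h1
  have h0 : 0 < Λ (p.res T.inc) (Xt.xc T.toRel p) :=
    h.pos _ _ (Xt.up_eq p Δ ▸ (hu.map p).ne_zero)
  have h2 := Xt.two_le_L (Δ := Δ) p
  calc _ ≤ ‖p.ev (Jac T.dx fun j => (l j : M))‖ ^ 2 *
        (J * Λ (p.res T.inc) (Xt.xc T.toRel p) * (C * Xt.L T.toRel Δ p ^ c)) :=
        le_mul_of_one_le_right (sq_nonneg _) hJ
    _ = J * ‖p.ev (Jac T.dx fun j => (l j : M))‖ ^ 2 *
        (Λ (p.res T.inc) (Xt.xc T.toRel p) * (C * Xt.L T.toRel Δ p ^ c)) := by ring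
    _ ≤ _ := (mul_le_mul_of_nonneg_right h1 (by positivity)).trans_eq (by ring)

end

end Pool.Agent.Lib.MP_5c318e_ag
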