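import Pool.Agent.Lib.MP_5c318e_ag.Np.NDefs
/-! Linear Noether normalisation in valuative form, and the calculus of degrees at infinity. -/
set_option autoImplicit false
namespace Pool.Agent.Lib.MP_5c318e_ag
open Set
noncomputable section

namespace NpN

variable {K M : Type} [Field K] [Field M] [Algebra K M]

theorem exists_pt [CharZero K] {σ : Type} {f : MvPolynomial σ K} (hf : f ≠ 0) :
    ∃ c : σ → ℤ, MvPolynomial.eval (fun i => (c i : K)) f ≠ 0 := by
  by_contra hn
  push Not at hn
  refine hf (MvPolynomial.funext_set (fun _ => range (Int.cast : ℤ → K))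
    (fun _ => infinite_range_of_injective Int.cast_injective) fun x hx => ?_)
  choose c hc using fun i => hx i (mem_univ i)
  rw [map_zero, ← hn c]
  congr 2
  exact funext fun i => (hc i).symm

/-- one step: the top form at `c` is a unit, so `z i0` is dominated -/
theorem step {σ : Type} [Fintype σ] (V : ValuationSubring M) {f : MvPolynomial σ K} {z : σ → M}
    (hz : MvPolynomial.aeval z f = 0) (hc : ∀ d, algebraMap K M (f.coeff d) ∈ V) (c : σ → ℤ)
    (i0 : σ) (h0 : MvPolynomial.eval (fun i => (c i : K))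
      (MvPolynomial.homogeneousComponent f.totalDegree f) ≠ 0)
    (h1 : algebraMap K M (MvPolynomial.eval (fun i => (c i : K))
      (MvPolynomial.homogeneousComponent f.totalDegree f))⁻¹ ∈ V) {γ : V.ValueGroup} (hγ : 1 ≤ γ)
    (hy : ∀ i, V.valuation (c i0 * z i - c i * z i0) ≤ γ) : V.valuation (z i0) ≤ γ := by
  classical
  by_contra hn
  rw [not_le] at hn
  have p0 : 0 < V.valuation (z i0) := lt_of_le_of_lt zero_le hn
  have z0 : z i0 ≠ 0 := (Valuation.pos_iff _).1 p0
  have small : ∀ y : M, V.valuation y ≤ γ → V.valuation (y / z i0) < 1 := fun y h => by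
    rw [map_div₀, div_lt_one₀ p0]
    exact h.trans_lt hn
  have hint : ∀ n : ℤ, (n : M) ∈ V := fun n => intCast_mem V n
  have hu : V.valuation ((c i0 : M) / z i0) < 1 :=
    small _ (((V.valuation_le_one_iff _).2 (hint _)).trans hγ)
  have e : ∀ i, (c i0 : M) / z i0 * z i = c i + (c i0 * z i - c i * z i0) / z i0 := fun i => by
    field_simp
    ring
  have hw : ∀ i, (c i0 : M) / z i0 * z i ∈ V := fun i => by
    rw [e]
    exact add_mem (hint _) ((V.valuation_le_one_iff _).1 (small _ (hy i)).le)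
  let U : V := ⟨_, (V.valuation_le_one_iff _).1 hu.le⟩
  let W : σ → V := fun i => ⟨_, hw i⟩
  let A : (σ →₀ ℕ) → V := fun d => ⟨_, hc d⟩
  let φ := IsLocalRing.residue V
  have z1 : ∀ a : V, V.valuation (a : M) < 1 → φ a = 0 := fun a h =>
    (IsLocalRing.residue_eq_zero_iff _).2 ((V.valuation_lt_one_iff a).2 h)
  have hU : φ U = 0 := z1 U hu
  have hW : ∀ i, φ (W i) = φ (c i) := fun i => by
    rw [← sub_eq_zero, ← map_sub]
    refine z1 _ ?_
    have : ((W i - c i : V) : M) = (c i0 * z i - c i * z i0) / z i0 := by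
      have := e i
      simp only [W, AddSubgroupClass.coe_sub, SubringClass.coe_intCast]
      rw [this]
      ring
    rw [this]
    exact small _ (hy i)
  have hd : ∀ d ∈ f.support, ∑ i, d i ≤ f.totalDegree := fun d h => by
    have := MvPolynomial.le_totalDegree h
    rwa [Finsupp.sum_fintype _ _ fun _ => rfl] at this
  have E : ∑ d ∈ f.support, A d * (∏ i, W i ^ d i) * U ^ (f.totalDegree - ∑ i, d i) = 0 := by
    apply Subtype.val_injective
    have h2 : ((c i0 : M) / z i0) ^ f.totalDegree * MvPolynomial.aeval z f = 0 := by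
      rw [hz, mul_zero]
    rw [MvPolynomial.aeval_def, MvPolynomial.eval₂_eq', Finset.mul_sum] at h2
    simp only [AddSubmonoidClass.coe_finsetSum, MulMemClass.coe_mul, SubmonoidClass.coe_finsetProd,
      SubmonoidClass.coe_pow, ZeroMemClass.coe_zero, A, W, U]
    rw [← h2]
    refine Finset.sum_congr rfl fun d h => ?_
    simp only [mul_pow]
    rw [Finset.prod_mul_distrib, Finset.prod_pow_eq_pow_sum]
    conv_rhs => rw [← Nat.add_sub_cancel' (hd d h), pow_add]
    ring
  let T : V := ∑ d ∈ f.support with d.degree = f.totalDegree, A d * ∏ i, (c i : V) ^ d i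
  have hT : φ T = 0 := by
    have := congrArg φ E
    rw [map_zero, map_sum] at this
    rw [← this, map_sum, Finset.sum_filter]
    refine Finset.sum_congr rfl fun d h => ?_
    simp only [map_mul, map_prod, map_pow, hW, hU]
    have dg : d.degree = ∑ i, d i := Finsupp.degree_eq_sum d
    split_ifs with h3
    · rw [← dg, h3, Nat.sub_self, pow_zero, mul_one]
    · rw [zero_pow (by have := hd d h; omega), mul_zero]
  have hv : (T : M) = algebraMap K M (MvPolynomial.eval (fun i => (c i : K))
      (MvPolynomial.homogeneousComponent f.totalDegree f)) := by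
    rw [MvPolynomial.homogeneousComponent_apply, map_sum, map_sum]
    simp only [T, AddSubmonoidClass.coe_finsetSum, MulMemClass.coe_mul,
      SubmonoidClass.coe_finsetProd, SubmonoidClass.coe_pow, SubringClass.coe_intCast, A]
    refine Finset.sum_congr rfl fun d _ => ?_
    rw [MvPolynomial.eval_monomial, Finsupp.prod_fintype _ _ fun _ => pow_zero _]
    simp
  have : T * ⟨_, h1⟩ = 1 := Subtype.val_injective (by
    simp only [MulMemClass.coe_mul, hv, OneMemClass.coe_one]
    rw [← map_mul, mul_inv_cancel₀ h0, map_one])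
  have h4 := congrArg φ this
  rw [map_mul, hT, zero_mul, map_one] at h4
  exact zero_ne_one h4

theorem core [CharZero K] {O : Type} [AddCommGroup O] (ι : O →+ M) (s : ℕ) :
    ∀ z : Fin s → O, ∃ (n : ℕ) (l : Fin n → O) (S : Finset K),
      (∀ j, l j ∈ Submodule.span ℤ (range z)) ∧ AlgebraicIndependent K (fun j => ι (l j)) ∧
      ∀ V : ValuationSubring M, (∀ c ∈ S, algebraMap K M c ∈ V) → ∀ γ, 1 ≤ γ →
        (∀ j, V.valuation (ι (l j)) ≤ γ) → ∀ a, V.valuation (ι (z a)) ≤ γ := by
  classical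
  induction s with
  | zero =>
    intro z
    exact ⟨0, z, ∅, fun j => j.elim0, algebraicIndependent_empty_type, fun _ _ _ _ _ a => a.elim0⟩
  | succ s ih =>
    intro z
    by_cases hi : AlgebraicIndependent K fun j => ι (z j)
    · exact ⟨_, z, ∅, fun j => Submodule.subset_span ⟨j, rfl⟩, hi, fun _ _ _ _ h => h⟩
    rw [algebraicIndependent_iff] at hi
    push Not at hi
    obtain ⟨f, hf, f0⟩ := hi
    have t0 : MvPolynomial.homogeneousComponent f.totalDegree f ≠ 0 := by
      obtain ⟨d, hd, e⟩ := Finset.exists_mem_eq_sup f.support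
        (MvPolynomial.support_nonempty.2 f0) fun d => d.sum fun _ e => e
      intro h
      have := MvPolynomial.coeff_homogeneousComponent f.totalDegree f d
      rw [h, MvPolynomial.coeff_zero, if_pos (show d.degree = f.totalDegree from e.symm)] at this
      exact MvPolynomial.mem_support_iff.1 hd this.symm
    obtain ⟨c, hc⟩ := exists_pt (mul_ne_zero (MvPolynomial.X_ne_zero (0 : Fin (s + 1))) t0)
    rw [map_mul, MvPolynomial.eval_X] at hc
    obtain ⟨n, l, S, h1, h2, h3⟩ := ih fun i => c 0 • z i.succ - c i.succ • z 0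
    refine ⟨n, l, S ∪ f.coeffs ∪ {(MvPolynomial.eval (fun i => (c i : K))
      (MvPolynomial.homogeneousComponent f.totalDegree f))⁻¹, (c 0 : K)⁻¹}, fun j => ?_, h2,
      fun V hS γ hγ hl => ?_⟩
    · refine Submodule.span_le.2 ?_ (h1 j)
      rintro _ ⟨i, rfl⟩
      exact sub_mem (Submodule.smul_mem _ _ (Submodule.subset_span ⟨_, rfl⟩))
        (Submodule.smul_mem _ _ (Submodule.subset_span ⟨_, rfl⟩))
    have hy : ∀ i, V.valuation (c 0 * ι (z i) - c i * ι (z 0)) ≤ γ := fun i => by
      refine Fin.cases (by simp) (fun i => ?_) i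
      have := h3 V (fun c hc => hS c (by simp [hc])) γ hγ hl i
      simpa only [map_sub, map_zsmul, zsmul_eq_mul] using this
    have hco : ∀ d, algebraMap K M (f.coeff d) ∈ V := fun d => by
      by_cases h : f.coeff d = 0
      · rw [h, map_zero]; exact zero_mem V
      · exact hS _ (by simp [MvPolynomial.coeff_mem_coeffs d h])
    have k0 := step V hf hco c 0 (right_ne_zero_of_mul hc) (hS _ (by simp)) hγ hy
    intro a
    have c0 : (c 0 : M) ≠ 0 := by
      rw [← map_intCast (algebraMap K M)]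
      exact (map_ne_zero _).2 (left_ne_zero_of_mul hc)
    have e : ι (z a) = algebraMap K M (c 0 : K)⁻¹ *
        ((c 0 * ι (z a) - c a * ι (z 0)) + c a * ι (z 0)) := by
      rw [map_inv₀, map_intCast]
      field_simp
      ring
    rw [e, map_mul]
    refine (mul_le_of_le_one_left zero_le ((V.valuation_le_one_iff _).2 (hS _ (by simp)))).trans
      ((V.valuation.map_add _ _).trans (max_le (hy a) ?_))
    rw [map_mul]
    exact (mul_le_of_le_one_left zero_le
      ((V.valuation_le_one_iff _).2 (intCast_mem V _))).trans k0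

end NpN

variable {R M α K ν : Type} [CommRing R] [IsDomain R] [Algebra ℂ R] [Field M] [Algebra ℂ M]
  {O : Subalgebra ℂ M} [Field K] [Algebra R K] [IsFractionRing R K] [Algebra K M]
  {inc : R →ₐ[ℂ] O} {z : α → O} [Fintype ν] [DecidableEq ν]

omit [IsDomain R] in
theorem NpN.mem_of_gen (gen : Algebra.adjoin ℂ (range inc ∪ range z) = ⊤) {V : Subring M}
    (h1 : ∀ r, (inc r : M) ∈ V) (h2 : ∀ a, (z a : M) ∈ V) (g : O) : (g : M) ∈ V := by
  have hg : g ∈ Algebra.adjoin ℂ (range inc ∪ range z) := gen ▸ Algebra.mem_top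
  induction hg using Algebra.adjoin_induction with
  | mem x hx =>
    rcases hx with ⟨r, rfl⟩ | ⟨a, rfl⟩
    exacts [h1 r, h2 a]
  | algebraMap c => rw [← inc.commutes c]; exact h1 _
  | add x y _ _ hx hy => exact add_mem hx hy
  | mul x y _ _ hx hy => exact mul_mem hx hy

omit [Fintype ν] [DecidableEq ν] in
theorem exists_noe [Fintype α] (hinc : ∀ r, (inc r : M) = algebraMap K M (algebraMap R K r))
    (gen : Algebra.adjoin ℂ (range inc ∪ range z) = ⊤)
    (frac : ∀ φ : M, ∃ a b : O, b ≠ 0 ∧ φ * b = a) {x : ν → M}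
    (hx : IsTranscendenceBasis K x) : Nonempty (Noe K inc ν z) := by
  classical
  have : CharZero M := charZero_of_injective_algebraMap (algebraMap ℂ M).injective
  have : CharZero K := (algebraMap K M).charZero
  obtain ⟨n, l, S, h1, h2, h3⟩ := NpN.core (K := K) (O.val.toRingHom : O →+ M) _
    (z ∘ (Fintype.equivFin α).symm)
  rw [EquivLike.range_comp] at h1
  replace h3 : ∀ V : ValuationSubring M, (∀ c ∈ S, algebraMap K M c ∈ V) → ∀ γ, 1 ≤ γ →
      (∀ j, V.valuation (l j : M) ≤ γ) → ∀ a, V.valuation (z a : M) ≤ γ := fun V a γ b c i => by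
    simpa using h3 V a γ b c (Fintype.equivFin α i)
  replace h2 : AlgebraicIndependent K fun j => (l j : M) := h2
  have hb : IsTranscendenceBasis K fun j => (l j : M) := by
    rw [h2.isTranscendenceBasis_iff_isAlgebraic]
    set A := Algebra.adjoin K (range fun j => (l j : M))
    have hO : ∀ g : O, IsAlgebraic A (g : M) := fun g => by
      have : (g : M) ∈ (integralClosure (Subring.closure (A : Set M)) M).toSubring := by
        rw [← iInf_valuationSubring_superset, Subring.mem_iInf]
        rintro ⟨V, hV⟩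
        have hK : ∀ c : K, algebraMap K M c ∈ V := fun c => hV (A.algebraMap_mem c)
        refine NpN.mem_of_gen gen (fun r => hinc r ▸ hK _) (fun a => ?_) g
        refine (V.valuation_le_one_iff _).1 (h3 V (fun c _ => hK c) 1 le_rfl (fun j => ?_) a)
        exact (V.valuation_le_one_iff _).2 (hV (Algebra.subset_adjoin ⟨j, rfl⟩))
      rw [show Subring.closure (A : Set M) = A.toSubring from Subring.closure_eq A.toSubring] at this
      exact IsIntegral.isAlgebraic (R := A) this
    refine ⟨fun φ => ?_⟩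
    obtain ⟨a, b, b0, e⟩ := frac φ
    have b1 : (b : M) ≠ 0 := fun h => b0 (Subtype.ext h)
    rw [show φ = a * (b : M)⁻¹ by rw [← e]; field_simp]
    exact (hO a).mul (hO b).inv
  obtain ⟨e⟩ : Nonempty (ν ≃ Fin n) := Cardinal.eq.1 (hx.cardinalMk_eq hb)
  obtain ⟨b, hS⟩ := IsLocalization.exist_integer_multiples_of_finset (nonZeroDivisors R) S
  have b0 : (b : R) ≠ 0 := nonZeroDivisors.ne_zero b.2
  refine ⟨⟨l ∘ e, b, b0, hinc, gen, frac, fun j => h1 _, hb.comp_equiv e,
    fun V k1 k2 γ hγ hl => h3 V (fun c hc => ?_) γ hγ fun j => by simpa using hl (e.symm j)⟩⟩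
  obtain ⟨r, hr⟩ := hS c hc
  have b1 : algebraMap R K b ≠ 0 := fun h => b0 (IsFractionRing.injective R K (by simpa using h))
  have : algebraMap K M c = inc r * (inc b : M)⁻¹ := by
    rw [hinc, hinc, hr, Algebra.smul_def, ← map_inv₀, ← map_mul]
    congr 1
    field_simp
  rw [this]
  exact mul_mem (k1 r) k2

namespace Noe
variable (N : Noe K inc ν z)

omit [IsDomain R] [IsFractionRing R K] [DecidableEq ν] in
theorem L_le [Fintype α] : ∃ C : ℝ, 0 ≤ C ∧ ∀ p, ‖N.L p‖ ≤ C * ‖fun a => p (z a)‖ := by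
  have h : ∀ g ∈ Submodule.span ℤ (range z), ∃ C : ℝ, 0 ≤ C ∧
      ∀ p : Pt O, ‖p g‖ ≤ C * ‖fun a => p (z a)‖ := fun g hg => by
    induction hg using Submodule.span_induction with
    | mem x hx =>
      obtain ⟨a, rfl⟩ := hx
      exact ⟨1, zero_le_one, fun p => by
        rw [one_mul]; exact norm_le_pi_norm (fun a => p (z a)) a⟩
    | zero => exact ⟨0, le_rfl, fun p => by simp⟩
    | add x y _ _ hx hy =>
      obtain ⟨C, c0, hx⟩ := hx
      obtain ⟨C', c1, hy⟩ := hy
      exact ⟨C + C', add_nonneg c0 c1, fun p => by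
        rw [map_add, add_mul]; exact (norm_add_le _ _).trans (add_le_add (hx p) (hy p))⟩
    | smul n x _ hx =>
      obtain ⟨C, c0, hx⟩ := hx
      exact ⟨‖(n : ℂ)‖ * C, by positivity, fun p => by
        rw [map_zsmul, zsmul_eq_mul, norm_mul, mul_assoc]
        exact mul_le_mul_of_nonneg_left (hx p) (norm_nonneg _)⟩
  choose C c0 hC using fun j => h _ (N.mem j)
  have s0 : 0 ≤ ∑ j, C j := Finset.sum_nonneg fun j _ => c0 j
  refine ⟨_, s0, fun p => (pi_norm_le_iff_of_nonneg (by positivity)).2 fun j => (hC j p).trans ?_⟩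
  exact mul_le_mul_of_nonneg_right (Finset.single_le_sum (fun j _ => c0 j) (Finset.mem_univ j))
    (norm_nonneg _)

omit [IsDomain R] [IsFractionRing R K] [Fintype ν] [DecidableEq ν] in
theorem ev_em (p : Pt O) (q : MvPolynomial ν R) : p (N.em q) = evP (p.res inc) (N.L p) q := by
  induction q using MvPolynomial.induction_on with
  | C r => simp only [em, evP, MvPolynomial.eval₂Hom_C]; rfl
  | add a b ha hb => rw [map_add, map_add, map_add, ha, hb]
  | mul_X a j ha =>
    rw [map_mul, map_mul, map_mul, ha]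
    simp only [em, evP, MvPolynomial.eval₂Hom_X']
    rfl

section inf
variable {N} {V : ValuationSubring M}
omit [IsDomain R] [IsFractionRing R K] [Fintype ν] [DecidableEq ν]

theorem Inf.val_base (h : N.Inf V) {c : K} (hc : c ≠ 0) : V.valuation (algebraMap K M c) = 1 := by
  obtain ⟨γ, -, h⟩ := h
  simpa using h (MvPolynomial.C c) (by simpa using hc)

theorem Inf.base_le (h : N.Inf V) (c : K) : V.valuation (algebraMap K M c) ≤ 1 := by
  by_cases hc : c = 0
  · simp [hc]
  · exact (h.val_base hc).le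

theorem Inf.base_mem (h : N.Inf V) (c : K) : algebraMap K M c ∈ V :=
  (V.valuation_le_one_iff _).1 (h.base_le c)

theorem Inf.val_l (h : N.Inf V) : ∃ γ, 1 < γ ∧ ∀ j, V.valuation (N.l j : M) = γ := by
  obtain ⟨γ, h1, h⟩ := h
  exact ⟨γ, h1, fun j => by simpa using h (MvPolynomial.X j) (MvPolynomial.X_ne_zero j)⟩

theorem Inf.one_lt (h : N.Inf V) (j : ν) : 1 < V.valuation (N.l j : M) := by
  obtain ⟨γ, h1, h⟩ := h.val_l
  rwa [h]

end inf

omit [IsDomain R] [IsFractionRing R K] [Fintype ν] [DecidableEq ν]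

theorem deg_z (a : α) : N.Deg (z a) 1 := fun V h j => by
  obtain ⟨γ, h1, h2⟩ := h.val_l
  rw [pow_one, h2]
  refine N.dom V (fun r => N.inc_eq r ▸ h.base_mem _) ?_ γ h1.le (fun j => (h2 j).le) a
  rw [N.inc_eq, ← map_inv₀]
  exact h.base_mem _

theorem deg_base (r : K) : N.Deg (algebraMap K M r) 0 := fun V h j => by
  rw [pow_zero]; exact h.base_le r

theorem Deg.mul {N : Noe K inc ν z} {g g' : M} {k k' : ℕ} (h : N.Deg g k) (h' : N.Deg g' k') :
    N.Deg (g * g') (k + k') := fun V hV j => by
  rw [map_mul, pow_add]; exact mul_le_mul' (h V hV j) (h' V hV j)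

theorem Deg.add {N : Noe K inc ν z} {g g' : M} {k : ℕ} (h : N.Deg g k) (h' : N.Deg g' k) :
    N.Deg (g + g') k := fun V hV j =>
  (V.valuation.map_add _ _).trans (max_le (h V hV j) (h' V hV j))

theorem Deg.mono {N : Noe K inc ν z} {g : M} {k k' : ℕ} (h : N.Deg g k) (hk : k ≤ k') :
    N.Deg g k' := fun V hV j => (h V hV j).trans (pow_le_pow_right₀ (hV.one_lt j).le hk)

theorem Deg.pow {N : Noe K inc ν z} {g : M} {k : ℕ} (h : N.Deg g k) (n : ℕ) :
    N.Deg (g ^ n) (k * n) := fun V hV j => by
  rw [map_pow, pow_mul]; exact pow_le_pow_left₀ zero_le (h V hV j) n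

theorem deg_l (i : ν) : N.Deg (N.l i) 1 := fun V h j => by
  obtain ⟨γ, -, h2⟩ := h.val_l
  rw [pow_one, h2, h2]

theorem exists_deg (g : O) : ∃ k, N.Deg g k := by
  have hg : g ∈ Algebra.adjoin ℂ (range inc ∪ range z) := N.gen ▸ Algebra.mem_top
  have hb : ∀ r, N.Deg (inc r : M) 0 := fun r => N.inc_eq r ▸ N.deg_base _
  induction hg using Algebra.adjoin_induction with
  | mem x hx =>
    rcases hx with ⟨r, rfl⟩ | ⟨a, rfl⟩
    exacts [⟨0, hb r⟩, ⟨1, N.deg_z a⟩]
  | algebraMap c => exact ⟨0, inc.commutes c ▸ hb _⟩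
  | add x y _ _ hx hy =>
    obtain ⟨k, hx⟩ := hx
    obtain ⟨k', hy⟩ := hy
    exact ⟨k + k', (hx.mono (Nat.le_add_right _ _)).add (hy.mono (Nat.le_add_left _ _))⟩
  | mul x y _ _ hx hy =>
    obtain ⟨k, hx⟩ := hx
    obtain ⟨k', hy⟩ := hy
    exact ⟨k + k', hx.mul hy⟩

end Noe

end
end Pool.Agent.Lib.MP_5c318e_ag
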