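import Pool.Agent.Lib.MP_5c318e_ag.Np.NDefs

/-! Growth and degree of polynomials, bounds for roots. -/

set_option autoImplicit false

namespace Pool.Agent.Lib.MP_5c318e_ag.PolB

open Set Filter Topology Metric MvPolynomial

theorem root_le {Q : Polynomial ℂ} (hQ : Q.Monic) {A ρ : ℝ} (hA : 0 ≤ A) (hρ : 0 ≤ ρ)
    (h : ∀ i < Q.natDegree, ‖Q.coeff i‖ ≤ A * ρ ^ (Q.natDegree - i)) {s : ℂ} (hs : Q.eval s = 0) :
    ‖s‖ ≤ (1 + Q.natDegree * A) * ρ := by
  by_contra! hlt
  have h0 : 0 ≤ Q.natDegree * A * ρ := by positivity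
  have h1 : ρ < ‖s‖ := by linarith
  have h2 : 0 < ‖s‖ := hρ.trans_lt h1
  rw [Polynomial.eval_eq_sum_range, Finset.sum_range_succ, hQ.coeff_natDegree, one_mul,
    add_eq_zero_iff_neg_eq] at hs
  have h3 : ‖s‖ ^ Q.natDegree * ‖s‖ ≤ Q.natDegree * (A * ρ * ‖s‖ ^ Q.natDegree) := by
    nth_rw 1 [← norm_pow, ← hs]
    rw [norm_neg]
    refine (mul_le_mul_of_nonneg_right (norm_sum_le _ _) h2.le).trans ?_
    rw [Finset.sum_mul]
    refine (Finset.sum_le_card_nsmul _ _ (A * ρ * ‖s‖ ^ Q.natDegree) fun i hi => ?_).trans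
      (by simp)
    obtain ⟨j, hj⟩ := Nat.exists_eq_add_of_lt (Finset.mem_range.1 hi)
    have := h i (Finset.mem_range.1 hi)
    rw [show Q.natDegree - i = j + 1 by omega] at this
    rw [norm_mul, norm_pow, hj]
    calc ‖Q.coeff i‖ * ‖s‖ ^ i * ‖s‖ ≤ A * (‖s‖ ^ j * ρ) * ‖s‖ ^ i * ‖s‖ := by
          gcongr
          exact this.trans (by rw [pow_succ]; gcongr)
      _ = _ := by ring
  have h4 := pow_pos h2 Q.natDegree
  nlinarith

variable {ν : Type} [Fintype ν]

/-- the polynomial on a line, seen from infinity -/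
noncomputable def rev (P : MvPolynomial ν ℂ) (D : ℕ) (a : ν → ℂ) (u : ℂ) : ℂ :=
  ∑ d ∈ P.support, (coeff d P * ∏ i, a i ^ d i) * u ^ (D - d.degree)

theorem rev_diff (P : MvPolynomial ν ℂ) (D : ℕ) (a : ν → ℂ) : Differentiable ℂ (rev P D a) := by
  unfold rev
  fun_prop

omit [Fintype ν] in
theorem deg_le {R : Type} [CommSemiring R] {P : MvPolynomial ν R} {d : ν →₀ ℕ}
    (hd : d ∈ P.support) : d.degree ≤ P.totalDegree := le_totalDegree hd

theorem rev_eq {P : MvPolynomial ν ℂ} {D : ℕ} (hP : P.totalDegree ≤ D) (a : ν → ℂ) {t : ℂ}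
    (ht : t ≠ 0) : eval (t • a) P = t ^ D * rev P D a t⁻¹ := by
  rw [eval_eq', rev, Finset.mul_sum]
  refine Finset.sum_congr rfl fun d hd => ?_
  obtain ⟨j, hj⟩ := Nat.exists_eq_add_of_le ((deg_le hd).trans hP)
  simp only [Pi.smul_apply, smul_eq_mul, mul_pow, Finset.prod_mul_distrib,
    Finset.prod_pow_eq_pow_sum, ← Finsupp.degree_eq_sum]
  rw [hj, add_tsub_cancel_left, pow_add, inv_pow]
  field_simp

theorem rev_zero (P : MvPolynomial ν ℂ) (a : ν → ℂ) :
    rev P P.totalDegree a 0 = eval a (homogeneousComponent P.totalDegree P) := by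
  rw [homogeneousComponent_apply, map_sum, Finset.sum_filter, rev]
  refine Finset.sum_congr rfl fun d hd => ?_
  split_ifs with h
  · simp [h, eval_monomial, Finsupp.prod_fintype]
  · rw [zero_pow (by have := deg_le hd; omega), mul_zero]

/-- growth bounds the degree -/
theorem deg_of_grow {P : MvPolynomial ν ℂ} {C x : ℝ} {m : ℕ} (hx0 : 0 ≤ x) (hx : x < m + 1)
    (h : ∀ a, ‖eval a P‖ ≤ C * (1 + ‖a‖) ^ x) : P.totalDegree ≤ m := by
  by_contra! hlt
  have hD : x - P.totalDegree < 0 := by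
    have : (m + 1 : ℝ) ≤ P.totalDegree := by exact_mod_cast hlt
    linarith
  have hC : 0 ≤ C := by simpa using (norm_nonneg _).trans (h 0)
  have h0 : homogeneousComponent P.totalDegree P = 0 := MvPolynomial.funext fun a => by
    rw [← rev_zero, map_zero]
    have t1 : Tendsto (fun t : ℝ => rev P P.totalDegree a (t : ℂ)⁻¹) atTop
        (𝓝 (rev P P.totalDegree a 0)) := ((rev_diff _ _ _).continuous.tendsto 0).comp (by
      simpa [Function.comp_def] using (Complex.continuous_ofReal.tendsto 0).comp tendsto_inv_atTop_zero)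
    refine tendsto_nhds_unique t1 (squeeze_zero_norm' (a := fun t : ℝ =>
      C * (1 + ‖a‖) ^ x * t ^ (-(P.totalDegree - x))) ?_ (by
        simpa using (tendsto_rpow_neg_atTop (y := P.totalDegree - x) (by linarith)).const_mul
          (C * (1 + ‖a‖) ^ x)))
    filter_upwards [eventually_ge_atTop 1] with t ht
    have t0 : 0 < t := one_pos.trans_le ht
    have h1 := h ((t : ℂ) • a)
    rw [rev_eq le_rfl a (by exact_mod_cast t0.ne'), norm_mul, norm_pow, norm_smul,
      Complex.norm_real, Real.norm_of_nonneg t0.le, ← le_div_iff₀' (pow_pos t0 _)] at h1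
    refine h1.trans ?_
    rw [neg_sub, Real.rpow_sub t0, Real.rpow_natCast, ← mul_div_assoc, mul_assoc,
      ← Real.mul_rpow (by positivity) t0.le]
    gcongr
    nlinarith [norm_nonneg a]
  have hP : P.support.Nonempty := support_nonempty.2 (by rintro rfl; simp at hlt)
  obtain ⟨d, hd, e⟩ := Finset.exists_mem_eq_sup _ hP fun s : ν →₀ ℕ => s.sum fun _ e => e
  have := congrArg (coeff d) h0
  have e' : d.degree = P.totalDegree := e.symm
  rw [coeff_homogeneousComponent, if_pos e'] at this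
  exact mem_support_iff.1 hd this

/-- the inequality of Bernstein and Walsh -/
theorem bw {P : MvPolynomial ν ℂ} {D : ℕ} (hP : P.totalDegree ≤ D) {M : ℝ}
    (h : ∀ a, ‖a‖ ≤ 1 → ‖eval a P‖ ≤ M) (a : ν → ℂ) : ‖eval a P‖ ≤ M * max 1 ‖a‖ ^ D := by
  rcases le_or_gt ‖a‖ 1 with ha | ha
  · simpa [ha] using h a ha
  have a0 : 0 < ‖a‖ := one_pos.trans ha
  have c0 : (‖a‖ : ℂ) ≠ 0 := by exact_mod_cast a0.ne'
  have e : a = (‖a‖ : ℂ) • ((‖a‖ : ℂ)⁻¹ • a) := by rw [smul_inv_smul₀ c0]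
  have n1 : ‖(‖a‖ : ℂ)⁻¹ • a‖ = 1 := by simp [norm_smul, a0.ne']
  rw [max_eq_right ha.le]
  nth_rw 1 [e]
  rw [rev_eq hP _ c0, norm_mul, norm_pow, Complex.norm_real, norm_norm, mul_comm]
  refine mul_le_mul_of_nonneg_right (Complex.norm_le_of_forall_mem_frontier_norm_le
    (isBounded_ball (x := (0 : ℂ)) (r := 1)) (rev_diff _ _ _).diffContOnCl (fun u hu => ?_)
    (subset_closure (by simpa using inv_lt_one_of_one_lt₀ ha))) (by positivity)
  rw [frontier_ball _ one_ne_zero, mem_sphere_zero_iff_norm] at hu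
  have u0 : u ≠ 0 := by rintro rfl; simp at hu
  have := h (u⁻¹ • (‖a‖ : ℂ)⁻¹ • a) (by rw [norm_smul, n1]; simp [hu])
  rwa [rev_eq hP _ (inv_ne_zero u0), norm_mul, norm_pow, norm_inv, hu, inv_one, one_pow, one_mul,
    inv_inv] at this

variable {R : Type} [CommRing R] [Algebra ℂ R]

omit [Fintype ν] in
theorem evP_eq (b : Pt R) (a : ν → ℂ) (q : MvPolynomial ν R) :
    evP b a q = eval a (map (b.hom : R →+* ℂ) q) := eval₂_eq_eval_map _ _ _

/-- a uniform bound over compact sets of base points -/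
theorem evP_le (q : MvPolynomial ν R) {Q : Set (Pt R)} (hQ : IsCompact Q) :
    ∃ A : ℝ, 0 ≤ A ∧ ∀ b ∈ Q, ∀ a, ‖evP b a q‖ ≤ A * (1 + ‖a‖) ^ q.totalDegree := by
  obtain ⟨A, hA⟩ := hQ.exists_bound_of_continuousOn (f := fun b => ∑ d ∈ q.support, ‖b (coeff d q)‖)
    (continuous_finsetSum _ fun d _ => (Pt.continuous_apply _).norm).continuousOn
  refine ⟨max A 0, le_max_right _ _, fun b hb a => ?_⟩
  refine le_trans ?_ (mul_le_mul_of_nonneg_right
    ((le_abs_self _).trans ((hA b hb).trans (le_max_left _ _))) (by positivity))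
  rw [evP, coe_eval₂Hom, eval₂_eq', Finset.sum_mul]
  refine norm_sum_le_of_le _ fun d hd => ?_
  rw [norm_mul, norm_prod]
  refine mul_le_mul_of_nonneg_left ?_ (norm_nonneg _)
  have h1 : (1 : ℝ) ≤ 1 + ‖a‖ := le_add_of_nonneg_right (norm_nonneg _)
  calc ∏ i, ‖a i ^ d i‖ ≤ ∏ i, (1 + ‖a‖) ^ d i := Finset.prod_le_prod (fun _ _ => norm_nonneg _)
        fun i _ => by
          rw [norm_pow]
          exact pow_le_pow_left₀ (norm_nonneg _) (by linarith [norm_le_pi_norm a i]) _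
    _ ≤ _ := by
      rw [Finset.prod_pow_eq_pow_sum, ← Finsupp.degree_eq_sum]
      exact pow_le_pow_right₀ h1 (deg_le hd)

end Pool.Agent.Lib.MP_5c318e_ag.PolB
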