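import Pool.Agent.Lib.MP_5c318e_ag.Np.Min
import Pool.Agent.Lib.MP_5c318e_ag.Np.Noe
import Pool.Agent.Lib.MP_5c318e_ag.Np.PolB

/-! Valuative and pointwise bounds on the fibres of a finite projection. -/

set_option autoImplicit false
set_option linter.unusedSectionVars false

namespace Pool.Agent.Lib.MP_5c318e_ag

open Set MeasureTheory Filter Topology Polynomial

variable {R M α K ν : Type} [CommRing R] [IsDomain R] [Algebra ℂ R] [Field M] [Algebra ℂ M]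
  {O : Subalgebra ℂ M} [Field K] [Algebra R K] [IsFractionRing R K] [Algebra K M]
  {inc : R →ₐ[ℂ] O} {z : α → O} [Fintype ν] [DecidableEq ν]

namespace PolB

variable {A : Type} [CommRing A] {Q : A[X]} (f : A →+* ℂ)

theorem root_le' (hQ : Q.Monic) {C ρ : ℝ} (hC : 0 ≤ C) (hρ : 0 ≤ ρ)
    (h : ∀ i < Q.natDegree, ‖f (Q.coeff i)‖ ≤ C * ρ ^ (Q.natDegree - i)) {s : ℂ}
    (hs : Q.eval₂ f s = 0) : ‖s‖ ≤ (1 + Q.natDegree * C) * ρ := by
  have := root_le (hQ.map f) hC hρ (s := s)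
    (by simpa only [hQ.natDegree_map, coeff_map] using h) (by rwa [eval_map])
  rwa [hQ.natDegree_map] at this

theorem coeff_le (hQ : Q.Monic) {B : ℝ} (hB : 0 ≤ B) (h : ∀ s, Q.eval₂ f s = 0 → ‖s‖ ≤ B) (i : ℕ) :
    ‖f (Q.coeff i)‖ ≤ 2 ^ Q.natDegree * B ^ (Q.natDegree - i) := by
  have := coeff_le_of_roots_le (f := RingHom.id ℂ) (B := B) i (hQ.map f) (IsAlgClosed.splits _)
    fun s hs => h s (by
      rw [Polynomial.map_id] at hs
      exact (eval_map _ _).symm.trans (isRoot_of_mem_roots hs))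
  rw [Polynomial.map_id, coeff_map, hQ.natDegree_map, mul_comm] at this
  refine this.trans (mul_le_mul_of_nonneg_right ?_ (pow_nonneg hB _))
  exact_mod_cast Nat.choose_le_two_pow _ _

end PolB

namespace Noe

variable (N : Noe K inc ν z) [IsIntegrallyClosed R] [Algebra.FiniteType ℂ O]

theorem surj (b : Pt R) (hb : b N.h ≠ 0) (a : ν → ℂ) :
    ∃ p : Pt O, p.res inc = b ∧ N.L p = a := by
  obtain ⟨d, h⟩ := N.exists_min
  obtain ⟨e, Q, hQ, h0, -, h, -⟩ := h 0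
  obtain ⟨s, hs⟩ := IsAlgClosed.exists_root (Q.map (evP b a)) (by
    rw [hQ.degree_map]; exact (natDegree_pos_iff_degree_pos.1 h0).ne')
  obtain ⟨p, h1, h2, -⟩ := (h b a s hb).1 ((eval_map _ _).symm.trans hs)
  exact ⟨p, h1, h2⟩

/-- valuative bounds are pointwise bounds -/
theorem Deg.grow {N : Noe K inc ν z} {g : O} {k : ℕ} (h : N.Deg g k) {Q : Set (Pt R)}
    (hQ : IsCompact Q) (h0 : ∀ b ∈ Q, b N.h ≠ 0) :
    ∃ A : ℝ, 0 ≤ A ∧ ∀ p : Pt O, p.res inc ∈ Q → ‖p g‖ ≤ A * (1 + ‖N.L p‖) ^ k := by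
  obtain ⟨d, H⟩ := N.exists_min
  obtain ⟨e, P, hP, -, -, H, hk⟩ := H g
  choose A A0 hA using fun i => PolB.evP_le (P.coeff i) hQ
  obtain ⟨B, hB⟩ := hQ.exists_bound_of_continuousOn (f := fun b => (b N.h ^ e)⁻¹)
    (((Pt.continuous_apply _).pow e).continuousOn.inv₀ fun b hb => pow_ne_zero _ (h0 b hb))
  have S0 : 0 ≤ ∑ i ∈ Finset.range P.natDegree, A i := Finset.sum_nonneg fun i _ => A0 i
  refine ⟨max B 0 * (1 + P.natDegree * ∑ i ∈ Finset.range P.natDegree, A i), by positivity,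
    fun p hp => ?_⟩
  have h1 : (1 : ℝ) ≤ 1 + ‖N.L p‖ := le_add_of_nonneg_right (norm_nonneg _)
  have := PolB.root_le' (evP (p.res inc) (N.L p)) hP S0 (pow_nonneg (zero_le_one.trans h1) k)
    (fun i hi => (hA i _ hp _).trans (by
      rw [← pow_mul, mul_comm k]
      exact mul_le_mul (Finset.single_le_sum (fun i _ => A0 i) (Finset.mem_range.2 hi))
        (pow_le_pow_right₀ h1 ((hk k).1 h i)) (by positivity) S0))
    ((H _ _ _ (h0 _ hp)).2 ⟨p, rfl, rfl, rfl⟩)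
  rw [← inv_mul_cancel_left₀ (pow_ne_zero e (h0 _ hp)) (p g), norm_mul, mul_assoc]
  exact mul_le_mul ((hB _ hp).trans (le_max_left _ _)) this (norm_nonneg _) (le_max_right _ _)

theorem deg_fib {g : O} {k e : ℕ} {P : (MvPolynomial ν R)[X]} (hP : P.Monic) {b : Pt R}
    (H : ∀ a s, P.eval₂ (evP b a) s = 0 → ∃ p : Pt O, p.res inc = b ∧ N.L p = a ∧
      b N.h ^ e * p g = s)
    (hg : ∀ ε : ℝ, 0 < ε → ∃ A : ℝ, ∀ p : Pt O, p.res inc = b →
      ‖p g‖ ≤ A * (1 + ‖N.L p‖) ^ (k + ε : ℝ)) (i : ℕ) :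
    (MvPolynomial.map (b.hom : R →+* ℂ) (P.coeff i)).totalDegree ≤ (P.natDegree - i) * k := by
  set n := P.natDegree - i with hn
  have n0 : (0 : ℝ) < n + 1 := by positivity
  obtain ⟨A, hA⟩ := hg (1 / (n + 1)) (by positivity)
  refine PolB.deg_of_grow (C := 2 ^ P.natDegree * (‖b N.h ^ e‖ * max A 0) ^ n)
    (x := (k + 1 / (n + 1)) * n) (by positivity) ?_ fun a => ?_
  · push_cast
    have : 1 / (n + 1 : ℝ) * n < 1 := by
      rw [one_div, inv_mul_lt_iff₀ n0]; linarith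
    linarith
  · rw [← PolB.evP_eq, Real.rpow_mul_natCast (by positivity), mul_assoc, ← mul_pow]
    refine PolB.coeff_le _ hP (by positivity) (fun s hs => ?_) i
    obtain ⟨p, h1, rfl, rfl⟩ := H a s hs
    rw [norm_mul, mul_assoc]
    exact mul_le_mul_of_nonneg_left ((hA p h1).trans
      (mul_le_mul_of_nonneg_right (le_max_left _ _) (by positivity))) (norm_nonneg _)

/-- pointwise bounds over a Zariski dense set of base points are valuative bounds -/
theorem deg_of_grow {g : O} {k : ℕ} {U : Set (Pt R)} (hU : ∀ r : R, (∀ b ∈ U, b r = 0) → r = 0)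
    (H : ∀ b ∈ U, ∀ ε : ℝ, 0 < ε → ∃ A : ℝ, ∀ p : Pt O, p.res inc = b →
      ‖p g‖ ≤ A * (1 + ‖N.L p‖) ^ (k + ε : ℝ)) : N.Deg g k := by
  obtain ⟨d, h⟩ := N.exists_min
  obtain ⟨e, P, hP, -, -, h, hk⟩ := h g
  refine (hk k).2 fun i => Finset.sup_le fun m hm => ?_
  by_contra! hlt
  refine mul_ne_zero N.ne (MvPolynomial.mem_support_iff.1 hm) (hU _ fun b hb => ?_)
  rw [map_mul, mul_eq_zero, or_iff_not_imp_left]
  intro h0
  have := MvPolynomial.coeff_eq_zero_of_totalDegree_lt (d := m)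
    ((N.deg_fib hP (fun a s => (h b a s h0).1) (H b hb) i).trans_lt hlt)
  rwa [MvPolynomial.coeff_map] at this

theorem proper {Q : Set (Pt R)} (hQ : IsCompact Q) (h0 : ∀ b ∈ Q, b N.h ≠ 0) (ρ : ℝ) :
    IsCompact {p : Pt O | p.res inc ∈ Q ∧ ‖N.L p‖ ≤ ρ} := by
  choose k hk using N.exists_deg
  choose A A0 hA using fun g => (hk g).grow hQ h0
  refine (Pt.isClosedEmbedding.isCompact_preimage (isCompact_univ_pi fun g =>
    isCompact_closedBall (0 : ℂ) (A g * (1 + ρ) ^ k g))).of_isClosed_subset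
    ((hQ.isClosed.preimage (Pt.continuous_res inc)).inter (isClosed_le
      (continuous_pi fun j => Pt.continuous_apply (N.l j)).norm continuous_const))
    fun p hp g _ => mem_closedBall_zero_iff.2 ((hA g p hp.1).trans ?_)
  have := hp.2
  have := A0 g
  gcongr

/-- (U): the constant does not depend on `g`, `k`, `b` -/
theorem bw : ∃ C : ℝ, 1 ≤ C ∧ ∀ (g : O) (k : ℕ) (b : Pt R), b N.h ≠ 0 →
    (∃ A : ℝ, ∀ p : Pt O, p.res inc = b → ‖p g‖ ≤ A * (1 + ‖N.L p‖) ^ k) →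
    ∀ Λ : ℝ, (∀ p : Pt O, p.res inc = b → ‖N.L p‖ ≤ 1 → ‖p g‖ ≤ Λ) →
    ∀ p : Pt O, p.res inc = b → ‖p g‖ ≤ C * Λ * max 1 ‖N.L p‖ ^ k := by
  obtain ⟨d, h⟩ := N.exists_min
  refine ⟨1 + d * 2 ^ d, le_add_of_nonneg_right (by positivity),
    fun g k b hb ⟨A, hA⟩ Λ hΛ p hp => ?_⟩
  obtain ⟨e, P, hP, -, hd, h, -⟩ := h g
  have Λ0 : 0 ≤ Λ := by
    obtain ⟨q, h1, h2⟩ := N.surj b hb 0
    exact (norm_nonneg _).trans (hΛ q h1 (by simp [h2]))
  have dg := N.deg_fib (k := k) hP (fun a s => (h b a s hb).1) fun ε hε => ⟨max A 0, fun q hq =>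
    (hA q hq).trans (mul_le_mul (le_max_left _ _) (by
      rw [← Real.rpow_natCast]
      exact Real.rpow_le_rpow_of_exponent_le (le_add_of_nonneg_right (norm_nonneg _))
        (by linarith)) (by positivity) (le_max_right _ _))⟩
  have := PolB.root_le' (evP b (N.L p)) hP (C := 2 ^ P.natDegree)
    (ρ := ‖b N.h ^ e‖ * (Λ * max 1 ‖N.L p‖ ^ k)) (by positivity) (by positivity) (fun i _ => by
      rw [PolB.evP_eq, ← mul_assoc ‖_‖, mul_pow, ← pow_mul, mul_comm k, ← mul_assoc]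
      refine PolB.bw (dg i) (fun a ha => ?_) _
      rw [← PolB.evP_eq]
      refine PolB.coeff_le _ hP (by positivity) (fun s hs => ?_) i
      obtain ⟨q, h1, rfl, rfl⟩ := (h b a s hb).1 hs
      rw [norm_mul]
      exact mul_le_mul_of_nonneg_left (hΛ q h1 ha) (norm_nonneg _))
    ((h _ _ _ hb).2 ⟨p, hp, rfl, rfl⟩)
  rw [norm_mul, mul_left_comm] at this
  refine (le_of_mul_le_mul_left this (norm_pos_iff.2 (pow_ne_zero e hb))).trans ?_
  rw [mul_assoc]
  gcongr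
  exact one_le_two

end Noe

end Pool.Agent.Lib.MP_5c318e_ag
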