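import Pool.Agent.Lib.MP_5c318e_ag.Np.FiveB
import Pool.Agent.Lib.MP_5c318e_ag.Np.MinB
import Pool.Agent.Lib.MP_5c318e_ag.A.Ram
import Pool.Agent.Lib.MP_5c318e_ag.S.APlu

/-! The tower density dominates the logarithmic volume at every prime at infinity. -/

set_option autoImplicit false
set_option linter.unusedSectionVars false

namespace Pool.Agent.Lib.MP_5c318e_ag

open MeasureTheory Metric Set Filter Topology

noncomputable section

section alg

variable {k F ι : Type} [Field k] [Field F] [Algebra k F] [Fintype ι] [DecidableEq ι]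

/-- the Jacobian in projective coordinates -/
theorem jac_ratio (D : ι → Derivation k F F) {l : ι → F} {j0 : ι} (h0 : l j0 ≠ 0) :
    Jac D l * l j0 =
      l j0 ^ Fintype.card ι * Jac D (Function.update (fun j => l j / l j0) j0 (l j0)) := by
  have h1 := Matrix.det_mul_column (Function.update (fun _ => l j0) j0 1)
    (Matrix.of fun a b => D b (Function.update (fun j => l j / l j0) j0 (l j0) a))
  have h2 : (∏ i, Function.update (fun _ => l j0) j0 1 i) * l j0 = l j0 ^ Fintype.card ι := by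
    rw [Finset.prod_update_of_mem (Finset.mem_univ _), one_mul, ← Finset.card_univ,
      ← Finset.prod_const, Finset.sdiff_singleton_eq_erase]
    exact Finset.prod_erase_mul _ (fun _ => l j0) (Finset.mem_univ _)
  rw [← h2, mul_right_comm, Jac, Jac, ← h1]
  congr 1
  refine Matrix.det_eq_of_forall_row_eq_smul_add_const
    (Function.update (fun j => l j / l j0) j0 0) j0 (by simp) fun i j => ?_
  by_cases hi : i = j0
  · simp [hi]
  · simp only [Matrix.of_apply, Function.update_of_ne hi, Function.update_self, one_mul]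
    conv_lhs => rw [← div_mul_cancel₀ (l i) h0, Derivation.leibniz, smul_eq_mul, smul_eq_mul]
    ring

end alg

namespace Noe

variable {R M α K ν : Type} [CommRing R] [IsDomain R] [Algebra ℂ R] [Field M] [Algebra ℂ M]
  {O : Subalgebra ℂ M} [Field K] [Algebra R K] [IsFractionRing R K] [Algebra K M]
  {inc : R →ₐ[ℂ] O} {z : α → O} [Fintype ν] [DecidableEq ν] {N : Noe K inc ν z} {j0 : ν}

/-- `d l / l ^ n` generates the logarithmic top forms at every prime at infinity -/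
theorem Uni.val_jac [CharZero K] (U : N.Uni j0) (V : N.DD) (D : ν → Derivation K M M) :
    V.1.valuation (Jac D fun j => (N.l j : M)) * V.1.valuation (U.π V) =
      V.1.valuation (N.l j0 : M) ^ Fintype.card ν *
        V.1.valuation (Jac D (Function.update (fun j => (N.l j : M) / N.l j0) j0 (U.π V))) := by
  have h1 := (U.adp V).ram D (N.l_ne j0) (V.2.one_lt j0).ne'
  have h2 := congrArg V.1.valuation (jac_ratio D (l := fun j => (N.l j : M)) (N.l_ne j0))
  rw [Function.update_idem, Function.update_self] at h1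
  rw [map_mul, map_mul, map_pow] at h2
  refine mul_right_cancel₀ (zero_lt_one.trans (V.2.one_lt j0)).ne' ?_
  rw [mul_right_comm, h2, mul_assoc, h1, mul_assoc, mul_comm (V.1.valuation (N.l j0 : M))]

theorem Uni.val_le_iff (U : N.Uni j0) (V : N.DD) {a b : ℤ} :
    V.1.valuation (U.π V) ^ a ≤ V.1.valuation (U.π V) ^ b ↔ b ≤ a :=
  zpow_le_zpow_iff_right_of_lt_one₀ (by simpa using (U.adp V).val_pos)
    (by simpa using (U.adp V).lt)

theorem Uni.od_jac [CharZero K] (U : N.Uni j0) (V : N.DD) (D : ν → Derivation K M M)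
    (h0 : (Jac D fun j => (N.l j : M)) ≠ 0) :
    Jac D (Function.update (fun j => (N.l j : M) / N.l j0) j0 (U.π V)) ≠ 0 ∧
    U.od V (Jac D fun j => (N.l j : M)) + 1 + Fintype.card ν * U.e V =
      U.od V (Jac D (Function.update (fun j => (N.l j : M) / N.l j0) j0 (U.π V))) := by
  have h1 := U.val_jac V D
  have p0 : V.1.valuation (U.π V) ≠ 0 := by simpa using (U.adp V).val_pos.ne'
  have h2 : Jac D (Function.update (fun j => (N.l j : M) / N.l j0) j0 (U.π V)) ≠ 0 := fun e => by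
    rw [e, map_zero, mul_zero] at h1
    exact mul_ne_zero ((Valuation.ne_zero_iff _).2 h0) p0 h1
  refine ⟨h2, ?_⟩
  rw [U.val V _ h0, U.val V _ h2, U.val V _ (N.l_ne j0), U.od_l, ← zpow_add_one₀ p0,
    ← zpow_natCast, ← zpow_mul, ← zpow_add₀ p0] at h1
  have h3 := (U.val_le_iff V).1 h1.le
  have h4 := (U.val_le_iff V).1 h1.ge
  linarith

/-- some generator dominates the linear forms -/
theorem Inf.exists_z [Fintype α] {V : ValuationSubring M} (h : N.Inf V) (j : ν) :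
    ∃ a, V.valuation (N.l j : M) ≤ V.valuation (z a : M) := by
  by_contra hn
  push Not at hn
  have h0 := zero_lt_one.trans (h.one_lt j)
  refine lt_irrefl _ (Submodule.span_induction
    (p := fun (g : O) _ => V.valuation (g : M) < V.valuation (N.l j : M)) ?_ ?_ ?_ ?_ (N.mem j))
  · rintro _ ⟨a, rfl⟩; exact hn a
  · simpa using h0
  · exact fun x y _ _ hx hy => V.valuation.map_add_lt hx hy
  · intro c x _ hx
    rw [zsmul_eq_mul, MulMemClass.coe_mul, map_mul]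
    refine lt_of_le_of_lt (mul_le_of_le_one_left' ?_) hx
    rw [V.valuation_le_one_iff]
    simp

end Noe

variable {δ ν K M : Type} [Fintype δ] [DecidableEq δ] [Fintype ν] [DecidableEq ν]
  [Field K] [Algebra ℂ K] [Field M] [Algebra ℂ M] [Algebra K M] {B : Cht δ K}
  [IsFractionRing B.O K] [IsIntegrallyClosed B.O]
  {Δ : MvPolynomial ν B.O} {Λ : Pt B.O → (ν → ℂ) → ℝ} {K0 : ℝ} {M0 : ℕ}

/-- over compact sets the size is logarithmic in the projection -/
theorem Noe.size_le {T : Rel B ν M} {α : Type} {z : α → T.X.O} (N : Noe K T.inc ν z)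
    (hu : IsUnit (Xt.up T Δ)) {Q : Set (Pt B.O)} (hQ : IsCompact Q) (h0 : ∀ b ∈ Q, b N.h ≠ 0) :
    ∃ A : ℝ, 0 ≤ A ∧ ∀ p : Pt T.X.O, p.res T.inc ∈ Q →
      T.X.siz p ≤ A * Real.log (1 + ‖N.L p‖) + A ∧
        Xt.L T Δ p ≤ A * Real.log (1 + ‖N.L p‖) + A := by
  obtain ⟨A, A0, hA⟩ := Xt.L_le hu
  have l0 : ∀ p : {p : Pt T.X.O // p.res T.inc ∈ Q}, 0 ≤ Real.log (1 + ‖N.L p.1‖) := fun p =>
    Real.log_nonneg (le_add_of_nonneg_right (norm_nonneg _))
  have hm : ∀ g : T.X.O, Md (fun p : {p : Pt T.X.O // p.res T.inc ∈ Q} =>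
      Real.log (1 + ‖N.L p.1‖)) fun p => ‖p.1 g‖ := fun g => by
    obtain ⟨k, hk⟩ := N.exists_deg g
    obtain ⟨C, -, hC⟩ := hk.grow hQ h0
    refine ((Md.const l0 C).mul (Md.exp.pow l0 (fun _ => (Real.exp_pos _).le) k)
      fun _ => by positivity).mono fun p => ?_
    rw [Real.exp_log (by positivity)]
    exact hC p.1 p.2
  obtain ⟨C, C0, hC⟩ := (Md.add l0 (Md.sum l0 T.X.gens fun a _ =>
    (hm a).pow l0 (fun _ => norm_nonneg _) 2) (Md.const l0 1)).log_le fun x => by positivity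
  refine ⟨A * C + A + C, by positivity, fun p hp => ?_⟩
  have h1 : T.X.siz p ≤ C * Real.log (1 + ‖N.L p‖) + C := hC ⟨p, hp⟩
  have h2 := l0 ⟨p, hp⟩
  have h3 := mul_le_mul_of_nonneg_left h1 A0
  have h4 := hA p
  have h5 := mul_nonneg A0 h2
  have h6 := mul_nonneg C0 h2
  have h7 := mul_nonneg A0 h6
  have h8 := mul_nonneg A0 C0
  simp only at h5 h6 h7
  constructor <;> nlinarith

variable {α β : Type} [Fintype α] [Fintype β]

/-- the pointwise form: the Jacobian of the projection against the tower density -/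
theorem Fam.jac_noe (T : Fam B ν M) (h : Tw.Tow (Xt.evB B) B.siz Δ Λ K0 M0)
    (hd : T.finX.Δ ∣ Δ) (hu : IsUnit (Xt.up T.toRel Δ)) {ρ : α → T.X.O} {r : β → T.X.O}
    (hr : ∀ j, IsUnit (r j)) {n : ℕ}
    (hρ : ∀ p : Pt T.X.O, Λ (p.res T.inc) (Xt.xc T.toRel p) ^ n = ∑ a, ‖p (ρ a)‖ ^ 2)
    (N : Noe K T.inc ν fun x : α × β => ρ x.1 * r x.2) :
    ∃ (C : ℝ) (c : ℕ), 0 ≤ C ∧ ∀ p : Pt T.X.O, ‖p.ev (Jac T.dx fun j => (N.l j : M))‖ ^ 2 ≤
      C * ‖fun x : α × β => p (ρ x.1 * r x.2)‖ ^ (2 * Fintype.card ν) * Xt.L T.toRel Δ p ^ c *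
        Λ (p.res T.inc) (Xt.xc T.toRel p) := by
  obtain ⟨A, A0, hA⟩ := N.L_le
  have k1 := h.one_le
  obtain ⟨C, c, C0, H⟩ := T.jac_le h hd hu hr (l := N.l) (G := fun p =>
    A * (2 * K0 ^ n * (Fintype.card α + 1)) * ‖fun x : α × β => p (ρ x.1 * r x.2)‖)
    fun p p' e h1 h2 => by
      rw [mul_assoc]
      refine (hA p').trans (mul_le_mul_of_nonneg_left ((pi_norm_le_iff_of_nonneg
        (by positivity)).2 fun x => ?_) A0)
      refine (sq_le_sq₀ (norm_nonneg _) (by positivity)).1 ?_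
      have h0 : 0 < Λ (p.res T.inc) (Xt.xc T.toRel p') :=
        h.pos _ _ (e ▸ Xt.up_eq p' Δ ▸ (hu.map p').ne_zero)
      have h3 := pow_le_pow_left₀ h0.le h1 n
      rw [mul_pow, hρ p, ← e, hρ p'] at h3
      have h4 := (Finset.single_le_sum (f := fun a => ‖p' (ρ a)‖ ^ 2) (fun _ _ => by positivity)
        (Finset.mem_univ x.1)).trans h3
      have h5 : (∑ a, ‖p (ρ a)‖ ^ 2) * ‖p (r x.2)‖ ^ 2 ≤
          Fintype.card α * ‖fun x : α × β => p (ρ x.1 * r x.2)‖ ^ 2 := by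
        rw [Finset.sum_mul, ← nsmul_eq_mul, ← Finset.card_univ]
        refine Finset.sum_le_card_nsmul _ _ _ fun a _ => ?_
        rw [← mul_pow, ← norm_mul, ← map_mul]
        exact pow_le_pow_left₀ (norm_nonneg _)
          (norm_le_pi_norm (fun x : α × β => p (ρ x.1 * r x.2)) (a, x.2)) 2
      have h6 : 1 ≤ K0 ^ n := one_le_pow₀ k1
      have h7 : (0 : ℝ) ≤ Fintype.card α := Nat.cast_nonneg _
      calc _ = ‖p' (ρ x.1)‖ ^ 2 * ‖p' (r x.2)‖ ^ 2 := by rw [map_mul, norm_mul, mul_pow]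
        _ ≤ (K0 ^ n * ∑ a, ‖p (ρ a)‖ ^ 2) * (2 * ‖p (r x.2)‖) ^ 2 := by gcongr; exact h2 _
        _ = 4 * K0 ^ n * ((∑ a, ‖p (ρ a)‖ ^ 2) * ‖p (r x.2)‖ ^ 2) := by ring
        _ ≤ 4 * K0 ^ n * (Fintype.card α * ‖fun x : α × β => p (ρ x.1 * r x.2)‖ ^ 2) := by gcongr
        _ = 4 * (K0 ^ n * Fintype.card α) * ‖fun x : α × β => p (ρ x.1 * r x.2)‖ ^ 2 := by ring
        _ ≤ 4 * (K0 ^ n * (Fintype.card α + 1)) ^ 2 *
            ‖fun x : α × β => p (ρ x.1 * r x.2)‖ ^ 2 := by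
          gcongr
          nlinarith [mul_nonneg (zero_le_one.trans h6) h7]
        _ = _ := by ring
  exact ⟨C * (A * (2 * K0 ^ n * (Fintype.card α + 1))) ^ (2 * Fintype.card ν), c, by positivity,
    fun p => (H p).trans_eq (by rw [mul_pow _ ‖_‖]; ring)⟩

theorem log_pow_le_rpow (m : ℕ) {A ε : ℝ} (hA : 0 ≤ A) (hε : 0 < ε) :
    ∃ C : ℝ, 0 ≤ C ∧ ∀ t : ℝ, 1 ≤ t → (A * Real.log t + A) ^ m ≤ C * t ^ ε := by
  have e0 : 0 < ε / (m + 1) := by positivity
  refine ⟨(A * ((ε / (m + 1))⁻¹ + 1)) ^ m, by positivity, fun t ht => ?_⟩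
  have t0 := zero_le_one.trans ht
  have h1 := Real.log_le_rpow_div t0 e0
  have h2 := Real.one_le_rpow ht e0.le
  have h3 := Real.log_nonneg ht
  calc _ ≤ (A * ((ε / (m + 1))⁻¹ + 1) * t ^ (ε / (m + 1))) ^ m := by
        refine pow_le_pow_left₀ (by positivity) ?_ m
        rw [div_eq_inv_mul] at h1
        rw [mul_assoc, ← mul_add_one]
        exact mul_le_mul_of_nonneg_left (by linarith) hA
    _ ≤ _ := by
        rw [mul_pow, ← Real.rpow_natCast (t ^ _), ← Real.rpow_mul t0]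
        refine mul_le_mul_of_nonneg_left (Real.rpow_le_rpow_of_exponent_le ht ?_) (by positivity)
        rw [div_mul_eq_mul_div, div_le_iff₀ (by positivity)]
        linarith

/-- NP5: every prime at infinity is a log canonical place of the tower density -/
theorem Fam.five (T : Fam B ν M) (h : Tw.Tow (Xt.evB B) B.siz Δ Λ K0 M0)
    (hd : T.finX.Δ ∣ Δ) (hu : IsUnit (Xt.up T.toRel Δ)) {ρ : α → T.X.O} {r : β → T.X.O}
    (hr : ∀ j, IsUnit (r j)) {n : ℕ}
    (hρ : ∀ p : Pt T.X.O, Λ (p.res T.inc) (Xt.xc T.toRel p) ^ n = ∑ a, ‖p (ρ a)‖ ^ 2)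
    (N : Noe K T.inc ν fun x : α × β => ρ x.1 * r x.2) {V : ValuationSubring M} (hV : N.Inf V)
    (j0 : ν) : ∃ a, V.valuation (Jac T.dx fun j => (N.l j : M)) ^ n ≤
      V.valuation (N.l j0 : M) ^ (Fintype.card ν * n) * V.valuation (ρ a : M) := by
  obtain ⟨C, c, C0, H⟩ := T.jac_noe h hd hu hr hρ N
  have hJ : (Jac T.dx fun j => (N.l j : M)) ∈ T.X.O := by
    unfold Jac
    rw [Matrix.det_apply']
    exact sum_mem fun σ _ => mul_mem (intCast_mem _ _) (prod_mem fun i _ => by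
      rw [Matrix.of_apply, T.dx_eq]; exact T.X.der_mem _ _ (N.l _).2)
  have hg : ∀ j, N.Deg ((⟨_, hJ⟩ ^ n * r j : T.X.O) : M) (Fintype.card ν * n + 1) := fun j => by
    refine N.deg_of_grow (U := {b | b N.h ≠ 0}) (fun s hs => by_contra fun s0 => ?_)
      fun b hb ε ε0 => ?_
    · obtain ⟨b, -, hb⟩ := Pt.exists_zero_ne (I := ⊥) (h := s * N.h) (by
        rw [Ideal.radical_bot_of_isReduced]; exact mul_ne_zero s0 N.ne)
      rw [map_mul] at hb
      exact left_ne_zero_of_mul hb (hs b (right_ne_zero_of_mul hb))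
    have hb' : ∀ b' ∈ ({b} : Set (Pt B.O)), b' N.h ≠ 0 := fun b' e => e ▸ hb
    obtain ⟨A, A0, hA⟩ := N.size_le hu isCompact_singleton hb'
    choose Z Z0 hZ using fun x => (N.deg_z x).grow isCompact_singleton hb'
    obtain ⟨E, E0, hE⟩ := log_pow_le_rpow (c * n) A0 (mul_pos ε0 two_pos)
    have S0 : 0 ≤ ∑ x, Z x := Finset.sum_nonneg fun x _ => Z0 x
    refine ⟨√(C ^ n * E * Fintype.card α) * (∑ x, Z x) ^ (Fintype.card ν * n + 1),
      fun p hp => (sq_le_sq₀ (norm_nonneg _) (by positivity)).1 ?_⟩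
    have t1 : 1 ≤ 1 + ‖N.L p‖ := le_add_of_nonneg_right (norm_nonneg _)
    have h1 : ‖fun x : α × β => p (ρ x.1 * r x.2)‖ ≤ (∑ x, Z x) * (1 + ‖N.L p‖) :=
      (pi_norm_le_iff_of_nonneg (by positivity)).2 fun x => (hZ x p hp).trans (by
        rw [pow_one]
        exact mul_le_mul_of_nonneg_right
          (Finset.single_le_sum (fun x _ => Z0 x) (Finset.mem_univ x)) (by positivity))
    have h2 : Λ (p.res T.inc) (Xt.xc T.toRel p) ^ n * ‖p (r j)‖ ^ 2 ≤
        Fintype.card α * ((∑ x, Z x) * (1 + ‖N.L p‖)) ^ 2 := by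
      rw [hρ, Finset.sum_mul, ← nsmul_eq_mul, ← Finset.card_univ]
      refine Finset.sum_le_card_nsmul _ _ _ fun a _ => ?_
      rw [← mul_pow, ← norm_mul, ← map_mul]
      exact pow_le_pow_left₀ (norm_nonneg _)
        ((norm_le_pi_norm (fun x : α × β => p (ρ x.1 * r x.2)) (a, j)).trans h1) 2
    have h3 := H p
    rw [p.ev_of_mem hJ] at h3
    have l2 := Xt.two_le_L (Δ := Δ) p
    have h4 : (Xt.L T.toRel Δ p ^ c) ^ n ≤ E * ((1 + ‖N.L p‖) ^ ε) ^ 2 := by
      rw [← pow_mul, ← Real.rpow_mul_natCast (by positivity)]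
      exact (pow_le_pow_left₀ (by positivity) (hA p hp).2 _).trans (hE _ t1)
    calc _ = (‖p ⟨_, hJ⟩‖ ^ 2) ^ n * ‖p (r j)‖ ^ 2 := by
          rw [map_mul, map_pow, norm_mul, norm_pow]; ring
      _ ≤ (C * ‖fun x : α × β => p (ρ x.1 * r x.2)‖ ^ (2 * Fintype.card ν) *
            Xt.L T.toRel Δ p ^ c * Λ (p.res T.inc) (Xt.xc T.toRel p)) ^ n * ‖p (r j)‖ ^ 2 := by
          gcongr
      _ = C ^ n * (‖fun x : α × β => p (ρ x.1 * r x.2)‖ ^ (2 * Fintype.card ν)) ^ n *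
            (Xt.L T.toRel Δ p ^ c) ^ n *
            (Λ (p.res T.inc) (Xt.xc T.toRel p) ^ n * ‖p (r j)‖ ^ 2) := by ring
      _ ≤ C ^ n * (((∑ x, Z x) * (1 + ‖N.L p‖)) ^ (2 * Fintype.card ν)) ^ n *
            (E * ((1 + ‖N.L p‖) ^ ε) ^ 2) *
            (Fintype.card α * ((∑ x, Z x) * (1 + ‖N.L p‖)) ^ 2) := by
          gcongr
          rw [hρ]; positivity
      _ = _ := by
          rw [Real.rpow_add (by positivity), Real.rpow_natCast, mul_pow (√_ * _), mul_pow (√_),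
            Real.sq_sqrt (by positivity)]
          generalize 1 + ‖N.L p‖ = t
          ring
  obtain ⟨x, hx⟩ := hV.exists_z j0
  refine ⟨x.1, ?_⟩
  have h1 := hg x.2 V hV j0
  have r0 : 0 < V.valuation (r x.2 : M) :=
    (Valuation.pos_iff _).2 fun e => (hr x.2).ne_zero (Subtype.ext e)
  simp only [MulMemClass.coe_mul, SubmonoidClass.coe_pow, map_mul, map_pow] at h1 hx
  rw [pow_succ] at h1
  refine le_of_mul_le_mul_right ?_ r0
  rw [mul_assoc]
  exact h1.trans (mul_le_mul_right hx _)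

/-- NP5 in orders; `Jd` generates the top forms at `V` -/
theorem Fam.five_od [IsScalarTower ℂ K M] (T : Fam B ν M)
    (h : Tw.Tow (Xt.evB B) B.siz Δ Λ K0 M0)
    (hd : T.finX.Δ ∣ Δ) (hu : IsUnit (Xt.up T.toRel Δ)) {ρ : α → T.X.O} {r : β → T.X.O}
    (hr : ∀ j, IsUnit (r j)) {n : ℕ}
    (hρ : ∀ p : Pt T.X.O, Λ (p.res T.inc) (Xt.xc T.toRel p) ^ n = ∑ a, ‖p (ρ a)‖ ^ 2)
    {N : Noe K T.inc ν fun x : α × β => ρ x.1 * r x.2} {j0 : ν} (U : N.Uni j0) (V : N.DD) :
    ∃ a, ρ a ≠ 0 ∧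
      U.od V (ρ a) ≤ n * (U.od V (Jac T.dx fun j => (N.l j : M)) + Fintype.card ν * U.e V) ∧
      U.od V (ρ a) ≤ n * (U.od V
        (Jac T.dx (Function.update (fun j => (N.l j : M) / N.l j0) j0 (U.π V))) - 1) := by
  have : CharZero K := charZero_of_injective_algebraMap (algebraMap ℂ K).injective
  obtain ⟨a, ha⟩ := T.five h hd hu hr hρ N V.2 j0
  have J0 : (Jac T.dx fun j => (N.l j : M)) ≠ 0 := T.toRel.dual.isFr.jac_ne N.basis.1
  have p0 : V.1.valuation (U.π V) ≠ 0 := by simpa using (U.adp V).val_pos.ne'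
  have a0 : (ρ a : M) ≠ 0 := fun e => by
    rw [e, map_zero, mul_zero] at ha
    exact (pow_pos ((Valuation.pos_iff _).2 J0) n).not_ge ha
  rw [U.val V _ J0, U.val V _ a0, U.val V _ (N.l_ne j0), U.od_l, ← zpow_natCast, ← zpow_natCast,
    ← zpow_mul, ← zpow_mul, ← zpow_add₀ p0, U.val_le_iff] at ha
  rw [← (U.od_jac V T.dx J0).2]
  push_cast at ha
  exact ⟨a, fun e => a0 (congrArg _ e), by linarith, by linarith⟩

end

end Pool.Agent.Lib.MP_5c318e_ag
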