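import Pool.Agent.Lib.MP_5c318e_ag.Np.Inf

/-! Sizes of functions on the general region at infinity. -/

set_option autoImplicit false

namespace Pool.Agent.Lib.MP_5c318e_ag

open Set Filter Topology

noncomputable section

variable {R M α K ν : Type} [CommRing R] [Algebra ℂ R] [Field M] [Algebra ℂ M]
  {O : Subalgebra ℂ M} [Field K] [Algebra R K] [Algebra K M]
  {inc : R →ₐ[ℂ] O} {z : α → O} [Fintype ν]

/-- a polynomial has at most the size of its degree -/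
theorem evP_size (q : MvPolynomial ν R) {Q : Set (Pt R)} (hQ : IsCompact Q) :
    ∃ C : ℝ, 0 < C ∧ ∀ b ∈ Q, ∀ a : ν → ℂ, 1 ≤ ‖a‖ → ∀ D, q.totalDegree ≤ D →
      ‖evP b a q‖ ≤ C * ‖a‖ ^ D := by
  obtain ⟨C, hC⟩ := hQ.exists_bound_of_continuousOn
    (f := fun b : Pt R => ∑ m ∈ q.support, ‖b (q.coeff m)‖)
    (continuous_finsetSum _ fun m _ => (Pt.continuous_apply _).norm).continuousOn
  refine ⟨|C| + 1, by positivity, fun b hb a ha D hD => ?_⟩
  have h1 : ‖evP b a q‖ ≤ ∑ m ∈ q.support, ‖b (q.coeff m)‖ * ‖a‖ ^ D := by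
    rw [evP, MvPolynomial.coe_eval₂Hom, MvPolynomial.eval₂_eq]
    refine norm_sum_le_of_le _ fun m hm => ?_
    rw [norm_mul, norm_prod]
    refine mul_le_mul_of_nonneg_left ?_ (norm_nonneg _)
    calc _ ≤ ∏ i ∈ m.support, ‖a‖ ^ m i := Finset.prod_le_prod (fun _ _ => norm_nonneg _)
          fun i _ => by rw [norm_pow]; gcongr; exact norm_le_pi_norm a i
      _ = ‖a‖ ^ ∑ i ∈ m.support, m i := Finset.prod_pow_eq_pow_sum ..
      _ ≤ _ := pow_le_pow_right₀ ha ((MvPolynomial.le_totalDegree hm).trans hD)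
  rw [← Finset.sum_mul] at h1
  refine h1.trans (mul_le_mul_of_nonneg_right ?_ (by positivity))
  linarith [le_abs_self C, (le_abs_self _).trans (hC b hb)]

theorem root_size_le {β s : ℂ} {a : ℕ → ℂ} {d : ℕ} {B : ℝ} (hB : 0 ≤ B) (hβ : β ≠ 0)
    (ha : ∀ i < d, ‖a i‖ ≤ B * ‖β‖) (h : β * s ^ d + ∑ i ∈ Finset.range d, a i * s ^ i = 0) :
    ‖s‖ ≤ 1 + d * B := by
  by_contra hn
  rw [not_le] at hn
  have h0 : (0 : ℝ) ≤ d * B := by positivity
  have h1 : 1 ≤ ‖s‖ := by linarith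
  have hb := norm_pos_iff.2 hβ
  have h2 : ‖β‖ * ‖s‖ ^ d * ‖s‖ ≤ ∑ _i ∈ Finset.range d, B * ‖β‖ * ‖s‖ ^ d := by
    rw [← norm_pow, ← norm_mul, eq_neg_of_add_eq_zero_left h, norm_neg, norm_pow]
    refine (mul_le_mul_of_nonneg_right (norm_sum_le _ _) (norm_nonneg _)).trans ?_
    rw [Finset.sum_mul]
    refine Finset.sum_le_sum fun i hi => ?_
    rw [norm_mul, norm_pow, mul_assoc, ← pow_succ]
    exact mul_le_mul (ha i (Finset.mem_range.1 hi)) (pow_le_pow_right₀ h1 (Finset.mem_range.1 hi))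
      (by positivity) (by positivity)
  rw [Finset.sum_const, Finset.card_range, nsmul_eq_mul] at h2
  have h3 : 0 < ‖β‖ * ‖s‖ ^ d := by positivity
  nlinarith

namespace Noe

variable (N : Noe K inc ν z)

omit [Fintype ν] in
theorem pt_em (p : Pt O) (q : MvPolynomial ν R) : p (N.em q) = evP (p.res inc) (N.L p) q :=
  DFunLike.congr_fun (MvPolynomial.comp_eval₂Hom (inc : R →+* O) N.l (p.hom : O →+* ℂ)) q

omit [Fintype ν] in
theorem em_aeval (q : MvPolynomial ν R) : (N.em q : M) =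
    MvPolynomial.aeval (fun j => (N.l j : M)) (MvPolynomial.map (algebraMap R K) q) := by
  induction q using MvPolynomial.induction_on with
  | C a => simp [em, N.inc_eq]
  | add p q hp hq => rw [map_add, map_add, map_add, ← hp, ← hq]; rfl
  | mul_X p i hp => rw [map_mul, map_mul, map_mul, ← hp]; simp [em]

/-- a property that holds on the general region for all large constants -/
def Gen (P : ℝ → Pt O → Prop) : Prop :=
  ∃ De : MvPolynomial ν R, De ≠ 0 ∧ ∀ c : ℝ, 0 < c → ∀ Q : Set (Pt R), IsCompact Q →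
    ∀ᶠ A in atTop, ∀ p : Pt O, p.res inc ∈ Q → (p.res inc, N.L p) ∈ Big De c → P A p

variable {N} {P P' : ℝ → Pt O → Prop}

theorem Gen.mono (h : N.Gen P) (H : ∀ A, 1 ≤ A → ∀ᶠ A' in atTop, ∀ p, P A p → P' A' p) :
    N.Gen P' := by
  obtain ⟨De, h0, h⟩ := h
  refine ⟨De, h0, fun c hc Q hQ => ?_⟩
  obtain ⟨A, h1, h2⟩ := ((h c hc Q hQ).and (eventually_ge_atTop 1)).exists
  exact (H A h2).mono fun A' h3 p hp hb => h3 p (h1 p hp hb)

variable [IsDomain R]

theorem Big.of_mul {D1 D2 : MvPolynomial ν R} (h1 : D1 ≠ 0) (h2 : D2 ≠ 0) {c : ℝ} (hc : 0 < c)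
    {Q : Set (Pt R)} (hQ : IsCompact Q) :
    ∃ c', 0 < c' ∧ ∀ x ∈ Big (D1 * D2) c, x.1 ∈ Q → x ∈ Big D1 c' := by
  obtain ⟨C, hC, h⟩ := evP_size D2 hQ
  refine ⟨c / C, by positivity, fun x hx hq => ⟨hx.1, ?_⟩⟩
  have h3 := hx.2
  have h4 := h _ hq _ hx.1 _ le_rfl
  have h5 : 0 < ‖x.2‖ ^ D2.totalDegree := pow_pos (one_pos.trans_le hx.1) _
  rw [MvPolynomial.totalDegree_mul_of_isDomain h1 h2, map_mul, norm_mul, pow_add] at h3
  rw [div_mul_eq_mul_div, div_le_iff₀ hC]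
  refine le_of_mul_le_mul_right ?_ h5
  calc _ = _ := mul_assoc ..
    _ ≤ _ := h3
    _ ≤ ‖evP x.1 x.2 D1‖ * (C * ‖x.2‖ ^ D2.totalDegree) := by gcongr
    _ = _ := by ring

theorem Gen.and (h : N.Gen P) (h' : N.Gen P') : N.Gen fun A p => P A p ∧ P' A p := by
  obtain ⟨D1, h1, h⟩ := h
  obtain ⟨D2, h2, h'⟩ := h'
  refine ⟨D1 * D2, mul_ne_zero h1 h2, fun c hc Q hQ => ?_⟩
  obtain ⟨c1, p1, e1⟩ := Big.of_mul h1 h2 hc hQ
  obtain ⟨c2, p2, e2⟩ := Big.of_mul h2 h1 hc hQ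
  filter_upwards [h c1 p1 Q hQ, h' c2 p2 Q hQ] with A k1 k2 p hp hb
  exact ⟨k1 p hp (e1 _ hb hp), k2 p hp (e2 _ (mul_comm D1 D2 ▸ hb) hp)⟩

theorem Gen.of_all (h : ∀ A p, P A p) : N.Gen P :=
  ⟨1, one_ne_zero, fun _ _ _ _ => .of_forall fun A p _ _ => h A p⟩

theorem Gen.fin {κ : Type} (s : Finset κ) {P : κ → ℝ → Pt O → Prop} (h : ∀ i ∈ s, N.Gen (P i)) :
    N.Gen fun A p => ∀ i ∈ s, P i A p := by
  classical
  induction s using Finset.induction_on with
  | empty => exact .of_all (by simp)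
  | insert i s hi ih =>
    simpa only [Finset.forall_mem_insert] using (h i (Finset.mem_insert_self i s)).and
      (ih fun j hj => h j (Finset.mem_insert_of_mem hj))

theorem Gen.all {κ : Type} [Finite κ] {P : κ → ℝ → Pt O → Prop} (h : ∀ i, N.Gen (P i)) :
    N.Gen fun A p => ∀ i, P i A p := by
  have := Fintype.ofFinite κ
  simpa using Gen.fin Finset.univ fun i _ => h i

omit [IsDomain R] in
variable (N) in
theorem gen_em {β : MvPolynomial ν R} (h0 : β ≠ 0) :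
    N.Gen fun A p => 1 ≤ ‖N.L p‖ ∧ ‖N.L p‖ ^ β.totalDegree ≤ A * ‖p (N.em β)‖ := by
  refine ⟨β, h0, fun c hc Q _ => (eventually_ge_atTop c⁻¹).mono fun A hA p _ hp => ⟨hp.1, ?_⟩⟩
  rw [N.pt_em]
  exact ((le_inv_mul_iff₀ hc).2 hp.2).trans (mul_le_mul_of_nonneg_right hA (norm_nonneg _))

variable (N) in
/-- each coordinate has the size of the vector -/
theorem gen_l (j : ν) :
    N.Gen fun A p => 1 ≤ ‖N.L p‖ ∧ p (N.l j) ≠ 0 ∧ |Real.log ‖N.L p‖ - Real.log ‖p (N.l j)‖| ≤ A := by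
  refine ⟨MvPolynomial.X j, MvPolynomial.X_ne_zero j, fun c hc Q hQ => ?_⟩
  filter_upwards [eventually_ge_atTop |Real.log c|] with A hA p _ hb
  have h1 := hb.2
  have h0 : 0 < ‖N.L p‖ := one_pos.trans_le hb.1
  rw [MvPolynomial.totalDegree_X, pow_one, ← N.pt_em, em, MvPolynomial.eval₂Hom_X'] at h1
  have h2 : 0 < ‖p (N.l j)‖ := (mul_pos hc h0).trans_le h1
  have h3 := Real.log_le_log (mul_pos hc h0) h1
  have h4 := Real.log_le_log h2 (norm_le_pi_norm (N.L p) j)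
  rw [Real.log_mul hc.ne' h0.ne'] at h3
  refine ⟨hb.1, norm_pos_iff.1 h2, abs_le.2 ⟨?_, ?_⟩⟩
  · linarith [abs_nonneg (Real.log c)]
  · linarith [neg_abs_le (Real.log c)]

variable [DecidableEq ν] {j0 : ν} (U : N.Uni j0)

section

omit [IsDomain R] [Fintype ν]

theorem Uni.ne (V : N.DD) : U.π V ≠ 0 := by simpa using (U.adp V).ne_zero j0

theorem Uni.lt (V : N.DD) : V.1.valuation (U.π V) < 1 := by simpa using (U.adp V).lt

theorem Uni.vpos (V : N.DD) : 0 < V.1.valuation (U.π V) := (Valuation.pos_iff _).2 (U.ne V)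

theorem Uni.mem (V V' : N.DD) : U.π V ∈ V'.1 := by
  rw [← ValuationSubring.valuation_le_one_iff]
  by_cases h : V' = V
  · rw [h]; exact (U.lt V).le
  · exact (U.unit V V' h).le

end

variable [IsFractionRing R K] [IsIntegrallyClosed R] [Algebra.FiniteType ℂ O]

include U in
theorem Uni.exists_dvd {b : O} (hb : b ≠ 0) : ∃ β, β ≠ 0 ∧ b ∣ N.em β := by
  have := N.finite_DD
  have hb' : (b : M) ≠ 0 := fun h => hb (Subtype.ext h)
  have hl : (N.l j0 : M) ≠ 0 := N.basis.1.ne_zero j0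
  obtain ⟨k, hk⟩ := (Set.finite_range fun V => (U.od V b).toNat).bddAbove
  obtain ⟨g, eg⟩ : ∃ g : O, g = b * N.l j0 ^ k := ⟨_, rfl⟩
  have eg' : (g : M) = b * (N.l j0 : M) ^ k := by rw [eg]; rfl
  have hg : (g : M) ≠ 0 := by rw [eg']; exact mul_ne_zero hb' (pow_ne_zero _ hl)
  have hm : ∀ V : N.DD, (g : M)⁻¹ ∈ V.1 := fun V => by
    have h1 : U.od V b ≤ k := Int.toNat_le.1 (hk ⟨V, rfl⟩)
    have h2 : (1 : ℤ) ≤ U.e V := by exact_mod_cast U.pos V
    rw [← V.1.valuation_le_one_iff, eg', map_inv₀, map_mul, map_pow, U.val V _ hb', U.val V _ hl,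
      U.od_l, ← zpow_natCast, ← zpow_mul, ← zpow_add₀ (U.vpos V).ne', ← zpow_neg]
    exact zpow_le_one₀ (U.vpos V) (U.lt V).le (by nlinarith)
  obtain ⟨d, β, a, h0, -, h⟩ := N.int_inf fun V hV => hm ⟨V, hV⟩
  have e : N.em β + ∑ i ∈ Finset.range d, N.em (a i) * g ^ (d - i) = 0 := Subtype.ext (by
    have := congrArg (· * (g : M) ^ d) h
    simp only [add_mul, zero_mul, Finset.sum_mul, mul_assoc, ← mul_pow, inv_mul_cancel₀ hg,
      one_pow, mul_one] at this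
    push_cast
    rw [← this]
    refine congrArg _ (Finset.sum_congr rfl fun i hi => ?_)
    rw [pow_sub₀ _ hg (Finset.mem_range.1 hi).le, inv_pow, mul_comm ((g : M) ^ d)])
  refine ⟨β, h0, eq_neg_of_add_eq_zero_left e ▸ (Finset.dvd_sum fun i hi => ?_).neg_right⟩
  exact ((eg ▸ dvd_mul_right b _ : b ∣ g).pow
    (Nat.sub_ne_zero_of_lt (Finset.mem_range.1 hi))).mul_left _

include U in
theorem Uni.gen_ne {b : O} (hb : b ≠ 0) : N.Gen fun _ p => p b ≠ 0 := by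
  obtain ⟨β, h0, t, e⟩ := U.exists_dvd hb
  refine (N.gen_em h0).mono fun A _ => .of_forall fun _ p hp hz => ?_
  rw [e, map_mul, hz, zero_mul, norm_zero, mul_zero] at hp
  exact absurd hp.2 (not_le.2 (pow_pos (one_pos.trans_le hp.1) _))

include U in
theorem Uni.gen_reg (φ : M) : N.Gen fun _ p => p.Reg φ := by
  obtain ⟨a, b, hb, e⟩ := N.frac φ
  exact (U.gen_ne hb).mono fun _ _ => .of_forall fun _ p hp => ⟨a, b, hp, e⟩

include U in
/-- elements of all primes at infinity are bounded -/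
theorem Uni.gen_bd {φ : M} (h : ∀ V : N.DD, φ ∈ V.1) :
    N.Gen fun A p => p.Reg φ ∧ ‖p.ev φ‖ ≤ A := by
  obtain ⟨d, β, a, h0, hd, e⟩ := N.int_inf fun V hV => h ⟨V, hV⟩
  have : N.Gen fun A p => p.Reg φ → ‖p.ev φ‖ ≤ A := by
    refine ⟨β, h0, fun c hc Q hQ => ?_⟩
    choose C hC hb using fun i => evP_size (a i) hQ
    let B := (∑ i ∈ Finset.range d, C i) / c
    have hB : 0 ≤ B := div_nonneg (Finset.sum_nonneg fun i _ => (hC i).le) hc.le
    filter_upwards [eventually_ge_atTop (1 + d * B)] with A hA p hp hg hr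
    have h1 := congrArg p.ev e
    have t : ∀ (q : MvPolynomial ν R) (i : ℕ), p.Reg ((N.em q : M) * φ ^ i) ∧
        p.ev ((N.em q : M) * φ ^ i) = evP (p.res inc) (N.L p) q * p.ev φ ^ i := fun q i => by
      rw [← (p.ev_pow hr i).2, ← N.pt_em, ← p.ev_coe]
      exact p.ev_mul (p.reg_coe _) (p.ev_pow hr i).1
    have t2 := p.ev_sum (Finset.range d) fun i _ => (t (a i) i).1
    rw [(p.ev_add (t β d).1 t2.1).2, t2.2, (t β d).2, Pt.ev_zero,
      Finset.sum_congr rfl fun i _ => (t (a i) i).2] at h1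
    have h2 : 0 < ‖N.L p‖ ^ β.totalDegree := pow_pos (one_pos.trans_le hg.1) _
    refine (root_size_le hB (norm_pos_iff.1 ((mul_pos hc h2).trans_le hg.2)) (fun i hi => ?_) h1).trans hA
    calc _ ≤ _ := hb i _ hp _ hg.1 _ (hd i)
      _ ≤ (∑ i ∈ Finset.range d, C i) * ‖N.L p‖ ^ β.totalDegree :=
          mul_le_mul_of_nonneg_right (Finset.single_le_sum (fun i _ => (hC i).le)
            (Finset.mem_range.2 hi)) h2.le
      _ = B * (c * ‖N.L p‖ ^ β.totalDegree) := by simp only [B]; field_simp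
      _ ≤ _ := mul_le_mul_of_nonneg_left hg.2 hB
  exact ((U.gen_reg φ).and this).mono fun A _ => (eventually_ge_atTop A).mono
    fun A' hA p hp => ⟨hp.1, (hp.2 hp.1).trans hA⟩

include U in
/-- units of all primes at infinity have size one -/
theorem Uni.gen_unit {u : M} (h0 : u ≠ 0) (h : ∀ V : N.DD, V.1.valuation u = 1) :
    N.Gen fun A p => p.Reg u ∧ p.ev u ≠ 0 ∧ |Real.log ‖p.ev u‖| ≤ A := by
  refine ((U.gen_bd (φ := u) fun V => (V.1.valuation_le_one_iff _).1 (h V).le).and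
    (U.gen_bd (φ := u⁻¹) fun V => (V.1.valuation_le_one_iff _).1
      (by rw [map_inv₀, h V, inv_one]))).mono fun A hA =>
    (eventually_ge_atTop (Real.log A)).mono fun A' hA' p hp => ?_
  have h1 := (p.ev_mul hp.1.1 hp.2.1).2
  rw [mul_inv_cancel₀ h0, Pt.ev_one] at h1
  have h2 : p.ev u ≠ 0 := left_ne_zero_of_mul (h1 ▸ one_ne_zero)
  have h3 := hp.2.2
  have h4 := norm_pos_iff.2 h2
  rw [p.ev_inv hp.1.1 h2, norm_inv] at h3
  have h5 := Real.log_le_log (inv_pos.2 h4) h3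
  have h6 := Real.log_le_log h4 hp.1.2
  rw [Real.log_inv] at h5
  exact ⟨hp.1.1, h2, abs_le.2 ⟨by linarith, by linarith⟩⟩

omit [DecidableEq ν] [IsIntegrallyClosed R] [Algebra.FiniteType ℂ O] [Fintype ν] [IsDomain R] in
theorem em_ne {q : MvPolynomial ν R} (h : q ≠ 0) : (N.em q : M) ≠ 0 := by
  rw [N.em_aeval]
  exact fun h0 => h (MvPolynomial.map_injective _ (IsFractionRing.injective R K)
    ((N.basis.1.eq_zero_of_aeval_eq_zero _ h0).trans (map_zero _).symm))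

variable (N) in
theorem nonempty_DD (j0 : ν) : Nonempty N.DD := by
  by_contra hn
  obtain ⟨d, β, a, h0, hd, e⟩ := N.int_inf (φ := N.l j0) fun V hV => (hn ⟨⟨V, hV⟩⟩).elim
  have h1 : β * MvPolynomial.X j0 ^ d + ∑ i ∈ Finset.range d, a i * MvPolynomial.X j0 ^ i = 0 := by
    by_contra h
    refine em_ne (N := N) h ?_
    rw [← e]
    simp [em]
  have h2 := congrArg MvPolynomial.totalDegree (eq_neg_of_add_eq_zero_left h1)
  rw [MvPolynomial.totalDegree_neg, MvPolynomial.totalDegree_mul_of_isDomain h0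
    (pow_ne_zero _ (MvPolynomial.X_ne_zero _)), MvPolynomial.totalDegree_X_pow] at h2
  rcases d with _ | d
  · simp [h0] at h1
  refine absurd (h2.le.trans ((MvPolynomial.totalDegree_finsetSum _ _).trans
    (Finset.sup_le (a := β.totalDegree + d) fun i hi => ?_))) (by omega)
  refine (MvPolynomial.totalDegree_mul _ _).trans ?_
  rw [MvPolynomial.totalDegree_X_pow]
  have := hd i
  have := Finset.mem_range.1 hi
  omega

/-- all uniformisers but one have size one -/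
theorem Uni.gen_type : N.Gen fun A p => (∀ V, p.Reg (U.π V)) ∧
    ∃ V, ∀ W ≠ V, p.ev (U.π W) ≠ 0 ∧ |Real.log ‖p.ev (U.π W)‖| ≤ A := by
  classical
  have := N.finite_DD
  have := Fintype.ofFinite N.DD
  obtain ⟨V0⟩ := N.nonempty_DD j0
  let w : M := ∑ V, ∏ W ∈ Finset.univ.erase V, U.π W
  have hw : ∀ V : N.DD, V.1.valuation w = 1 := fun V => by
    have h1 : V.1.valuation (∏ W ∈ Finset.univ.erase V, U.π W) = 1 := by
      rw [map_prod]
      exact Finset.prod_eq_one fun W hW => U.unit W V (Finset.ne_of_mem_erase hW).symm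
    refine (Valuation.map_sum_eq_of_lt _ (Finset.mem_univ V) fun W hW => ?_).trans h1
    have hW' : V ∈ Finset.univ.erase W := by simpa [eq_comm] using hW
    rw [h1, ← Finset.mul_prod_erase _ _ hW', map_mul]
    exact (mul_le_of_le_one_right' ((V.1.valuation_le_one_iff _).2
      (prod_mem fun T _ => U.mem T V))).trans_lt (U.lt V)
  have h0 : w ≠ 0 := fun h => by simpa [h] using hw V0
  let n : ℝ := Fintype.card N.DD
  have hn : 0 < n := Nat.cast_pos.2 (Fintype.card_pos_iff.2 ⟨V0⟩)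
  refine ((Gen.all fun V => U.gen_bd (U.mem V)).and (U.gen_unit h0 hw)).mono fun A hA =>
    (eventually_ge_atTop (A + |Real.log n| + (n + 1) * Real.log A)).mono fun A' hA' p hp =>
      ⟨fun V => (hp.1 V).1, ?_⟩
  have hA0 := Real.log_nonneg hA
  have t : ∀ V, _ := fun V => p.ev_prod (Finset.univ.erase V) fun W _ => (hp.1 W).1
  have h1 : p.ev w = ∑ V, ∏ W ∈ Finset.univ.erase V, p.ev (U.π W) :=
    (p.ev_sum _ fun V _ => (t V).1).2.trans (Finset.sum_congr rfl fun V _ => (t V).2)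
  have h2 := norm_pos_iff.2 hp.2.2.1
  obtain ⟨V, -, hV⟩ := Finset.exists_le_of_sum_le (s := Finset.univ) ⟨V0, Finset.mem_univ _⟩
    (f := fun _ => ‖p.ev w‖ / n) (g := fun V => ‖∏ W ∈ Finset.univ.erase V, p.ev (U.π W)‖) (by
      rw [Finset.sum_const, Finset.card_univ, nsmul_eq_mul, mul_div_cancel₀ _ hn.ne', h1]
      exact norm_sum_le _ _)
  have h3 := Finset.prod_ne_zero_iff.1 (norm_pos_iff.1 ((div_pos h2 hn).trans_le hV))
  have h4 := Real.log_le_log (div_pos h2 hn) hV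
  rw [Real.log_div h2.ne' hn.ne', norm_prod, Real.log_prod fun W hW => norm_ne_zero_iff.2 (h3 W hW)]
    at h4
  have h5 : ∀ W ∈ Finset.univ.erase V, Real.log ‖p.ev (U.π W)‖ ≤ Real.log A := fun W hW =>
    Real.log_le_log (norm_pos_iff.2 (h3 W hW)) (hp.1 W).2
  refine ⟨V, fun W hW => ?_⟩
  have hW' : W ∈ Finset.univ.erase V := by simpa using hW
  have h6 := Finset.sum_le_card_nsmul ((Finset.univ.erase V).erase W) _ _
    fun T hT => h5 T (Finset.mem_of_mem_erase hT)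
  have h7 : (((Finset.univ.erase V).erase W).card : ℝ) ≤ n := Nat.cast_le.2 (Finset.card_le_univ _)
  rw [← Finset.add_sum_erase _ _ hW'] at h4
  rw [nsmul_eq_mul] at h6
  have h8 := mul_le_mul_of_nonneg_right h7 hA0
  have h9 := abs_le.1 hp.2.2.2
  refine ⟨h3 W hW', abs_le.2 ⟨?_, ?_⟩⟩
  · linarith [le_abs_self (Real.log n)]
  · nlinarith [h5 W hW', abs_nonneg (Real.log n)]

/-- the logarithmic form of `asym` -/
theorem Uni.gen_log (s : Finset M) (hs : (0 : M) ∉ s) : N.Gen fun A p => 1 ≤ ‖N.L p‖ ∧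
    ∃ V : N.DD, ∀ φ ∈ s, p.Reg φ ∧ p.ev φ ≠ 0 ∧
      |Real.log ‖p.ev φ‖ + (U.od V φ : ℝ) / U.e V * Real.log ‖N.L p‖| ≤ A := by
  classical
  have := N.finite_DD
  have := Fintype.ofFinite N.DD
  have hl : (N.l j0 : M) ≠ 0 := N.basis.1.ne_zero j0
  let m : M → M := fun φ => ∏ V, U.π V ^ U.od V φ
  have hm : ∀ φ, m φ ≠ 0 := fun φ => Finset.prod_ne_zero_iff.2 fun V _ => zpow_ne_zero _ (U.ne V)
  have hu : ∀ φ, φ ≠ 0 → ∀ V : N.DD, V.1.valuation (φ / m φ) = 1 := fun φ h V => by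
    rw [map_div₀, map_prod, Finset.prod_eq_single V (fun W _ hW => by
      rw [map_zpow₀, U.unit W V hW.symm, one_zpow]) (by simp), map_zpow₀, ← U.val V φ h]
    exact div_self ((Valuation.ne_zero_iff _).2 h)
  let s' := insert (N.l j0 : M) s
  have hs' : ∀ φ ∈ s', φ ≠ 0 := fun φ h => by
    rcases Finset.mem_insert.1 h with rfl | h
    · exact hl
    · exact fun e => hs (e ▸ h)
  let n : ℝ := ∑ φ ∈ s', ∑ V, |(U.od V φ : ℝ)|
  have hn : ∀ φ ∈ s', ∑ V, |(U.od V φ : ℝ)| ≤ n := fun φ h => Finset.single_le_sum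
    (f := fun φ => ∑ V, |(U.od V φ : ℝ)|) (fun _ _ => Finset.sum_nonneg fun _ _ => abs_nonneg _) h
  refine (((Gen.fin s' fun φ h => U.gen_unit (div_ne_zero (hs' φ h) (hm φ)) (hu φ (hs' φ h))).and
    U.gen_type).and (N.gen_l j0)).mono fun A hA =>
    (eventually_ge_atTop (A + n * A + n * (A + n * A + A))).mono fun A' hA' p hp => ⟨hp.2.1, ?_⟩
  obtain ⟨⟨h1, h2, V, h3⟩, -, h4, h5⟩ := hp
  have h6 : ∀ W, p.ev (U.π W) ≠ 0 := fun W => by
    have e : (N.l j0 : M) / m (N.l j0) = N.l j0 * ∏ W, U.π W ^ U.e W := by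
      simp only [m, U.od_l, zpow_neg, zpow_natCast, Finset.prod_inv_distrib, div_inv_eq_mul]
    have t := p.ev_prod Finset.univ fun W _ => (p.ev_pow (h2 W) (U.e W)).1
    have k := (h1 _ (Finset.mem_insert_self _ _)).2.1
    rw [e, (p.ev_mul (p.reg_coe _) t.1).2, t.2] at k
    have := Finset.prod_ne_zero_iff.1 (right_ne_zero_of_mul k) W (Finset.mem_univ W)
    rw [(p.ev_pow (h2 W) _).2] at this
    exact fun h => this (by rw [h, zero_pow (U.pos W).ne'])
  have key : ∀ φ ∈ s', p.Reg φ ∧ p.ev φ ≠ 0 ∧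
      |Real.log ‖p.ev φ‖ - U.od V φ * Real.log ‖p.ev (U.π V)‖| ≤ A + n * A := fun φ h => by
    have t := p.ev_prod Finset.univ fun W _ => (p.ev_zpow (h2 W) (h6 W) (U.od W φ)).1
    have k := p.ev_mul (h1 φ h).1 t.1
    have k0 : ∀ W ∈ Finset.univ, p.ev (U.π W) ^ U.od W φ ≠ 0 := fun W _ => zpow_ne_zero _ (h6 W)
    rw [div_mul_cancel₀ φ (hm φ), t.2,
      Finset.prod_congr rfl fun W _ => (p.ev_zpow (h2 W) (h6 W) (U.od W φ)).2] at k
    refine ⟨k.1, k.2 ▸ mul_ne_zero (h1 φ h).2.1 (Finset.prod_ne_zero_iff.2 k0), ?_⟩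
    rw [k.2, norm_mul, Real.log_mul (norm_ne_zero_iff.2 (h1 φ h).2.1)
      (norm_ne_zero_iff.2 (Finset.prod_ne_zero_iff.2 k0)), norm_prod,
      Real.log_prod fun W hW => norm_ne_zero_iff.2 (k0 W hW),
      ← Finset.add_sum_erase _ _ (Finset.mem_univ V), norm_zpow, Real.log_zpow, add_sub_assoc,
      add_sub_cancel_left]
    refine (abs_add_le _ _).trans (add_le_add (h1 φ h).2.2 ((Finset.abs_sum_le_sum_abs _ _).trans ?_))
    calc _ ≤ ∑ W ∈ Finset.univ.erase V, |(U.od W φ : ℝ)| * A := Finset.sum_le_sum fun W hW => by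
          rw [norm_zpow, Real.log_zpow, abs_mul]
          exact mul_le_mul_of_nonneg_left (h3 W (Finset.ne_of_mem_erase hW)).2 (abs_nonneg _)
      _ ≤ n * A := by
          rw [← Finset.sum_mul]
          exact mul_le_mul_of_nonneg_right ((Finset.sum_le_sum_of_subset_of_nonneg
            (Finset.erase_subset _ _) fun _ _ _ => abs_nonneg _).trans (hn φ h)) (by linarith)
  refine ⟨V, fun φ h => ?_⟩
  have h' := Finset.mem_insert_of_mem (b := (N.l j0 : M)) h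
  obtain ⟨k1, k2, k3⟩ := key φ h'
  have k4 := (key _ (Finset.mem_insert_self _ _)).2.2
  have he : (1 : ℝ) ≤ U.e V := by exact_mod_cast U.pos V
  rw [U.od_l, p.ev_coe] at k4
  push_cast at k4
  have k5 : |Real.log ‖N.L p‖ + U.e V * Real.log ‖p.ev (U.π V)‖| ≤ A + n * A + A := by
    rw [abs_le] at k4 h5 ⊢
    constructor <;> linarith [k4.1, k4.2, h5.1, h5.2]
  have k6 : |(U.od V φ : ℝ) / U.e V| ≤ n := by
    rw [abs_div, abs_of_pos (one_pos.trans_le he)]
    exact (div_le_self (abs_nonneg _) he).trans ((Finset.single_le_sum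
      (f := fun V => |(U.od V φ : ℝ)|) (fun _ _ => abs_nonneg _) (Finset.mem_univ V)).trans (hn φ h'))
  refine ⟨k1, k2, le_trans ?_ hA'⟩
  have e : Real.log ‖p.ev φ‖ + (U.od V φ : ℝ) / U.e V * Real.log ‖N.L p‖ =
      (Real.log ‖p.ev φ‖ - U.od V φ * Real.log ‖p.ev (U.π V)‖) + (U.od V φ : ℝ) / U.e V *
        (Real.log ‖N.L p‖ + U.e V * Real.log ‖p.ev (U.π V)‖) := by
    field_simp
    ring
  rw [e]
  refine (abs_add_le _ _).trans (add_le_add k3 ?_)
  rw [abs_mul]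
  exact mul_le_mul k6 k5 (abs_nonneg _) ((abs_nonneg _).trans k6)

variable (N) in
/-- on the general region every point belongs to one prime at infinity -/
theorem asym {j0 : ν} (U : N.Uni j0) (s : Finset M) (hs : (0 : M) ∉ s) :
    ∃ De : MvPolynomial ν R, De ≠ 0 ∧ ∀ c : ℝ, 0 < c → ∀ Q : Set (Pt R), IsCompact Q →
      ∃ A : ℝ, 0 < A ∧ ∀ p : Pt O, p.res inc ∈ Q → (p.res inc, N.L p) ∈ Big De c →
        ∃ V : N.DD, ∀ φ ∈ s, p.Reg φ ∧
          ‖p.ev φ‖ ≤ A * ‖N.L p‖ ^ (-(U.od V φ : ℝ) / U.e V) ∧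
          ‖N.L p‖ ^ (-(U.od V φ : ℝ) / U.e V) ≤ A * ‖p.ev φ‖ := by
  obtain ⟨De, h0, h⟩ := U.gen_log s hs
  refine ⟨De, h0, fun c hc Q hQ => ?_⟩
  obtain ⟨A, hA⟩ := (h c hc Q hQ).exists
  refine ⟨Real.exp A, Real.exp_pos A, fun p hp hb => ?_⟩
  obtain ⟨h1, V, h2⟩ := hA p hp hb
  refine ⟨V, fun φ hφ => ?_⟩
  obtain ⟨h3, h4, h5⟩ := h2 φ hφ
  rw [Real.rpow_def_of_pos (one_pos.trans_le h1), ← Real.exp_log (norm_pos_iff.2 h4),
    ← Real.exp_add, ← Real.exp_add, Real.exp_le_exp, Real.exp_le_exp, neg_div]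
  exact ⟨h3, by linarith [(abs_le.1 h5).2], by linarith [(abs_le.1 h5).1]⟩

end Noe

end

end Pool.Agent.Lib.MP_5c318e_ag
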