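import Pool.Agent.Lib.MP_5c318e_ag.Np.Inf
/-! The minimal polynomial of a function over the projection: roots and degrees. -/
set_option autoImplicit false
set_option linter.unusedSectionVars false
namespace Pool.Agent.Lib.MP_5c318e_ag
open Set Polynomial
noncomputable section

theorem mv_norm (R : Type) [CommRing R] [IsDomain R] [IsIntegrallyClosed R] (ν : Type) [Finite ν] :
    IsIntegrallyClosed (MvPolynomial ν R) := by
  induction ν using Finite.induction_empty_option with
  | of_equiv e h => exact .of_equiv (MvPolynomial.renameEquiv R e).toRingEquiv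
  | h_empty => exact .of_equiv (MvPolynomial.isEmptyRingEquiv R PEmpty).symm
  | h_option h => exact .of_equiv (MvPolynomial.optionEquivLeft R _).symm.toRingEquiv

/-- an element of larger value than the scale is not a root -/
theorem val_le_of_root {P M : Type} [CommRing P] [Field M] (f : P →+* M) (V : ValuationSubring M)
    {Q : P[X]} (hQ : Q.Monic) {y : M} (h0 : Q.eval₂ f y = 0) :
    ∃ i < Q.natDegree, V.valuation y ^ Q.natDegree ≤
      V.valuation (f (Q.coeff i)) * V.valuation y ^ i := by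
  by_contra! H
  rw [eval₂_eq_sum_range, Finset.sum_range_succ, hQ.coeff_natDegree, map_one, one_mul] at h0
  rcases Nat.eq_zero_or_pos Q.natDegree with h | h
  · simp [h] at h0
  have h1 := V.valuation.map_sum_lt (s := Finset.range Q.natDegree)
    (f := fun i => f (Q.coeff i) * y ^ i) (zero_le.trans_lt (H 0 h)).ne' fun i hi => by
      rw [map_mul, map_pow]; exact H i (Finset.mem_range.1 hi)
  rw [eq_neg_of_add_eq_zero_left h0, Valuation.map_neg, map_pow] at h1
  exact h1.false

variable {R M α K ν : Type} [CommRing R] [IsDomain R] [Algebra ℂ R] [Field M] [Algebra ℂ M]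
  {O : Subalgebra ℂ M} [Field K] [Algebra R K] [IsFractionRing R K] [Algebra K M]
  {inc : R →ₐ[ℂ] O} {z : α → O} [Fintype ν] [DecidableEq ν]

namespace Noe
variable (N : Noe K inc ν z)

theorem O_le {V : ValuationSubring M} (h1 : ∀ q, N.emM q ∈ V) (h2 : (inc N.h : M)⁻¹ ∈ V) (g : O) :
    (g : M) ∈ V :=
  have h3 : ∀ r, (inc r : M) ∈ V := fun r => N.emM_C r ▸ h1 _
  NpN.mem_of_gen N.gen (V := V.toSubring) h3 (fun a => (V.valuation_le_one_iff _).1
    (N.dom V h3 h2 1 le_rfl (fun j => (V.valuation_le_one_iff _).2 (N.emM_X j ▸ h1 _)) a)) g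

theorem exists_int (g : O) : ∃ e : ℕ, N.emM.IsIntegralElem ((inc N.h ^ e * g : O) : M) := by
  let _ := N.emM.toAlgebra
  have hu : IsUnit (N.emM (MvPolynomial.C N.h)) :=
    (N.emM_ne (MvPolynomial.C_ne_zero.2 N.ne)).isUnit
  let A := Localization.Away (MvPolynomial.C N.h : MvPolynomial ν R)
  let _ : Algebra A M := (IsLocalization.Away.lift _ hu).toAlgebra
  have e1 : ∀ q, algebraMap A M (algebraMap _ A q) = N.emM q := IsLocalization.Away.lift_eq _ hu
  have : IsScalarTower (MvPolynomial ν R) A M := .of_algebraMap_eq fun a => (e1 a).symm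
  have h1 : IsIntegral A (g : M) := int_of_val fun V hV => N.O_le (fun q => e1 q ▸ hV _) (by
    have := congrArg (algebraMap A M)
      (IsLocalization.Away.mul_invSelf (S := A) (MvPolynomial.C N.h : MvPolynomial ν R))
    rw [map_mul, e1, map_one, emM_C] at this
    exact inv_eq_of_mul_eq_one_right this ▸ hV _) g
  obtain ⟨⟨_, e, rfl⟩, hm⟩ := IsIntegral.exists_multiple_integral_of_isLocalization
    (Submonoid.powers (MvPolynomial.C N.h : MvPolynomial ν R)) _ h1
  refine ⟨e, ?_⟩
  rw [Submonoid.smul_def, Algebra.smul_def, map_pow, RingHom.algebraMap_toAlgebra, emM_C] at hm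
  exact hm

theorem coe_eval₂ (y : O) (F : (MvPolynomial ν R)[X]) :
    ((F.eval₂ N.em y : O) : M) = F.eval₂ N.emM y := hom_eval₂ F N.em (O.val : O →+* M) y

theorem pt_eval₂ (p : Pt O) (y : O) (F : (MvPolynomial ν R)[X]) :
    p (F.eval₂ N.em y) = F.eval₂ (evP (p.res inc) (N.L p)) (p y) := by
  rw [← show (p.hom : O →+* ℂ).comp N.em = _ from RingHom.ext (N.ev_em p)]
  exact hom_eval₂ F N.em (p.hom : O →+* ℂ) y

/-- a point of the subring generated by `l` and `y` lifts -/
theorem lift_pt [Algebra.FiniteType ℂ O] {y : O} {b : Pt R} {a : ν → ℂ} {s : ℂ} (hb : b N.h ≠ 0)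
    (H : ∀ F : (MvPolynomial ν R)[X], F.eval₂ N.emM y = 0 → F.eval₂ (evP b a) s = 0) :
    ∃ p : Pt O, p.res inc = b ∧ N.L p = a ∧ p y = s := by
  let φ := eval₂RingHom N.emM (y : M)
  let ev := eval₂RingHom (evP b a) s
  obtain ⟨V, hA, hI⟩ := Ideal.image_subset_nonunits_valuationSubring
    ((RingHom.ker ev).map φ.rangeRestrict) fun h => by
      obtain ⟨F, h1, h2⟩ := (Ideal.mem_map_iff_of_surjective _ φ.rangeRestrict_surjective).1
        ((Ideal.eq_top_iff_one _).1 h)
      have h3 : ev (F - 1) = 0 := H _ (show φ (F - 1) = 0 by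
        rw [map_sub, map_one, show φ F = 1 from congrArg Subtype.val h2, sub_self])
      rw [map_sub, map_one, show ev F = 0 from h1] at h3
      simp at h3
  have hc : ∀ c : ℂ, φ (C (MvPolynomial.C (algebraMap ℂ R c))) = algebraMap ℂ M c := fun c => by
    simp [φ, emM_C]
  have key : ∀ F, V.valuation (φ F - algebraMap ℂ M (ev F)) < 1 := fun F => by
    rw [← hc, ← map_sub, ← V.mem_nonunits_iff]
    exact hI ⟨_, Ideal.mem_map_of_mem _ (by simp [ev, evP, RingHom.mem_ker]), rfl⟩
  have hO := N.O_le (V := V) (fun q => hA ⟨C q, by simp [φ]⟩) (by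
    have h1 := key (C (MvPolynomial.C N.h))
    have h2 : V.valuation (algebraMap ℂ M (b N.h))⁻¹ ≤ 1 :=
      (V.valuation_le_one_iff _).2 (hA ⟨_, (hc _).trans (map_inv₀ _ _)⟩)
    rw [map_inv₀, inv_le_one₀ (zero_lt_iff.2 (by simpa using hb))] at h2
    simp only [φ, ev, coe_eval₂RingHom, eval₂_C, emM_C, evP, MvPolynomial.eval₂Hom_C,
      RingHom.coe_coe, Pt.hom_apply] at h1
    rw [← V.valuation_le_one_iff, map_inv₀]
    exact inv_le_one_of_one_le₀ (h2.trans (V.valuation.map_eq_of_sub_lt (h1.trans_le h2)).ge))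
  obtain ⟨p, hp⟩ := Pt.exists_zero (O := O) (I := (IsLocalRing.maximalIdeal V).comap
    (O.val.toRingHom.codRestrict V.toSubring hO)) (Ideal.comap_isPrime _ _).ne_top
  have fin : ∀ F, p (F.eval₂ N.em y) = ev F := fun F => by
    have := hp (F.eval₂ N.em y - algebraMap ℂ O (ev F)) (by
      rw [Ideal.mem_comap, V.valuation_lt_one_iff]
      have := key F
      rwa [show φ F = _ from (N.coe_eval₂ y F).symm] at this)
    simpa [sub_eq_zero] using this
  refine ⟨p, Pt.ext fun r => ?_, funext fun j => ?_, ?_⟩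
  · simpa [ev, em, evP] using fin (C (MvPolynomial.C r))
  · simpa [ev, em, evP, L] using fin (C (MvPolynomial.X j))
  · simpa [ev] using fin X

theorem Inf.val_em_le {N : Noe K inc ν z} {V : ValuationSubring M} (h : N.Inf V) (j : ν)
    {q : MvPolynomial ν R} {n : ℕ} (hq : q.totalDegree ≤ n) :
    V.valuation (N.emM q) ≤ V.valuation (N.l j : M) ^ n := by
  by_cases h0 : q = 0
  · simp [h0]
  · rw [h.val_em j h0]
    exact pow_le_pow_right₀ (h.one_lt j).le hq

theorem Inf.val_inc {N : Noe K inc ν z} {V : ValuationSubring M} (h : N.Inf V) {r : R}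
    (hr : r ≠ 0) : V.valuation (inc r : M) = 1 :=
  N.inc_eq r ▸ h.val_base ((map_ne_zero_iff _ (IsFractionRing.injective R K)).2 hr)

variable [IsIntegrallyClosed R] [Algebra.FiniteType ℂ O]

/-- `exists_min` with the equation in the field -/
theorem exists_min' : ∃ d : ℕ, ∀ g : O, ∃ (e : ℕ) (Q : (MvPolynomial ν R)[X]), Q.Monic ∧
    0 < Q.natDegree ∧ Q.natDegree ≤ d ∧ Q.eval₂ N.emM ((inc N.h ^ e * g : O) : M) = 0 ∧
    (∀ b a s, b N.h ≠ 0 → (Q.eval₂ (evP b a) s = 0 ↔
      ∃ p : Pt O, p.res inc = b ∧ N.L p = a ∧ b N.h ^ e * p g = s)) ∧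
    ∀ k, N.Deg g k ↔ ∀ i, (Q.coeff i).totalDegree ≤ (Q.natDegree - i) * k := by
  let _ := N.emM.toAlgebra
  let _ := N.emF.toAlgebra
  have := N.fin
  have := mv_norm R ν
  have : IsScalarTower (MvPolynomial ν R) (FractionRing (MvPolynomial ν R)) M :=
    .of_algebraMap_eq fun q => (N.emF_map q).symm
  have : FaithfulSMul (MvPolynomial ν R) M := (faithfulSMul_iff_algebraMap_injective _ _).2 N.emM_inj
  refine ⟨Module.finrank (FractionRing (MvPolynomial ν R)) M, fun g => ?_⟩
  obtain ⟨e, he⟩ := N.exists_int g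
  have hy : ∀ V, N.Inf V → V.valuation ((inc N.h ^ e * g : O) : M) = V.valuation (g : M) :=
    fun V hV => by simp [hV.val_inc N.ne]
  have hp : ∀ p : Pt O, p (inc N.h ^ e * g) = p.res inc N.h ^ e * p g := fun p => by simp
  obtain ⟨y, hyy⟩ : ∃ y, y = inc N.h ^ e * g := ⟨_, rfl⟩
  rw [← hyy] at he hy hp
  replace he : IsIntegral (MvPolynomial ν R) (y : M) := he
  have hF := minpoly.isIntegrallyClosed_eq_field_fractions' (FractionRing (MvPolynomial ν R)) he
  have hd : (minpoly (FractionRing (MvPolynomial ν R)) (y : M)).natDegree = _ :=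
    hF ▸ (minpoly.monic he).natDegree_map _
  have h0 : (minpoly (MvPolynomial ν R) (y : M)).eval₂ N.emM y = 0 := minpoly.aeval _ _
  refine ⟨e, _, minpoly.monic he, minpoly.natDegree_pos he, hd ▸ minpoly.natDegree_le _, hyy ▸ h0,
    fun b a s hb => ⟨fun h => ?_, ?_⟩, fun k => ⟨fun h i => ?_, fun h V hV j => ?_⟩⟩
  · obtain ⟨p, h1, h2, h3⟩ := N.lift_pt (y := y) (a := a) (s := s) hb fun F hF => by
      obtain ⟨G, rfl⟩ := minpoly.isIntegrallyClosed_dvd he (p := F) hF
      rw [eval₂_mul, h, zero_mul]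
    exact ⟨p, h1, h2, by rw [← h1, ← hp, h3]⟩
  · rintro ⟨p, rfl, rfl, rfl⟩
    rw [← hp, ← N.pt_eval₂, show eval₂ N.em y _ = 0 from
      Subtype.ext ((N.coe_eval₂ _ _).trans h0), map_zero]
  · rcases isEmpty_or_nonempty ν with hν | ⟨⟨j⟩⟩
    · rw [MvPolynomial.eq_C_of_isEmpty (coeff _ i), MvPolynomial.totalDegree_C]
      exact Nat.zero_le _
    let A := (NpI.dF (K := R) (ν := ν)).valuationSubring
    let _ := (N.emF.comp A.subtype).toAlgebra
    have : IsScalarTower A (FractionRing (MvPolynomial ν R)) M := .of_algebraMap_eq fun _ => rfl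
    have hl := pow_ne_zero k (N.l_ne j)
    have h1 : IsIntegral A ((y : M) / N.l j ^ k) := N.int_dF fun V hV => by
      rw [← V.valuation_le_one_iff, map_div₀, hy V hV, map_pow]
      exact div_le_one_of_le₀ (h V hV j) zero_le
    have hX : ∀ n, (MvPolynomial.X j ^ n : MvPolynomial ν R) ≠ 0 := fun n =>
      pow_ne_zero _ (MvPolynomial.X_ne_zero j)
    have ht := fun n => (map_ne_zero_iff _ (IsFractionRing.injective (MvPolynomial ν R)
      (FractionRing (MvPolynomial ν R)))).2 (hX n)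
    have h2 := IsIntegrallyClosed.minpoly_smul (ht k) (h1.tower_top)
    rw [Algebra.smul_def, ← IsScalarTower.algebraMap_apply, RingHom.algebraMap_toAlgebra, map_pow,
      emM_X, mul_div_cancel₀ _ hl] at h2
    have h3 := congrArg (coeff · i) h2
    have h4 := congrArg natDegree h2
    rw [natDegree_scaleRoots, hd] at h4
    simp only [coeff_scaleRoots, ← h4] at h3
    rw [hF, minpoly.isIntegrallyClosed_eq_field_fractions' _ h1, coeff_map, coeff_map, ← map_pow,
      ← pow_mul] at h3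
    rw [mul_comm, ← MvPolynomial.totalDegree_X_pow (R := R) j (k * _)]
    refine NpI.deg_le (hX _) ?_
    rw [h3, mul_div_cancel_right₀ _ (ht _)]
    exact SetLike.coe_mem _
  · obtain ⟨i, hi, h1⟩ := val_le_of_root N.emM V (minpoly.monic he) h0
    rw [← hy V hV]
    by_contra! h2
    have h3 := zero_le.trans_lt h2
    have h4 := h1.trans (mul_le_mul_left (hV.val_em_le j (h i)) _)
    rw [← div_le_iff₀ (pow_pos h3 _), div_eq_mul_inv, ← pow_sub₀ _ h3.ne' hi.le, mul_comm, pow_mul] at h4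
    exact (pow_lt_pow_left₀ h2 zero_le (Nat.sub_ne_zero_of_lt hi)).not_ge h4

/-- the roots of the minimal polynomial are the values on the fibre of the projection -/
theorem exists_min : ∃ d : ℕ, ∀ g : O, ∃ (e : ℕ) (Q : (MvPolynomial ν R)[X]), Q.Monic ∧
    0 < Q.natDegree ∧ Q.natDegree ≤ d ∧
    (∀ b a s, b N.h ≠ 0 → (Q.eval₂ (evP b a) s = 0 ↔
      ∃ p : Pt O, p.res inc = b ∧ N.L p = a ∧ b N.h ^ e * p g = s)) ∧
    ∀ k, N.Deg g k ↔ ∀ i, (Q.coeff i).totalDegree ≤ (Q.natDegree - i) * k :=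
  N.exists_min'.imp fun _ h g =>
    let ⟨e, Q, h1, h2, h3, _, h4⟩ := h g
    ⟨e, Q, h1, h2, h3, h4⟩

end Noe

end
end Pool.Agent.Lib.MP_5c318e_ag
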