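import Pool.Agent.Lib.MP_5c318e_ag.Np.Gen
import Pool.Agent.Lib.MP_5c318e_ag.Np.Min

/-! Every prime at infinity is seen over every far point of the general region. -/

set_option autoImplicit false

namespace Pool.Agent.Lib.MP_5c318e_ag

open Set Filter Topology Polynomial

noncomputable section

variable {R M α K ν : Type} [CommRing R] [Algebra ℂ R] [Field M] [Algebra ℂ M]
  {O : Subalgebra ℂ M} [Field K] [Algebra R K] [Algebra K M]
  {inc : R →ₐ[ℂ] O} {z : α → O} [Fintype ν] [DecidableEq ν]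

namespace Noe

variable {N : Noe K inc ν z} {j0 : ν} (U : N.Uni j0)

/-- the elements of `s` have at `p` the sizes given by their orders at `V` -/
def Uni.Typ (s : Finset M) (A : ℝ) (V : N.DD) (p : Pt O) : Prop :=
  ∀ φ ∈ s, p.Reg φ ∧ ‖p.ev φ‖ ≤ A * ‖N.L p‖ ^ (-(U.od V φ : ℝ) / U.e V) ∧
    ‖N.L p‖ ^ (-(U.od V φ : ℝ) / U.e V) ≤ A * ‖p.ev φ‖

variable {U} in
theorem Uni.Typ.mono {s s' : Finset M} {A A' : ℝ} {V : N.DD} {p : Pt O} (h : U.Typ s A V p)
    (hs : s' ⊆ s) (hA : A ≤ A') : U.Typ s' A' V p := fun φ hφ =>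
  ⟨(h φ (hs hφ)).1, (h φ (hs hφ)).2.1.trans (mul_le_mul_of_nonneg_right hA (by positivity)),
    (h φ (hs hφ)).2.2.trans (mul_le_mul_of_nonneg_right hA (norm_nonneg _))⟩

omit [DecidableEq ν] [Fintype ν] in
variable (N) in
theorem cont_L : Continuous N.L := continuous_pi fun _ => Pt.continuous_apply _

theorem Uni.meas_typ (s : Finset M) (A : ℝ) (V : N.DD) : MeasurableSet {p | U.Typ s A V p} := by
  have h : ∀ t : ℝ, Measurable fun p : Pt O => ‖N.L p‖ ^ t := fun t =>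
    N.cont_L.norm.measurable.pow_const t
  simp only [Uni.Typ, ofPred_forall]
  exact s.measurableSet_biInter fun φ _ => (Pt.isOpen_reg φ).measurableSet.inter
    ((measurableSet_le (Pt.measurable_ev φ).norm ((h _).const_mul A)).inter
      (measurableSet_le (h _) ((Pt.measurable_ev φ).norm.const_mul A)))

omit [Fintype ν] in
theorem Uni.od_eq {V : N.DD} {φ : M} (h0 : φ ≠ 0) {k : ℤ}
    (h : V.1.valuation φ = V.1.valuation (U.π V) ^ k) : U.od V φ = k :=
  zpow_right_injective₀ (U.vpos V) (U.lt V).ne ((U.val V φ h0).symm.trans h)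

omit [Fintype ν] in
theorem Uni.od_self (V : N.DD) : U.od V (U.π V) = 1 := U.od_eq (U.ne V) (zpow_one _).symm

omit [Fintype ν] in
theorem Uni.od_other {V W : N.DD} (h : W ≠ V) : U.od W (U.π V) = 0 :=
  U.od_eq (U.ne V) ((U.unit V W h).trans (zpow_zero _).symm)

variable {U} in
/-- far points have only one type -/
theorem Uni.Typ.uniq {s : Finset M} {A : ℝ} {V W : N.DD} {p : Pt O} (h : U.Typ s A V p)
    (h' : U.Typ s A W p) (hs : U.π V ∈ s) (hne : W ≠ V) (hp : 0 < ‖N.L p‖) :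
    ‖N.L p‖ ≤ (A * A) ^ U.e V := by
  have h1 := (h _ hs).2.1
  have h2 := (h' _ hs).2.2
  rw [U.od_other hne, Int.cast_zero, neg_zero, zero_div, Real.rpow_zero] at h2
  rw [U.od_self, Int.cast_one, neg_div, Real.rpow_neg hp.le, one_div] at h1
  have hA : 0 ≤ A := by
    by_contra hn
    nlinarith [norm_nonneg (p.ev (U.π V))]
  have h3 := h2.trans (mul_le_mul_of_nonneg_left h1 hA)
  rw [← mul_assoc, le_mul_inv_iff₀ (Real.rpow_pos_of_pos hp _), one_mul] at h3
  rw [← Real.rpow_inv_natCast_pow hp.le (U.pos V).ne']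
  exact pow_le_pow_left₀ (by positivity) h3 _

variable [IsDomain R] [IsFractionRing R K]

omit [Fintype ν] [DecidableEq ν] [IsDomain R] in
theorem Inf.val_em2 {V : ValuationSubring M} (h : N.Inf V) (j : ν) {q : MvPolynomial ν R}
    (hq : q ≠ 0) : 1 < V.valuation (N.l j : M) ∧
      V.valuation (N.em q : M) = V.valuation (N.l j : M) ^ q.totalDegree := by
  obtain ⟨γ, h1, h⟩ := h
  have e : V.valuation (N.l j : M) = γ := by
    simpa using h (MvPolynomial.X j) (MvPolynomial.X_ne_zero j)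
  have hi := IsFractionRing.injective R K
  rw [e, N.em_aeval, h _ fun h0 => hq (MvPolynomial.map_injective _ hi (h0.trans (map_zero _).symm)),
    MvPolynomial.totalDegree, MvPolynomial.support_map_of_injective _ hi]
  exact ⟨h1, rfl⟩

variable [IsIntegrallyClosed R] [Algebra.FiniteType ℂ O]

theorem Uni.gen_typ (s : Finset M) (hs : (0 : M) ∉ s) : N.Gen fun A p => ∃ V, U.Typ s A V p := by
  obtain ⟨De, h0, h⟩ := N.asym U s hs
  refine ⟨De, h0, fun c hc Q hQ => ?_⟩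
  obtain ⟨A, -, hA⟩ := h c hc Q hQ
  exact (eventually_ge_atTop A).mono fun A' h' p hp hb =>
    (hA p hp hb).imp fun V hV => Uni.Typ.mono hV Subset.rfl h'

/-- a multiple of the uniformiser that is small at some point of every fibre -/
theorem Uni.exists_small (V : N.DD) : ∃ β : MvPolynomial ν R, β ≠ 0 ∧ ∀ Q : Set (Pt R),
    IsCompact Q → (∀ b ∈ Q, b N.h ≠ 0) → ∀ ε : ℝ, 0 < ε → ∃ ρ0 : ℝ, ∀ b ∈ Q, ∀ a, ρ0 ≤ ‖a‖ →
      ∃ p : Pt O, p.res inc = b ∧ N.L p = a ∧
        (p.Reg (U.π V) → ‖p.ev (U.π V)‖ * ‖p (N.em β)‖ < ε * ‖a‖ ^ β.totalDegree) := by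
  obtain ⟨a0, b0, hb0, e0⟩ := N.frac (U.π V)
  obtain ⟨β, hβ, t, et⟩ := U.exists_dvd hb0
  obtain ⟨g, eg⟩ : ∃ g : O, U.π V * N.em β = g :=
    ⟨a0 * t, by rw [et]; push_cast; rw [← mul_assoc, e0]⟩
  obtain ⟨d, hd⟩ := N.exists_min
  obtain ⟨e, P, hm, hn, -, hr, hk⟩ := hd g
  have hdeg := (hk β.totalDegree).1 fun W hW j => by
    rw [← eg, map_mul, (hW.val_em2 j hβ).2]
    exact mul_le_of_le_one_left' ((W.valuation_le_one_iff _).2 (U.mem V ⟨W, hW⟩))
  have hh : (inc N.h : M) ≠ 0 := by simpa [em] using em_ne (N := N) (MvPolynomial.C_ne_zero.2 N.ne)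
  have hP : P.eval₂ N.em (inc N.h ^ e * g) = 0 := by
    by_contra hz
    have h1 : inc N.h * P.eval₂ N.em (inc N.h ^ e * g) ∉ (⊥ : Ideal O).radical := fun ⟨n, h⟩ =>
      pow_ne_zero n (mul_ne_zero (fun h => hh (congrArg Subtype.val h)) hz) h
    obtain ⟨p, -, hp⟩ := Pt.exists_zero_ne h1
    rw [map_mul] at hp
    refine right_ne_zero_of_mul hp ?_
    have h2 := (hr (p.res inc) (N.L p) _ (left_ne_zero_of_mul hp)).2 ⟨p, rfl, rfl, rfl⟩
    rw [show evP (p.res inc) (N.L p) = (p.hom : O →+* ℂ).comp N.em from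
      RingHom.ext fun q => (N.pt_em p q).symm] at h2
    refine (hom_eval₂ P N.em (p.hom : O →+* ℂ) _).trans (Eq.trans ?_ h2)
    simp
  have hc : P.coeff 0 = 0 ∨ (P.coeff 0).totalDegree + 1 ≤ P.natDegree * β.totalDegree := by
    refine (eq_or_ne _ _).imp_right fun h0 => ?_
    obtain ⟨h1, h2⟩ := V.2.val_em2 j0 h0
    obtain ⟨γ, hγ⟩ : ∃ γ, γ = V.1.valuation (N.l j0 : M) := ⟨_, rfl⟩
    have hg : V.1.valuation ((inc N.h ^ e * g : O) : M) < γ ^ β.totalDegree := by
      have h3 : V.1.valuation (inc N.h : M) = 1 := by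
        simpa [em] using (V.2.val_em2 j0 (MvPolynomial.C_ne_zero.2 N.ne)).2
      push_cast
      rw [map_mul, map_pow, h3, one_pow, one_mul, ← eg, map_mul, (V.2.val_em2 j0 hβ).2, ← hγ]
      exact mul_lt_of_lt_one_left (pow_pos (hγ ▸ one_pos.trans h1) _) (U.lt V)
    rw [← hγ] at h1 h2
    rw [Nat.succ_le_iff, ← pow_lt_pow_iff_right₀ h1, ← h2]
    rw [eval₂_eq_sum_range, Finset.sum_range_succ', pow_zero, mul_one] at hP
    rw [eq_neg_of_add_eq_zero_right hP]
    push_cast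
    rw [Valuation.map_neg]
    refine Valuation.map_sum_lt _ (pow_pos (one_pos.trans h1) _).ne' fun i hi => ?_
    have hi' := Finset.mem_range.1 hi
    by_cases hz : P.coeff (i + 1) = 0
    · simpa [hz] using pow_pos (one_pos.trans h1) _
    rw [map_mul, map_pow, (V.2.val_em2 j0 hz).2, ← hγ]
    push_cast at hg
    calc _ < γ ^ (P.coeff (i + 1)).totalDegree * (γ ^ β.totalDegree) ^ (i + 1) :=
          mul_lt_mul_of_pos_left (pow_lt_pow_left₀ hg zero_le i.succ_ne_zero)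
            (pow_pos (one_pos.trans h1) _)
      _ ≤ _ := by
          rw [← pow_mul, ← pow_add]
          refine pow_le_pow_right₀ h1.le ((Nat.add_le_add_right (hdeg _) _).trans (le_of_eq ?_))
          rw [mul_comm β.totalDegree, ← add_mul, Nat.sub_add_cancel hi']
  refine ⟨β, hβ, fun Q hQ h0 ε hε => ?_⟩
  obtain ⟨η, hη, hQ'⟩ : ∃ η : ℝ, 0 < η ∧ ∀ b ∈ Q, η ≤ ‖b N.h ^ e‖ := by
    rcases Q.eq_empty_or_nonempty with rfl | hne
    · exact ⟨1, one_pos, by simp⟩
    obtain ⟨b, hb, h⟩ := hQ.exists_isMinOn hne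
      (f := fun b : Pt R => ‖b N.h ^ e‖) ((Pt.continuous_apply _).pow e).norm.continuousOn
    exact ⟨_, norm_pos_iff.2 (pow_ne_zero e (h0 b hb)), h⟩
  obtain ⟨C, hC, hb⟩ := evP_size (P.coeff 0) hQ
  refine ⟨1 + C / (η * ε) ^ P.natDegree, fun b hq a ha => ?_⟩
  by_contra hn'
  push Not at hn'
  have hp0 : 0 < (η * ε) ^ P.natDegree := by positivity
  have ha1 : 1 ≤ ‖a‖ := le_trans (le_add_of_nonneg_right (by positivity)) ha
  have ha0 : 0 < ‖a‖ := one_pos.trans_le ha1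
  have hm' := hm.map (evP b a)
  have hs := IsAlgClosed.splits (P.map (evP b a))
  have h1 : (η * ε * ‖a‖ ^ β.totalDegree) ^ P.natDegree ≤ ‖evP b a (P.coeff 0)‖ := by
    rw [← coeff_map, hs.coeff_zero_eq_prod_roots_of_monic hm', norm_mul, norm_pow, norm_neg,
      norm_one, one_pow, one_mul, ← hm.natDegree_map (evP b a), hs.natDegree_eq_card_roots]
    have h2 : ∀ r ∈ (P.map (evP b a)).roots, η * ε * ‖a‖ ^ β.totalDegree ≤ ‖r‖ := fun r h => by
      obtain ⟨p, e1, e2, rfl⟩ := (hr b a r (h0 b hq)).1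
        (by rw [← eval_map]; exact (mem_roots hm'.ne_zero).1 h)
      obtain ⟨k1, k2⟩ := hn' p e1 e2
      rw [← p.ev_coe g, ← eg, (p.ev_mul k1 (p.reg_coe _)).2, p.ev_coe, norm_mul, norm_mul, mul_assoc]
      exact mul_le_mul (hQ' b hq) k2 (by positivity) (norm_nonneg _)
    generalize (P.map (evP b a)).roots = T at h2
    induction T using Multiset.induction_on with
    | empty => simp
    | cons r T ih =>
      rw [Multiset.card_cons, Multiset.prod_cons, norm_mul, pow_succ']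
      exact mul_le_mul (h2 r (Multiset.mem_cons_self r T))
        (ih fun r h => h2 r (Multiset.mem_cons_of_mem h)) (by positivity) (norm_nonneg _)
  rcases hc with hc | hc
  · rw [hc, map_zero, norm_zero] at h1
    exact absurd h1 (not_le.2 (by positivity))
  obtain ⟨D, hD⟩ : ∃ D, P.natDegree * β.totalDegree = D + 1 := ⟨_, (Nat.sub_add_cancel (by omega)).symm⟩
  have h3 := h1.trans (hb b hq a ha1 D (by omega))
  rw [mul_pow, ← pow_mul, mul_comm β.totalDegree, hD, pow_succ', ← mul_assoc,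
    mul_le_mul_iff_left₀ (pow_pos ha0 _), mul_comm, ← le_div_iff₀ hp0] at h3
  linarith

variable (N) in
/-- every point of the general region has a type, and every type occurs over every far point -/
theorem lab {j0 : ν} (U : N.Uni j0) (s : Finset M) (hs : (0 : M) ∉ s) :
    ∃ De : MvPolynomial ν R, De ≠ 0 ∧ ∀ c : ℝ, 0 < c → ∀ Q : Set (Pt R), IsCompact Q →
      (∀ b ∈ Q, b N.h ≠ 0) → ∃ A : ℝ, 1 ≤ A ∧ ∃ ρ0 : ℝ,
        (∀ p : Pt O, p.res inc ∈ Q → (p.res inc, N.L p) ∈ Big De c → ∃ V, U.Typ s A V p) ∧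
        ∀ V, ∀ b ∈ Q, ∀ a, (b, a) ∈ Big De c → ρ0 ≤ ‖a‖ →
          ∃ p : Pt O, p.res inc = b ∧ N.L p = a ∧ U.Typ s A V p := by
  classical
  have := N.finite_DD
  have := Fintype.ofFinite N.DD
  choose β hβ hs' using U.exists_small
  obtain ⟨De, h0, h⟩ := (U.gen_typ (s ∪ Finset.univ.image U.π) (by
    simpa [hs] using fun V => U.ne V)).and (Gen.all fun V => N.gen_em (hβ V))
  refine ⟨De, h0, fun c hc Q hQ hh => ?_⟩
  obtain ⟨A, hA, h1⟩ := ((h c hc Q hQ).and (eventually_ge_atTop 1)).exists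
  have hA0 : 0 < A := one_pos.trans_le h1
  choose ρ hρ using fun V => hs' V Q hQ hh (A * A)⁻¹ (by positivity)
  obtain ⟨ρ0, hρ0⟩ := (Set.finite_range ρ).bddAbove
  refine ⟨A, h1, ρ0, fun p hp hb => (hA p hp hb).1.imp fun V hV =>
    hV.mono Finset.subset_union_left le_rfl, fun V b hb a ha hr => ?_⟩
  obtain ⟨p, rfl, rfl, e⟩ := hρ V b hb a ((hρ0 ⟨V, rfl⟩).trans hr)
  obtain ⟨⟨W, hW⟩, h2⟩ := hA p hb ha
  refine ⟨p, rfl, rfl, ?_⟩
  by_cases hWV : W = V
  · exact hWV ▸ hW.mono Finset.subset_union_left le_rfl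
  obtain ⟨k1, -, k2⟩ := hW (U.π V) (by simp)
  rw [U.od_other hWV, Int.cast_zero, neg_zero, zero_div, Real.rpow_zero] at k2
  have k3 := mul_le_mul k2 (h2 V).2 (by positivity) (by positivity)
  have k4 := e k1
  rw [lt_inv_mul_iff₀ (by positivity)] at k4
  exact absurd k4 (not_lt.2 (by linarith))

end Noe

end

end Pool.Agent.Lib.MP_5c318e_ag
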