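import Pool.Agent.Lib.MP_5c318e_ag.Np.Min
import Pool.Agent.Lib.MP_5c318e_ag.Um.Sym
/-! Moving a point inside one box of the base of a finite linear projection. -/

set_option autoImplicit false
set_option linter.unusedSectionVars false

namespace Pool.Agent.Lib.MP_5c318e_ag

open Set MeasureTheory Filter Topology Polynomial Metric

variable {R M α K ν : Type} [CommRing R] [IsDomain R] [Algebra ℂ R] [Field M] [Algebra ℂ M]
  {O : Subalgebra ℂ M} [Field K] [Algebra R K] [IsFractionRing R K] [Algebra K M]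
  {inc : R →ₐ[ℂ] O} {z : α → O} [Fintype ν] [DecidableEq ν]

theorem evP_diff {E : Type} [NormedAddCommGroup E] [NormedSpace ℂ E] {β : E → Pt R}
    {x : E × (ν → ℂ)} (h : ∀ σ : R, DifferentiableAt ℂ (fun y => β y σ) x.1)
    (q : MvPolynomial ν R) : DifferentiableAt ℂ (fun x : E × (ν → ℂ) => evP (β x.1) x.2 q) x := by
  induction q using MvPolynomial.induction_on with
  | C c =>
    simp only [evP, MvPolynomial.eval₂Hom_C]
    exact (h c).comp x differentiableAt_fst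
  | add p q hp hq => simpa only [map_add] using hp.fun_add hq
  | mul_X p i hp =>
    simp only [map_mul]
    refine hp.fun_mul ?_
    simp only [evP, MvPolynomial.eval₂Hom_X']
    fun_prop

/-- the values of a regular function on the fibres of the projection, as a multivalued function -/
theorem Noe.exists_mv [IsIntegrallyClosed R] [Algebra.FiniteType ℂ O] (N : Noe K inc ν z) :
    ∃ d : ℕ, 0 < d ∧ ∀ {E : Type} [NormedAddCommGroup E] [NormedSpace ℂ E] (β : E → Pt R)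
      (U : Set E), IsOpen U → (∀ σ : R, DifferentiableOn ℂ (fun y => β y σ) U) →
      (∀ y ∈ U, β y N.h ≠ 0) → ∀ g : O, ∃ F : E × (ν → ℂ) → Multiset ℂ,
        Um.MV d (U ×ˢ univ) F ∧ ∀ x ∈ U ×ˢ (univ : Set (ν → ℂ)), ∀ w, w ∈ F x ↔
          ∃ p : Pt O, p.res inc = β x.1 ∧ N.L p = x.2 ∧ p g = w := by
  obtain ⟨d, hd⟩ := N.exists_min
  refine ⟨d + 1, d.succ_pos, fun {E} _ _ β U hU hβ h0 g => ?_⟩
  obtain ⟨e, Q, hQ, -, hQd, hr, -⟩ := hd g
  have dβ : ∀ x ∈ U ×ˢ (univ : Set (ν → ℂ)), ∀ σ : R, DifferentiableAt ℂ (fun y => β y σ) x.1 :=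
    fun x hx σ => (hβ σ).differentiableAt (hU.mem_nhds hx.1)
  have m0 : Um.MV Q.natDegree (U ×ˢ (univ : Set (ν → ℂ)))
      fun x => (Q.map (evP (β x.1) x.2)).roots :=
    Um.MV.of_monic (Q := fun x : E × (ν → ℂ) => Q.map (evP (β x.1) x.2)) (hU.prod isOpen_univ)
      (fun _ _ => ⟨hQ.map _, hQ.natDegree_map _⟩) fun i x hx => by
        simp only [coeff_map]
        exact (evP_diff (dβ x hx) (Q.coeff i)).differentiableWithinAt
  have dh : ∀ x ∈ U ×ˢ (univ : Set (ν → ℂ)),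
      DifferentiableAt ℂ (fun x : E × (ν → ℂ) => (β x.1 N.h ^ e)⁻¹) x := fun x hx => by
    have a : DifferentiableAt ℂ (fun x : E × (ν → ℂ) => β x.1 N.h) x :=
      (dβ x hx N.h).comp x differentiableAt_fst
    exact (a.fun_pow e).fun_inv (pow_ne_zero e (h0 _ hx.1))
  have m := m0.smul dh
  refine ⟨_, m.mono subset_rfl (hQd.trans d.le_succ), fun x hx w => ?_⟩
  have ne := pow_ne_zero e (h0 _ hx.1)
  simp only [Multiset.mem_map, mem_roots (hQ.map _).ne_zero, IsRoot, eval_map, hr _ _ _ (h0 _ hx.1),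
    smul_eq_mul]
  constructor
  · rintro ⟨_, ⟨p, h1, h2, rfl⟩, rfl⟩
    exact ⟨p, h1, h2, (inv_mul_cancel_left₀ ne _).symm⟩
  · rintro ⟨p, h1, h2, rfl⟩
    exact ⟨_, ⟨p, h1, h2, rfl⟩, inv_mul_cancel_left₀ ne _⟩

theorem circ_box {E E' : Type} [NormedAddCommGroup E] [NormedSpace ℂ E] [NormedAddCommGroup E']
    [NormedSpace ℂ E'] (y0 : E) (r : ℝ) (a0 : E') (ρ : ℝ) :
    ∀ x ∈ ball y0 r ×ˢ ball a0 ρ, ∀ a : ℂ, ‖a‖ ≤ 1 →
      (y0, a0) + a • (x - (y0, a0)) ∈ ball y0 r ×ˢ ball a0 ρ := fun x hx a ha =>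
  ⟨Um.circ_ball y0 r x.1 hx.1 a ha, Um.circ_ball a0 ρ x.2 hx.2 a ha⟩

/-- (M) moving the point: one box -/
theorem Noe.move [IsIntegrallyClosed R] [Algebra.FiniteType ℂ O] (N : Noe K inc ν z) {θ : ℝ}
    (hθ : 0 < θ) : ∃ c : ℝ, 0 < c ∧ ∀ {E : Type} [NormedAddCommGroup E] [NormedSpace ℂ E]
    [FiniteDimensional ℂ E] [MeasurableSpace E] [BorelSpace E] (μ : Measure E)
    [μ.IsAddHaarMeasure] (β : E → Pt R) (y0 : E) (r : ℝ) (a0 : ν → ℂ) (ρ : ℝ),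
    (∀ σ : R, AnalyticOnNhd ℂ (fun y => β y σ) (Metric.ball y0 r)) →
    (∀ y ∈ Metric.ball y0 r, β y N.h ≠ 0) → ∀ (g : O) (Λ lam : ℝ), 0 < lam →
    (∀ p : Pt O, ∀ y ∈ Metric.ball y0 r, p.res inc = β y → N.L p ∈ Metric.ball a0 ρ → ‖p g‖ ≤ Λ) →
    (∃ p : Pt O, p.res inc = β y0 ∧ N.L p = a0 ∧ lam ≤ ‖p g‖) →
    (μ.prod volume) {x ∈ Metric.ball y0 r ×ˢ Metric.ball a0 ρ | ∀ p : Pt O, p.res inc = β x.1 →
        N.L p = x.2 → ‖p g‖ < c * Λ * (lam / Λ) ^ (1 / θ)} ≤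
      ENNReal.ofReal θ * (μ.prod volume) (Metric.ball y0 r ×ˢ Metric.ball a0 ρ) := by
  obtain ⟨d, d0, hd⟩ := N.exists_mv
  have d1 : (1 : ℝ) ≤ d := by exact_mod_cast d0
  refine ⟨(2 * d : ℝ)⁻¹ ^ (1 / θ), by positivity, ?_⟩
  intro E _ _ _ _ _ μ _ β y0 r a0 ρ hβ h0 g Λ lam hl hΛ ⟨p0, e1, e2, hp⟩
  have := FiniteDimensional.proper ℂ E
  have : BorelSpace (E × (ν → ℂ)) := Prod.borelSpace
  have : (μ.prod (volume : Measure (ν → ℂ))).IsAddHaarMeasure := Measure.prod.instIsAddHaarMeasure _ _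
  by_cases hq : (y0, a0) ∈ ball y0 r ×ˢ ball a0 ρ
  swap
  · have : ball y0 r ×ˢ ball a0 ρ = ∅ := eq_empty_of_forall_notMem fun x hx =>
      hq ⟨mem_ball_self (pos_of_mem_ball hx.1), mem_ball_self (pos_of_mem_ball hx.2)⟩
    simp [this]
  obtain ⟨F, hF, hm⟩ := hd β _ isOpen_ball (fun σ => (hβ σ).differentiableOn) h0 g
  have s : ball y0 r ×ˢ ball a0 ρ ⊆ ball y0 r ×ˢ univ := prod_mono_right (subset_univ _)
  have l1 : lam ≤ Λ := hp.trans (hΛ p0 y0 hq.1 e1 (e2 ▸ hq.2))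
  have L0 : 0 < Λ := hl.trans_le l1
  have key := ((hF.mono s le_rfl).mq (μ := μ.prod volume) (isOpen_ball.prod isOpen_ball) hq
    (circ_box y0 r a0 ρ)).spread_const
    (by rw [Measure.prod_prod]; exact ENNReal.mul_ne_top measure_ball_ne_top measure_ball_ne_top)
    ((hm _ (s hq) _).2 ⟨p0, e1, e2, rfl⟩) hl hp L0 (.of_forall fun x hx w hw => by
      obtain ⟨p, h1, h2, rfl⟩ := (hm x (s hx) w).1 hw
      exact hΛ p _ hx.1 h1 (h2 ▸ hx.2)) (N := 1 / θ)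
    (T := {x ∈ ball y0 r ×ˢ ball a0 ρ | ∀ p : Pt O, p.res inc = β x.1 →
        N.L p = x.2 → ‖p g‖ < (2 * d : ℝ)⁻¹ ^ (1 / θ) * Λ * (lam / Λ) ^ (1 / θ)})
    (sep_subset _ _) (by nlinarith) (.of_forall fun x hx w hw => by
      obtain ⟨p, h1, h2, rfl⟩ := (hm x (s hx.1) w).1 hw
      refine (hx.2 p h1 h2).le.trans_eq ?_
      rw [mul_comm _ Λ, mul_assoc, ← Real.mul_rpow (by positivity) (by positivity)]
      congr 2
      field_simp)
  refine le_trans (le_of_eq ?_) (mul_le_mul_right key _)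
  rw [← mul_assoc, ← ENNReal.ofReal_mul hθ.le, mul_one_div_cancel hθ.ne', ENNReal.ofReal_one,
    one_mul]

end Pool.Agent.Lib.MP_5c318e_ag
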