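import Pool.Agent.Lib.MP_5c318e_ag.Np.MassA
import Pool.Agent.Lib.MP_5c318e_ag.Np.Gen
import Pool.Agent.Lib.MP_5c318e_ag.Np.MinB
import Pool.Agent.Lib.MP_5c318e_ag.Np.Move
import Pool.Agent.Lib.MP_5c318e_ag.Pm.Img
import Pool.Agent.Lib.MP_5c318e_ag.S.RAlgA
/-! Moving a point with a large value to a set of large volume near a prime at infinity. -/
set_option autoImplicit false
set_option linter.unusedSectionVars false
namespace Pool.Agent.Lib.MP_5c318e_ag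
open Set MeasureTheory Filter Topology Metric
open scoped ENNReal
noncomputable section

section abs

variable {R M α K ν : Type} [CommRing R] [IsDomain R] [Algebra ℂ R] [Field M] [Algebra ℂ M]
  {O : Subalgebra ℂ M} [Field K] [Algebra R K] [IsFractionRing R K] [Algebra K M]
  {inc : R →ₐ[ℂ] O} {z : α → O} [Fintype ν] [DecidableEq ν]
  [IsIntegrallyClosed R] [Algebra.FiniteType ℂ O]

namespace Noe

/-- the two sided bounds of type `V` -/
def Uni.At {N : Noe K inc ν z} {j0 : ν} (U : N.Uni j0) (s : Finset M) (A : ℝ) (V : N.DD)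
    (p : Pt O) : Prop :=
  ∀ φ ∈ s, p.Reg φ ∧ ‖p.ev φ‖ ≤ A * ‖N.L p‖ ^ (-(U.od V φ : ℝ) / U.e V) ∧
    ‖N.L p‖ ^ (-(U.od V φ : ℝ) / U.e V) ≤ A * ‖p.ev φ‖

variable (N : Noe K inc ν z)

theorem ms_cont : Continuous N.L := continuous_pi fun _ => Pt.continuous_apply _

theorem Uni.At.mono {N : Noe K inc ν z} {j0 : ν} {U : N.Uni j0} {s s' : Finset M} {A A' : ℝ}
    {V : N.DD} {p : Pt O} (h : U.At s A V p) (hs : s' ⊆ s) (hA : A ≤ A') : U.At s' A' V p :=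
  fun φ hφ => ⟨(h φ (hs hφ)).1, (h φ (hs hφ)).2.1.trans (by gcongr),
    (h φ (hs hφ)).2.2.trans (by gcongr)⟩

theorem Uni.ms_meas {N : Noe K inc ν z} {j0 : ν} (U : N.Uni j0) (s : Finset M) (A : ℝ)
    (V : N.DD) : MeasurableSet {p | U.At s A V p} := by
  have h1 : ∀ x : ℝ, Measurable fun p => ‖N.L p‖ ^ x := fun x =>
    N.ms_cont.norm.measurable.pow_const x
  have : {p | U.At s A V p} = ⋂ φ ∈ s, {p : Pt O | p.Reg φ} ∩
      ({p | ‖p.ev φ‖ ≤ A * ‖N.L p‖ ^ (-(U.od V φ : ℝ) / U.e V)} ∩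
        {p | ‖N.L p‖ ^ (-(U.od V φ : ℝ) / U.e V) ≤ A * ‖p.ev φ‖}) := by
    ext p; simp [Uni.At]
  rw [this]
  exact s.measurableSet_biInter fun φ _ => (Pt.isOpen_reg φ).measurableSet.inter
    ((measurableSet_le (Pt.measurable_ev φ).norm ((h1 _).const_mul A)).inter
      (measurableSet_le (h1 _) ((Pt.measurable_ev φ).norm.const_mul A)))

/-- the uniform bound for elements of bounded degree -/
theorem ms_bw : ∃ C : ℝ, 1 ≤ C ∧ ∀ (g : O) (k : ℕ) (b : Pt R), b N.h ≠ 0 → N.Deg g k →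
    ∀ Λ : ℝ, (∀ p : Pt O, p.res inc = b → ‖N.L p‖ ≤ 1 → ‖p g‖ ≤ Λ) →
    ∀ p : Pt O, p.res inc = b → ‖p g‖ ≤ C * Λ * max 1 ‖N.L p‖ ^ k := by
  obtain ⟨C, h1, h⟩ := N.bw
  refine ⟨C, h1, fun g k b hb hg => h g k b hb ?_⟩
  obtain ⟨A, -, hA⟩ := hg.grow (isCompact_singleton (x := b)) fun _ e => e ▸ hb
  exact ⟨A, fun p hp => hA p hp⟩

/-- moving the point inside one fibre -/
theorem ms_move : ∃ c : ℝ, 0 < c ∧ c ≤ 1 ∧ ∀ b : Pt R, b N.h ≠ 0 → ∀ (ρ : ℝ) (g : O) (Λ lam : ℝ)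
    (q : Pt O), 0 < lam → 0 ≤ Λ → q.res inc = b → lam ≤ ‖q g‖ →
    (∀ p : Pt O, p.res inc = b → N.L p ∈ ball (N.L q) ρ → ‖p g‖ ≤ Λ) →
    volume {a ∈ ball (N.L q) ρ | ∀ p : Pt O, p.res inc = b → N.L p = a →
      ‖p g‖ < c * Λ * (lam / Λ) ^ 4} ≤ ENNReal.ofReal (1 / 4) * volume (ball (N.L q) ρ) := by
  obtain ⟨c, c0, h⟩ := N.move (θ := 1 / 4) (by norm_num)
  refine ⟨min c 1, lt_min c0 one_pos, min_le_right _ _, fun b hb ρ g Λ lam q l0 L0 hq hl hΛ => ?_⟩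
  have key := h (volume : Measure ℂ) (fun _ => b) 0 1 (N.L q) ρ (fun _ => analyticOnNhd_const)
    (fun _ _ => hb) g Λ lam l0 (fun p _ _ => hΛ p) ⟨q, hq, rfl, hl⟩
  rw [show (1 : ℝ) / (1 / 4) = (4 : ℕ) by norm_num, Real.rpow_natCast, Measure.prod_prod,
    mul_left_comm] at key
  refine (ENNReal.mul_le_mul_iff_right (measure_ball_pos volume (0 : ℂ) one_pos).ne'
    measure_ball_lt_top.ne).1 (le_trans ?_ key)
  rw [← Measure.prod_prod]
  refine measure_mono fun x hx => ⟨⟨hx.1, hx.2.1⟩, fun p h1 h2 => (hx.2.2 p h1 h2).trans_le ?_⟩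
  gcongr
  exact min_le_left _ _

/-- a large value moves to a set of large volume whose points belong to one prime of `Pol` -/
theorem mass0 {j0 : ν} (U : N.Uni j0) (Pol : Set N.DD) (s : Finset M) (hs : (0 : M) ∉ s) :
    ∃ r : R, r ≠ 0 ∧ ∀ Q : Set (Pt R), IsCompact Q → (∀ b ∈ Q, b r ≠ 0) → ∃ A : ℝ, 2 ≤ A ∧
      ∀ (g : O) (k k2 : ℕ) (lam La : ℝ) (q : Pt O), q.res inc ∈ Q → 1 ≤ k → k2 ≤ k → 0 < lam →
        lam ≤ 1 → 1 ≤ La → N.Deg g k →
        (∀ D, D ∉ Pol → (k2 : ℤ) * U.e D ≤ U.od D g + k * U.e D) →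
        (∀ p : Pt O, p.res inc = q.res inc → ‖N.L p‖ ≤ 1 → ‖p g‖ ≤ La ^ k) →
        (lam * ‖N.L q‖) ^ k ≤ ‖q g‖ → (A * (La / lam) ^ 5) ^ k ≤ ‖N.L q‖ ^ k2 →
        ∃ D ∈ Pol, ENNReal.ofReal (‖N.L q‖ ^ (2 * Fintype.card ν) / A) ≤
          volume (N.L '' {p | p.res inc = q.res inc ∧ ‖N.L q‖ / 2 ≤ ‖N.L p‖ ∧
            ‖N.L p‖ ≤ 2 * ‖N.L q‖ ∧ ((lam / La) ^ 4 * ‖N.L q‖ / A) ^ k ≤ ‖p g‖ ∧ U.At s A D p}) := by
  classical
  have := N.finite_DD
  have := Fintype.ofFinite N.DD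
  choose σ y σ0 σ1 σ2 using U.exists_sig
  obtain ⟨De, De0, hDe⟩ := N.asym U (s ∪ Finset.univ.image fun D => (σ D : M)) (by
    simpa [hs] using σ0)
  obtain ⟨r, r0, hr⟩ := fib_box De0
  obtain ⟨Cb, Cb1, hb⟩ := N.ms_bw
  obtain ⟨cm, cm0, cm1, hm⟩ := N.ms_move
  refine ⟨r * N.h, mul_ne_zero r0 N.ne, fun Q hQ h0 => ?_⟩
  have h1 : ∀ b ∈ Q, b r ≠ 0 ∧ b N.h ≠ 0 := fun b hb => by simpa using h0 b hb
  obtain ⟨δ0, δp, hδ⟩ : ∃ δ0 : ℝ, 0 < δ0 ∧ ∀ b ∈ Q, δ0 ≤ ‖b r‖ :=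
    hQ.exists_forall_le' (Pt.continuous_apply r).norm.continuousOn
      fun b hb => norm_pos_iff.2 (h1 b hb).1
  obtain ⟨c, c0, hc⟩ := hr δ0 δp (1 / 4) (by norm_num)
  obtain ⟨A1, A10, hA1⟩ := hDe c c0 Q hQ
  obtain ⟨C1, hC1⟩ := (N.proper hQ (fun b hb => (h1 b hb).2) 1).exists_bound_of_continuousOn
    (f := fun p D => p (σ D)) (continuous_pi fun D => Pt.continuous_apply _).continuousOn
  set Cs := (|C1| + 1) * (A1 + 1) with hCs
  have Cs1 : 1 ≤ Cs := one_le_mul_of_one_le_of_one_le (by simp) (by linarith)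
  set A2 := 8 * Cb ^ 3 / cm with hA2
  have A21 : 1 ≤ A2 := by
    rw [hA2, le_div_iff₀ cm0]; nlinarith [one_le_pow₀ (n := 3) Cb1]
  set n := Fintype.card ν with hn
  set A3 : ℝ := 4 * (Fintype.card N.DD + 1) * 2 ^ n with hA3
  have A30 : 0 < A3 := by positivity
  have A40 : 4 * A2 ≤ 4 * Cb * A2 * Cs := by
    nlinarith [mul_le_mul Cb1 Cs1 zero_le_one (by linarith : 0 ≤ Cb)]
  refine ⟨4 * Cb * A2 * Cs + A1 + A3, by linarith,
    fun g k k2 lam La q hq k1 hk l0 l1 L1 hg gain hL hq1 far => ?_⟩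
  set A := 4 * Cb * A2 * Cs + A1 + A3 with hA
  set t := ‖N.L q‖ with ht
  set b := q.res inc with hbd
  have x1 : 1 ≤ La / lam := (one_le_div l0).2 (l1.trans L1)
  have x5 : 1 ≤ (La / lam) ^ 5 := one_le_pow₀ x1
  have t2 : 2 ≤ t := by
    by_contra k0
    have a1 : t ^ k2 < 2 ^ k := by
      rcases k2.eq_zero_or_pos with rfl | k3
      · simpa using one_lt_pow₀ (one_lt_two (α := ℝ)) (by omega)
      · exact (pow_lt_pow_left₀ (not_le.1 k0) (norm_nonneg _) k3.ne').trans_le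
          (pow_le_pow_right₀ one_le_two hk)
    exact (far.trans_lt a1).not_ge (pow_le_pow_left₀ zero_le_two (by nlinarith) k)
  have t0 : 0 < t := by linarith
  have L0 : 0 < La := by linarith
  have g0 : (g : M) ≠ 0 := fun e => by
    rw [show g = 0 from Subtype.ext e, map_zero, norm_zero] at hq1
    exact hq1.not_gt (by positivity)
  have hh := (h1 b hq).2
  have nb : ∀ a ∈ ball (N.L q) (t / 2), t / 2 ≤ ‖a‖ ∧ ‖a‖ ≤ 2 * t := fun a ha => by
    have q1 := mem_ball_iff_norm.1 ha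
    exact ⟨by linarith [norm_le_norm_add_norm_sub a (N.L q)],
      by linarith [norm_le_norm_add_norm_sub' a (N.L q)]⟩
  have up : ∀ p : Pt O, p.res inc = b → N.L p ∈ ball (N.L q) (t / 2) →
      ‖p g‖ ≤ Cb * La ^ k * (2 * t) ^ k := fun p hp ha => (hb g k b hh hg _ hL p hp).trans (by
    gcongr; exact max_le (by linarith) (nb _ ha).2)
  have B1 := hm b hh (t / 2) g _ _ q (by positivity) (by positivity) rfl hq1 up
  have B2 := hc b (hδ b hq) (N.L q) t2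
  -- the lower bound at a moved point
  have low : ((lam / La) ^ 4 * t / A2) ^ k * La ^ k ≤ cm * (Cb * La ^ k * (2 * t) ^ k) *
      ((lam * t) ^ k / (Cb * La ^ k * (2 * t) ^ k)) ^ 4 := by
    have e : cm * (Cb * La ^ k * (2 * t) ^ k) * ((lam * t) ^ k / (Cb * La ^ k * (2 * t) ^ k)) ^ 4 =
        cm / Cb ^ 3 * (((lam / La) ^ 4 * t / 8) ^ k * La ^ k) := by
      have e8 : (8 : ℝ) ^ k = (2 ^ k) ^ 3 := by rw [← pow_mul, mul_comm, pow_mul]; norm_num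
      have e4 : ∀ x : ℝ, (x ^ 4) ^ k = (x ^ k) ^ 4 := fun x => pow_right_comm x 4 k
      simp only [div_pow, mul_pow, e8, e4]
      field_simp
    have e' : (lam / La) ^ 4 * t / A2 = cm / Cb ^ 3 * ((lam / La) ^ 4 * t / 8) := by
      rw [hA2]; field_simp
    rw [e, e', mul_pow, mul_assoc]
    exact mul_le_mul_of_nonneg_right (pow_le_of_le_one (by positivity)
      ((div_le_one (by positivity)).2 (cm1.trans (one_le_pow₀ Cb1))) (by omega)) (by positivity)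
  -- primes outside `Pol` are excluded
  have excl : ∀ (p : Pt O) (V : N.DD), p.res inc = b → N.L p ∈ ball (N.L q) (t / 2) →
      ((lam / La) ^ 4 * t / A2) ^ k * La ^ k ≤ ‖p g‖ →
      ‖N.L p‖ ^ (-(U.od V (σ V) : ℝ) / U.e V) ≤ A1 * ‖p (σ V)‖ → V ∈ Pol := by
    intro p V hp ha h2 h3
    by_contra hV
    obtain ⟨n1, n2⟩ := nb _ ha
    have n3 : 1 ≤ ‖N.L p‖ := by linarith
    have e0 : (U.e V : ℝ) ≠ 0 := by exact_mod_cast (U.pos V).ne'
    rw [σ1, show -(((-(((y V : ℤ) + 1) * U.e V) : ℤ)) : ℝ) / U.e V = ((y V + 1 : ℕ) : ℝ) by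
      push_cast; field_simp, Real.rpow_natCast] at h3
    have hd : N.Deg (g * σ V ^ k2 : O) (k + y V * k2) := by
      push_cast
      rw [U.ms_deg (mul_ne_zero g0 (pow_ne_zero _ (σ0 V)))]
      intro W
      rw [U.ms_mul W g0 (pow_ne_zero _ (σ0 V)), U.ms_pow W (σ0 V)]
      by_cases hW : W = V
      · subst hW
        rw [σ1]; push_cast; linarith [gain W hV]
      · rw [σ2 V W hW]; push_cast; linarith [(U.ms_deg g0 k).1 hg W]
    have h4 := hb _ _ b hh hd (La ^ k * (|C1| + 1) ^ k2) (fun p' hp' hl => by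
      rw [map_mul, map_pow, norm_mul, norm_pow]
      gcongr
      · exact hL p' hp' hl
      · exact ((norm_le_pi_norm (fun D => p' (σ D)) V).trans (hC1 p' ⟨hp' ▸ hq, hl⟩)).trans
          ((le_abs_self _).trans (by simp))) p hp
    rw [map_mul, map_pow, norm_mul, norm_pow, max_eq_right n3] at h4
    set u := ‖N.L p‖ with hu
    have h5 : ‖p g‖ * u ^ k2 * u ^ (y V * k2) ≤ Cb * La ^ k * Cs ^ k * u ^ k * u ^ (y V * k2) :=
      calc _ = ‖p g‖ * (u ^ (y V + 1)) ^ k2 := by ring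
        _ ≤ ‖p g‖ * ((A1 + 1) * ‖p (σ V)‖) ^ k2 := by
            gcongr; exact h3.trans (by gcongr; linarith)
        _ = (A1 + 1) ^ k2 * (‖p g‖ * ‖p (σ V)‖ ^ k2) := by rw [mul_pow]; ring
        _ ≤ (A1 + 1) ^ k2 * (Cb * (La ^ k * (|C1| + 1) ^ k2) * u ^ (k + y V * k2)) := by gcongr
        _ = Cb * La ^ k * Cs ^ k2 * u ^ k * u ^ (y V * k2) := by rw [hCs, mul_pow, pow_add]; ring
        _ ≤ _ := by gcongr
    have h6 := le_of_mul_le_mul_right h5 (by positivity)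
    have h7 : ((lam / La) ^ 4 * t / A2) ^ k * La ^ k * (t ^ k2 / 2 ^ k) ≤
        (Cb * Cs * (2 * t)) ^ k * La ^ k :=
      calc _ ≤ ‖p g‖ * u ^ k2 := by
            gcongr
            calc _ ≤ t ^ k2 / 2 ^ k2 := by gcongr; exact one_le_two
              _ = (t / 2) ^ k2 := (div_pow _ _ _).symm
              _ ≤ _ := by gcongr
        _ ≤ _ := h6
        _ ≤ Cb ^ k * La ^ k * Cs ^ k * (2 * t) ^ k := by
            gcongr; exact le_self_pow₀ Cb1 (by omega)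
        _ = _ := by simp only [mul_pow]; ring
    have h8 : t ^ k2 ≤ (4 * Cb * A2 * Cs * (La / lam) ^ 4) ^ k := by
      have e : (Cb * Cs * (2 * t)) ^ k * La ^ k = ((lam / La) ^ 4 * t / A2) ^ k * La ^ k *
          ((4 * Cb * A2 * Cs * (La / lam) ^ 4) ^ k / 2 ^ k) := by
        rw [← div_pow, mul_right_comm _ (La ^ k), ← mul_pow ((lam / La) ^ 4 * t / A2)]
        congr 2
        field_simp
        norm_num
      rw [e] at h7
      exact (div_le_div_iff_of_pos_right (by positivity)).1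
        (le_of_mul_le_mul_left h7 (by positivity))
    refine (far.trans h8).not_gt (pow_lt_pow_left₀ ?_ (by positivity) (by omega))
    calc _ < A * (La / lam) ^ 4 := by gcongr; linarith
      _ ≤ _ := by gcongr; norm_num
  by_contra con
  push Not at con
  set G : N.DD → Set (Pt O) := fun D => {p | p.res inc = b ∧ t / 2 ≤ ‖N.L p‖ ∧
    ‖N.L p‖ ≤ 2 * t ∧ ((lam / La) ^ 4 * t / A) ^ k ≤ ‖p g‖ ∧ U.At s A D p} with hG
  have cov : ball (N.L q) (t / 2) ⊆ ({a ∈ ball (N.L q) (t / 2) | ∀ p : Pt O, p.res inc = b →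
      N.L p = a → ‖p g‖ < cm * (Cb * La ^ k * (2 * t) ^ k) *
        ((lam * t) ^ k / (Cb * La ^ k * (2 * t) ^ k)) ^ 4} ∪
      {a ∈ ball (N.L q) (t / 2) | (b, a) ∉ Big De c}) ∪
      ⋃ D ∈ Finset.univ.filter (· ∈ Pol), N.L '' G D := fun a ha => by
    by_contra k0
    simp only [mem_union, mem_setOf_eq, not_or, not_and, not_forall, not_lt, not_not] at k0
    obtain ⟨⟨a1, a2⟩, a3⟩ := k0
    obtain ⟨p, hp, rfl, a4⟩ := a1 ha
    obtain ⟨V, hV⟩ := hA1 p (hp ▸ hq) (hp ▸ a2 ha)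
    have a5 := low.trans a4
    refine a3 (mem_iUnion₂.2 ⟨V, by
      simpa using excl p V hp ha a5 (by simpa using (hV (σ V) (by simp)).2.2), p, ⟨hp, (nb _ ha).1,
        (nb _ ha).2, le_trans ?_ a5, Uni.At.mono hV Finset.subset_union_left (by linarith)⟩, rfl⟩)
    refine le_trans ?_ (le_mul_of_one_le_right (by positivity) (one_le_pow₀ L1))
    gcongr
    linarith
  have B3 : volume (⋃ D ∈ Finset.univ.filter (· ∈ Pol), N.L '' G D) ≤
      ENNReal.ofReal (1 / 4) * volume (ball (N.L q) (t / 2)) := by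
    refine (measure_biUnion_finset_le _ _).trans ((Finset.sum_le_card_nsmul _ _ _ fun D hD =>
      (con D (by simpa using hD)).le).trans ?_)
    rw [Measure.addHaar_ball_center, Rat.vol_ball (by positivity), ← ENNReal.ofReal_mul (by norm_num),
      nsmul_eq_mul, ← ENNReal.ofReal_natCast, ← ENNReal.ofReal_mul (by positivity)]
    refine ENNReal.ofReal_le_ofReal ?_
    calc _ ≤ (Fintype.card N.DD + 1 : ℝ) * (t ^ (2 * n) / A3) := by
          gcongr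
          · exact_mod_cast (Finset.card_le_univ _).trans (Nat.le_succ _)
          · linarith
      _ = 1 / 4 * (t ^ 2 / 2) ^ n := by rw [hA3, div_pow, ← pow_mul]; field_simp
      _ ≤ _ := by gcongr; nlinarith [Real.two_le_pi]
  have fin := (measure_mono cov).trans ((measure_union_le _ _).trans (add_le_add
    ((measure_union_le _ _).trans (add_le_add B1 B2)) B3))
  rw [← add_mul, ← add_mul, ← ENNReal.ofReal_add (by norm_num) (by norm_num),
    ← ENNReal.ofReal_add (by norm_num) (by norm_num)] at fin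
  refine fin.not_gt ?_
  conv_rhs => rw [← one_mul (volume _)]
  exact (ENNReal.mul_lt_mul_iff_left (measure_ball_pos _ _ (by positivity)).ne'
    measure_ball_lt_top.ne).2 (ENNReal.ofReal_lt_one.2 (by norm_num))

end Noe

end abs

variable {δ ν K M α : Type} [Fintype δ] [DecidableEq δ] [Fintype ν] [DecidableEq ν]
  [Field K] [Algebra ℂ K] [Field M] [Algebra ℂ M] [Algebra K M] [IsScalarTower ℂ K M]
  {B : Cht δ K} [IsFractionRing B.O K] [IsIntegrallyClosed B.O]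

/-- the same on a fibre of a family, with the area of the set -/
theorem Noe.mass (T : Rel B ν M) {z : α → T.X.O} (N : Noe K T.inc ν z) {j0 : ν} (U : N.Uni j0)
    (Pol : Set N.DD) (s : Finset M) (hs : (0 : M) ∉ s) :
    ∃ r : B.O, r ≠ 0 ∧ ∀ Q : Set (Pt B.O), IsCompact Q → (∀ b ∈ Q, b r ≠ 0) → ∃ A : ℝ, 2 ≤ A ∧
      ∀ b ∈ Q, ∀ (g : T.X.O) (k k2 : ℕ) (lam La : ℝ) (q : T.Fib b), 1 ≤ k → k2 ≤ k → 0 < lam →
        lam ≤ 1 → 1 ≤ La → N.Deg g k →
        (∀ D, D ∉ Pol → (k2 : ℤ) * U.e D ≤ U.od D g + k * U.e D) →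
        (∀ p : T.Fib b, ‖N.L p.1‖ ≤ 1 → ‖p.1 g‖ ≤ La ^ k) →
        (lam * ‖N.L q.1‖) ^ k ≤ ‖q.1 g‖ → (A * (La / lam) ^ 5) ^ k ≤ ‖N.L q.1‖ ^ k2 →
        ∃ D ∈ Pol, ∃ G : Set (T.Fib b), MeasurableSet G ∧
          (∀ p ∈ G, ‖N.L q.1‖ / 2 ≤ ‖N.L p.1‖ ∧ ‖N.L p.1‖ ≤ 2 * ‖N.L q.1‖ ∧
            ((lam / La) ^ 4 * ‖N.L q.1‖ / A) ^ k ≤ ‖p.1 g‖ ∧ U.At s A D p.1) ∧
          ENNReal.ofReal (‖N.L q.1‖ ^ (2 * Fintype.card ν) / A) ≤ ∫⁻ p in G,
            ENNReal.ofReal (‖p.1.ev (Jac T.dx fun j => (N.l j : M))‖ ^ 2) ∂(T.fib b).μ := by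
  obtain ⟨r, r0, h⟩ := N.mass0 U Pol s hs
  refine ⟨r, r0, fun Q hQ h0 => ?_⟩
  obtain ⟨A, A2, hA⟩ := h Q hQ h0
  refine ⟨A, A2, ?_⟩
  rintro b hb g k k2 lam La ⟨q, rfl⟩ k1 hk l0 l1 L1 hg gain hL hq far
  obtain ⟨D, hD, hv⟩ := hA g k k2 lam La q hb k1 hk l0 l1 L1 hg gain
    (fun p hp => hL ⟨p, hp⟩) hq far
  have c := N.ms_cont.norm.measurable
  have hm : MeasurableSet {p : T.Fib (q.res T.inc) | ‖N.L q‖ / 2 ≤ ‖N.L p.1‖ ∧
      ‖N.L p.1‖ ≤ 2 * ‖N.L q‖ ∧ ((lam / La) ^ 4 * ‖N.L q‖ / A) ^ k ≤ ‖p.1 g‖ ∧ U.At s A D p.1} :=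
    measurable_subtype_coe ((measurableSet_le measurable_const c).inter
      ((measurableSet_le c measurable_const).inter ((measurableSet_le measurable_const
        (Pt.continuous_apply g).norm.measurable).inter (U.ms_meas s A D))))
  refine ⟨D, hD, _, hm, fun p hp => hp, hv.trans (le_trans (measure_mono ?_) (T.img_fib _ N.l hm))⟩
  rintro _ ⟨p, hp, rfl⟩
  exact ⟨⟨p, hp.1⟩, hp.2, rfl⟩

end
end Pool.Agent.Lib.MP_5c318e_ag
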